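import Pool.Agent.Helper48.NS.Cst2
import Pool.Agent.Helper84.MT.Def

/-! Polynomials of degree at most `D` in `M` variables on the charts of a leaf: comparison of neighbouring cells, the
Remez inequality in one coordinate of the parameter for the size `ph`, and the Lipschitz bound of the chart. -/

set_option autoImplicit false

namespace Pool.Agent.Helper89.LX

open Finset Filter Topology Matrix Pool.Agent.Helper69.RK Pool.Agent.Helper31.EC Pool.Agent.Helper40.EL
open Pool.Agent.Helper84.MT Pool.Agent.Helper3.LF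
open Pool.Agent.Helper48.NS (cc qf_cc)

noncomputable section

variable {M D : ℕ}

theorem phi_ccM (r : ℝ) (c : Mon M D → ℝ) (p : Fin M → ℝ) : phi r (cc c) p = ph D (pol c) r p := by
  unfold phi ph
  refine Finset.sum_congr rfl fun j _ => ?_
  have h1 : vv (nodp D p r j) ⬝ᵥ (cc c *ᵥ vv (nodp D p r j)) = qf (cc c) (vv (nodp D p r j)) := rfl
  rw [h1, qf_cc, eval_pol]

theorem gaq_hom {S : Sp} (Q : S.VV M) (D : ℕ) : Pool.Agent.Helper48.NS.Gau.Hom (gaq Q D) :=
  fun _ _ _ _ => phi_smul _ _ _ _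

/-- the constant of the comparison of neighbouring cells -/
def cM (M D : ℕ) (K : ℝ) : ℝ := nn M D * (Cu D * Cm M D * K ^ D) ^ 2

theorem cM_one (M D : ℕ) {K : ℝ} (hK : 1 ≤ K) : 1 ≤ cM M D K :=
  one_le_mul_of_one_le_of_one_le (nn_one M D)
    (one_le_pow₀ (one_le_mul_of_one_le_of_one_le (one_le_mul_of_one_le_of_one_le (Cu_one D) (Cm_one M D))
      (one_le_pow₀ hK)))

theorem cM_Sub {S : Sp} (M D : ℕ) {K : ℕ → ℝ} (hK : S.Sub K) (h1 : ∀ᶠ k in UF, 1 ≤ K k) :
    S.Sub (fun k => cM M D (K k)) := by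
  have b1 : S.Sub (fun k => K k ^ (2 * D)) := Sub_pow' hK _
  have b2 : (0 : ℝ) ≤ nn M D * (Cu D * Cm M D) ^ 2 := by
    have := nn_one M D
    positivity
  have b3 := (S.Sub_const b2).mul b1
  refine b3.mono ?_ (Eventually.of_forall fun k => ?_)
  · filter_upwards [h1] with k hk
    have := cM_one M D hk
    linarith
  · unfold cM
    rw [mul_pow (Cu D * Cm M D), ← pow_mul, mul_comm D 2]
    exact le_of_eq (by ring)

/-- neighbouring points -/
theorem ph_nearM (c : Mon M D → ℝ) (r K : ℝ) (hr : 0 < r) (hK : 1 ≤ K) (p p' : Fin M → ℝ)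
    (h : ∀ i, |p' i - p i| + r ≤ K * r) : ph D (pol c) r p' ≤ cM M D K * ph D (pol c) r p :=
  ph_comp _ (pol_deg _) r r K hr hr.le hK p p' h

/-- shift of a polynomial -/
def shf (a : Fin M → ℝ) (q : MvPolynomial (Fin M) ℝ) : MvPolynomial (Fin M) ℝ :=
  MvPolynomial.bind₁ (fun i => MvPolynomial.X i + MvPolynomial.C (a i)) q

theorem eval_shf (a p : Fin M → ℝ) (q : MvPolynomial (Fin M) ℝ) :
    MvPolynomial.eval p (shf a q) = MvPolynomial.eval (fun i => p i + a i) q := by
  unfold shf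
  rw [MvPolynomial.eval, MvPolynomial.eval₂Hom_bind₁]
  congr 2
  funext i
  rw [MvPolynomial.coe_eval₂Hom, MvPolynomial.eval₂_add, MvPolynomial.eval₂_X, MvPolynomial.eval₂_C]
  rfl

theorem shf_deg (a : Fin M → ℝ) (q : MvPolynomial (Fin M) ℝ) : (shf a q).totalDegree ≤ q.totalDegree := by
  have h := totalDegree_bind_le q (fun i => MvPolynomial.X i + MvPolynomial.C (a i)) 1 (by
    intro i
    refine (MvPolynomial.totalDegree_add _ _).trans ?_
    rw [MvPolynomial.totalDegree_X, MvPolynomial.totalDegree_C]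
    simp)
  rwa [one_mul] at h

theorem eval_nodp (q : MvPolynomial (Fin M) ℝ) (r : ℝ) (p : Fin M → ℝ) (a : Fin M → Fin (D + 1)) :
    MvPolynomial.eval p (shf (fun i => r * nod D (a i)) q) = MvPolynomial.eval (nodp D p r a) q := by
  rw [eval_shf]
  rfl

/-- along the segment `f` polynomials of degree at most `D` obey the Remez and the Bernstein inequality -/
def SgP (M D N : ℕ) (B : ℝ) (f : ℝ → Fin M → ℝ) : Prop := ∀ P : MvPolynomial (Fin M) ℝ, P.totalDegree ≤ D →
  RemS N B (fun u => MvPolynomial.eval (f u) P) ∧ BmS B (fun u => MvPolynomial.eval (f u) P)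

/-- REMEZ in one coordinate of the parameter -/
theorem seg_rem {N e : ℕ} {B0 : ℝ} (F : (Fin e → ℝ) → Fin M → ℝ) (y0 : Fin e → ℝ)
    (hF : ∀ y z : Fin e → ℝ, (∀ i, |y i - y0 i| ≤ 1) → (∀ i, |z i - y0 i| ≤ 1) →
      SgP M D N B0 (fun u => F (fun i => y i + u * (z i - y i))))
    (q : MvPolynomial (Fin M) ℝ) (hq : q.totalDegree ≤ D) (r W : ℝ) (hW0 : 0 < W) (hW : W ≤ 1) (j : Fin e)
    (x : Fin (N + 1) → ℝ) (d ε : ℝ) (hd : 0 < d) (hx : ∀ i, |x i - y0 j| ≤ W)
    (hsep : ∀ i i', i ≠ i' → d * W ≤ |x i - x i'|)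
    (hε : ∀ i, ph D q r (F (Function.update y0 j (x i))) ≤ ε) (u : ℝ) (hu : |u - y0 j| ≤ W) :
    ph D q r (F (Function.update y0 j u)) ≤ (nn M D * (B0 ^ 2 * 4 ^ N)) * (1 / d) ^ (2 * N) * ε := by
  classical
  set y : Fin e → ℝ := Function.update y0 j (y0 j - W) with hy
  set z : Fin e → ℝ := Function.update y0 j (y0 j + W) with hz
  have hyb : ∀ i, |y i - y0 i| ≤ 1 := by
    intro i
    by_cases h : i = j
    · subst h
      rw [hy, Function.update_self, sub_sub_cancel_left, abs_neg, abs_of_pos hW0]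
      exact hW
    · rw [hy, Function.update_of_ne h, sub_self, abs_zero]
      exact zero_le_one
  have hzb : ∀ i, |z i - y0 i| ≤ 1 := by
    intro i
    by_cases h : i = j
    · subst h
      rw [hz, Function.update_self, add_sub_cancel_left, abs_of_pos hW0]
      exact hW
    · rw [hz, Function.update_of_ne h, sub_self, abs_zero]
      exact zero_le_one
  have hS := hF y z hyb hzb
  have e1 : ∀ t : ℝ, (fun i => y i + (t - y0 j + W) / (2 * W) * (z i - y i)) = Function.update y0 j t := by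
    intro t
    funext i
    by_cases h : i = j
    · subst h
      rw [hy, hz, Function.update_self, Function.update_self, Function.update_self]
      field_simp
      ring
    · rw [hy, hz, Function.update_of_ne h, Function.update_of_ne h, Function.update_of_ne h]
      ring
  have e2 : ∀ t : ℝ, |t - y0 j| ≤ W → (t - y0 j + W) / (2 * W) ∈ Set.Icc (0 : ℝ) 1 := by
    intro t ht
    rw [abs_le] at ht
    constructor
    · apply div_nonneg <;> linarith [ht.1]
    · rw [div_le_one (by linarith)]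
      linarith [ht.2]
  have hε0 : 0 ≤ ε := (ph_nonneg _ _ _).trans (hε 0)
  have h1 : ∀ a : Fin M → Fin (D + 1), (MvPolynomial.eval (nodp D (F (Function.update y0 j u)) r a) q) ^ 2 ≤
      (B0 * (1 / (d / 2)) ^ N) ^ 2 * ε := by
    intro a
    have h2 := (hS (shf (fun i => r * nod D (a i)) q) ((shf_deg _ _).trans hq)).1
      (fun i => (x i - y0 j + W) / (2 * W)) (d / 2) (Real.sqrt ε) (by linarith) (fun i => e2 _ (hx i)) (by
        intro i i' hii
        have h3 := hsep i i' hii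
        have h4 : (x i - y0 j + W) / (2 * W) - (x i' - y0 j + W) / (2 * W) = (x i - x i') / (2 * W) := by
          rw [← sub_div]
          congr 1
          ring
        show d / 2 ≤ |(x i - y0 j + W) / (2 * W) - (x i' - y0 j + W) / (2 * W)|
        rw [h4, abs_div, abs_of_pos (by linarith : 0 < 2 * W), le_div_iff₀ (by linarith)]
        nlinarith) (by
        intro i
        show |MvPolynomial.eval (F (fun i_1 => y i_1 + (x i - y0 j + W) / (2 * W) * (z i_1 - y i_1)))
          (shf (fun i => r * nod D (a i)) q)| ≤ _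
        rw [e1, eval_nodp]
        refine (node_le q r _ a).trans ?_
        exact Real.sqrt_le_sqrt (hε i)) ((u - y0 j + W) / (2 * W)) (e2 u hu)
    have h2' : |MvPolynomial.eval (F (fun i_1 => y i_1 + (u - y0 j + W) / (2 * W) * (z i_1 - y i_1)))
      (shf (fun i => r * nod D (a i)) q)| ≤ B0 * (1 / (d / 2)) ^ N * Real.sqrt ε := h2
    rw [e1, eval_nodp] at h2'
    exact sq_le_of_abs_le hε0 h2'
  have h3 : ph D q r (F (Function.update y0 j u)) ≤ nn M D * ((B0 * (1 / (d / 2)) ^ N) ^ 2 * ε) := by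
    unfold ph
    refine (Finset.sum_le_card_nsmul _ _ _ fun a _ => h1 a).trans (le_of_eq ?_)
    rw [nsmul_eq_mul, card_nodes]
  refine h3.trans (le_of_eq ?_)
  have e3 : (1 / (d / 2)) ^ N = 2 ^ N * (1 / d) ^ N := by
    rw [← mul_pow]
    congr 1
    field_simp
  have e4 : ((2 : ℝ) ^ N) ^ 2 = 4 ^ N := by
    rw [← pow_mul, mul_comm, pow_mul]
    norm_num
  have e5 : ((1 / d) ^ N) ^ 2 = (1 / d) ^ (2 * N) := by
    rw [← pow_mul, mul_comm]
  rw [e3, mul_pow, mul_pow, e4, e5]
  ring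

/-- LIPSCHITZ bound of a chart: two points, such that the segment may be prolonged to a unit segment in the ball -/
theorem chart_lip {N e : ℕ} {B0 Kb : ℝ} (hD : 1 ≤ D) (F : (Fin e → ℝ) → Fin M → ℝ) (y0 : Fin e → ℝ)
    (hF : ∀ y z : Fin e → ℝ, (∀ i, |y i - y0 i| ≤ 1) → (∀ i, |z i - y0 i| ≤ 1) →
      SgP M D N B0 (fun u => F (fun i => y i + u * (z i - y i))))
    (hb : ∀ y : Fin e → ℝ, (∀ i, |y i - y0 i| ≤ 1) → ∀ j, |F y j| ≤ Kb) (δ : ℝ) (hδ : 0 < δ) (hδ1 : δ ≤ 1)
    (a b : Fin e → ℝ) (ha : ∀ i, |a i - y0 i| ≤ 1) (hab : ∀ i, |a i + 1 / δ * (b i - a i) - y0 i| ≤ 1) (i : Fin M) :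
    |F b i - F a i| ≤ B0 * Kb * δ := by
  have hS := hF a (fun i => a i + 1 / δ * (b i - a i)) ha hab
  have h1 := (hS (MvPolynomial.X i) (by rw [MvPolynomial.totalDegree_X]; exact hD)).2 Kb (by
    intro u hu
    show |MvPolynomial.eval (F (fun i => a i + u * (a i + 1 / δ * (b i - a i) - a i))) (MvPolynomial.X i)| ≤ _
    rw [MvPolynomial.eval_X]
    apply hb
    intro i
    have e1 : a i + u * (a i + 1 / δ * (b i - a i) - a i) - y0 i =
        (1 - u) * (a i - y0 i) + u * (a i + 1 / δ * (b i - a i) - y0 i) := by ring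
    rw [e1]
    refine (abs_add_le _ _).trans ?_
    rw [abs_mul, abs_mul, abs_of_nonneg hu.1, abs_of_nonneg (by linarith [hu.2] : 0 ≤ 1 - u)]
    have := mul_le_mul_of_nonneg_left (ha i) (by linarith [hu.2] : 0 ≤ 1 - u)
    have := mul_le_mul_of_nonneg_left (hab i) hu.1
    linarith) δ ⟨hδ.le, hδ1⟩ 0 ⟨le_rfl, zero_le_one⟩
  replace h1 : |MvPolynomial.eval (F (fun i => a i + δ * (a i + 1 / δ * (b i - a i) - a i))) (MvPolynomial.X i) -
      MvPolynomial.eval (F (fun i => a i + 0 * (a i + 1 / δ * (b i - a i) - a i))) (MvPolynomial.X i)| ≤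
      B0 * |δ - 0| * Kb := h1
  rw [MvPolynomial.eval_X, MvPolynomial.eval_X] at h1
  have e2 : (fun i => a i + δ * (a i + 1 / δ * (b i - a i) - a i)) = b := by
    funext i
    field_simp
    ring
  have e3 : (fun i => a i + 0 * (a i + 1 / δ * (b i - a i) - a i)) = a := by
    funext i
    ring
  rw [e2, e3, sub_zero, abs_of_pos hδ] at h1
  refine h1.trans (le_of_eq ?_)
  ring

end

end Pool.Agent.Helper89.LX
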