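import Pool.Agent.Helper89.MG.Typd
import Pool.Agent.Helper84.MT.Leaf0
import Pool.Agent.Helper89.MG.Cmp

/-! TYPICAL VALUES (TYPD), corollaries: functions of the algebra of a leaf, polynomials of the point of the chart, sizes
of forms, gradients, volumes of forms. -/

set_option autoImplicit false

namespace Pool.Agent.Helper89.LX

open Finset Filter Topology Matrix Pool.Agent.Helper69.RK Pool.Agent.Helper31.EC Pool.Agent.Helper31.EC.Sp
open Pool.Agent.Helper40.EL Pool.Agent.Helper84.MT Pool.Agent.Helper3.LF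
open Pool.Agent.Helper95.LF (PdM)

noncomputable section

theorem upd_in {e : ℕ} {Y y : Fin e → ℝ} {ρ : ℝ} (hy : ∀ i, |y i - Y i| < ρ) {j : Fin e} {t : ℝ}
    (ht : |t - Y j| < ρ) : ∀ i, |Function.update y j t i - Y i| < ρ := by
  intro i
  by_cases h : i = j
  · subst h
    rw [Function.update_self]
    exact ht
  · rw [Function.update_of_ne h]
    exact hy i

theorem seg_in {a α β : ℝ} (hα : |α - a| < 1) (hβ : |β - a| < 1) {u : ℝ} (hu : u ∈ Set.Icc (0 : ℝ) 1) :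
    |α + u * (β - α) - a| < 1 := by
  have e1 : α + u * (β - α) - a = (1 - u) * (α - a) + u * (β - a) := by ring
  rw [e1]
  rw [abs_lt] at hα hβ ⊢
  have h0 := hu.1
  have h1 := hu.2
  rcases eq_or_lt_of_le h0 with h2 | h2
  · rw [← h2]
    constructor <;> linarith [hα.1, hα.2]
  · constructor <;> nlinarith [hα.1, hα.2, hβ.1, hβ.2]

/-- only the values on the open cube matter -/
theorem AxS.congr {e N : ℕ} {K : ℝ} {Y : Fin e → ℝ} {f g : (Fin e → ℝ) → ℝ} (h : AxS N K Y f)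
    (hfg : ∀ y : Fin e → ℝ, (∀ i, |y i - Y i| < 1) → f y = g y) : AxS N K Y g := by
  intro y hy j α β hα hβ
  have h1 : ∀ u ∈ Set.Icc (0 : ℝ) 1, f (Function.update y j (α + u * (β - α))) =
      g (Function.update y j (α + u * (β - α))) := fun u hu => hfg _ (upd_in hy (seg_in hα hβ hu))
  obtain ⟨h2, h3⟩ := h y hy j α β hα hβ
  refine ⟨fun x δ ε hδ hx hsep hε u hu => ?_, fun A hA u hu u' hu' => ?_⟩
  · show |g _| ≤ _
    rw [← h1 u hu]
    exact h2 x δ ε hδ hx hsep (fun i => by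
      show |f _| ≤ _
      rw [h1 _ (hx i)]
      exact hε i) u hu
  · show |g _ - g _| ≤ _
    rw [← h1 u hu, ← h1 u' hu']
    exact h3 A (fun v hv => by
      show |f _| ≤ _
      rw [h1 v hv]
      exact hA v hv) u hu u' hu'

/-- determinants of functions of the algebra -/
theorem Alg_det {e : ℕ} {c : Fin e → ℝ} {al : ℕ → Set ((Fin e → ℝ) → ℝ)} (h : Alg e c al) {ι : Type} [Fintype ι]
    [DecidableEq ι] {D : ℕ} (G : ι → ι → (Fin e → ℝ) → ℝ) (hG : ∀ i j, G i j ∈ al D) :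
    (fun y => (Matrix.of fun i j => G i j y).det) ∈ al (Fintype.card ι * D) := by
  classical
  have e1 : (fun y => (Matrix.of fun i j => G i j y).det) =
      fun y => ∑ σ : Equiv.Perm ι, ((Equiv.Perm.sign σ : ℤ) : ℝ) * ∏ i, G (σ i) i y := by
    funext y
    rw [Matrix.det_apply']
    rfl
  rw [e1]
  apply h.sum
  intro σ _
  apply h.smul
  have h2 := h.prod Finset.univ (fun _ : ι => D) (fun i => G (σ i) i) (fun i _ => hG _ _)
  rwa [Finset.sum_const, Finset.card_univ, smul_eq_mul] at h2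

/-! ### polynomial functions of the point -/

section
variable {M D : ℕ}

theorem pol_alg (M : ℕ) : Alg M (0 : Fin M → ℝ) (polyAl M 1) := polyAl_alg le_rfl _

theorem shift_mem {f : (Fin M → ℝ) → ℝ} {D : ℕ} (hf : f ∈ polyAl M 1 D) (a : Fin M → ℝ) :
    (fun p => f (fun i => p i + a i)) ∈ polyAl M 1 D := by
  obtain ⟨P, hP, rfl⟩ := hf
  refine ⟨shf a P, (shf_deg a P).trans hP, ?_⟩
  funext p
  exact (eval_shf a p P).symm

theorem vv_mem (a : Mon M D) : (fun p => (vv p : Mon M D → ℝ) a) ∈ polyAl M 1 D :=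
  ⟨a.mon, by rw [one_mul]; exact mon_deg a, rfl⟩

theorem dd_mem (i : Fin M) (a : Mon M D) : (fun p => (dd i p : Mon M D → ℝ) a) ∈ polyAl M 1 D :=
  ⟨MvPolynomial.pderiv i a.mon, by rw [one_mul]; exact pderiv_tdeg _ (mon_deg a) i, rfl⟩

theorem bil_mem (A : Matrix (Mon M D) (Mon M D) ℝ) {u v : (Fin M → ℝ) → Mon M D → ℝ}
    (hu : ∀ a, (fun p => u p a) ∈ polyAl M 1 D) (hv : ∀ a, (fun p => v p a) ∈ polyAl M 1 D) :
    (fun p => u p ⬝ᵥ (A *ᵥ v p)) ∈ polyAl M 1 (D + D) := by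
  have h := pol_alg M
  have e1 : (fun p => u p ⬝ᵥ (A *ᵥ v p)) = fun p => ∑ a, u p a * ∑ b, A a b * v p b := by
    funext p
    rfl
  rw [e1]
  apply h.sum
  intro a _
  apply h.mul D D _ _ (hu a)
  apply h.sum
  intro b _
  exact h.smul (hv b) (A a b)

theorem nodp_shift (r : ℝ) (j : Fin M → Fin (D + 1)) (p : Fin M → ℝ) :
    nodp D p r j = fun i => p i + r * nod D (j i) := rfl

/-- the size of a form is a polynomial of the point -/
theorem phi_mem (r : ℝ) (A : Matrix (Mon M D) (Mon M D) ℝ) : (fun p => phi r A p) ∈ polyAl M 1 (D + D) := by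
  unfold phi
  apply (pol_alg M).sum
  intro j _
  exact shift_mem (bil_mem A vv_mem vv_mem) (fun i => r * nod D (j i))

theorem gam_mem (r : ℝ) (A : Matrix (Mon M D) (Mon M D) ℝ) : (fun p => gam r A p) ∈ polyAl M 1 (D + D) := by
  unfold gam
  apply (pol_alg M).sum
  intro i _
  apply (pol_alg M).sum
  intro j _
  exact shift_mem (bil_mem A (dd_mem i) (dd_mem i)) (fun i => r * nod D (j i))

theorem Jq_mem (r : ℝ) (A : Matrix (Mon M D) (Mon M D) ℝ) (a b : Fin M) :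
    (fun p => Jq r A p a b) ∈ polyAl M 1 (D + D) := by
  have e1 : (fun p => Jq r A p a b) = fun p => ∑ j : Fin M → Fin (D + 1),
      dd a (nodp D p r j) ⬝ᵥ (A *ᵥ dd b (nodp D p r j)) := by
    funext p
    exact Jq_apply r A p a b
  rw [e1]
  apply (pol_alg M).sum
  intro j _
  exact shift_mem (bil_mem A (dd_mem a) (dd_mem b)) (fun i => r * nod D (j i))

/-- `det (1 + J)` is a polynomial of the point -/
theorem GQ_mem (r : ℝ) (A : Matrix (Mon M D) (Mon M D) ℝ) : (fun p => GQ r A p) ∈ polyAl M 1 (M * (D + D)) := by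
  have h := Alg_det (pol_alg M) (ι := Fin M) (D := D + D) (fun a b p => (1 : Matrix (Fin M) (Fin M) ℝ) a b + Jq r A p a b)
    (fun a b => (pol_alg M).add _ _ _ ((pol_alg M).const' _ _) (Jq_mem r A a b))
  rw [Fintype.card_fin] at h
  exact h

end

section
variable {S : Sp} {M : ℕ} {E : ℕ → ℕ} {Q : S.VV M} (l : Leaf S Q E)

/-- functions of the algebra of the leaf obey the axis-parallel inequalities -/
theorem leaf_axS (D : ℕ) : ∃ K : ℕ → ℝ, S.Sub K ∧ ∀ᶠ k in UF, ∀ ω, (S.F k).μ ω ≠ 0 → ∀ f ∈ l.al k ω D,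
    AxS (E D + 1) (K k) (l.Y.v k ω) f := by
  obtain ⟨K, hK, hs⟩ := l.seg D
  refine ⟨K, hK, ?_⟩
  filter_upwards [hs, hK.1] with k hk hK0 ω hω f hf y hy j α β hα hβ
  have h1 := hk ω hω f hf (Function.update y j α) (Function.update y j β)
    (fun i => (upd_in hy hα i).le) (fun i => (upd_in hy hβ i).le)
  have e1 : ∀ u : ℝ, (fun i => Function.update y j α i + u * (Function.update y j β i - Function.update y j α i)) =
      Function.update y j (α + u * (β - α)) := by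
    intro u
    funext i
    by_cases h : i = j
    · subst h
      rw [Function.update_self, Function.update_self, Function.update_self]
    · rw [Function.update_of_ne h, Function.update_of_ne h, Function.update_of_ne h]
      ring
  simp only [e1] at h1
  exact ⟨h1.1.mono (Nat.le_succ _) hK0 le_rfl, h1.2⟩

/-- TYPD0 (the statement `TypD` of helper14): functions of the leaf on the whole open cube -/
theorem typd0 (f : ∀ k, (S.F k).Ω → (Fin l.e → ℝ) → ℝ) (N : ℕ) (K : ℕ → ℝ) (hK : S.Sub K)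
    (hfn : ∀ᶠ k in UF, ∀ ω ω', (S.F k).μ ω ≠ 0 → (S.F k).μ ω' ≠ 0 → (S.F k).Z ω ω' → l.La k ω ω' → f k ω = f k ω')
    (hf : ∀ᶠ k in UF, ∀ ω, (S.F k).μ ω ≠ 0 → AxS (N + 1) (K k) (l.Y.v k ω) (f k ω)) :
    ∃ (K' : ℕ → ℝ) (G : ∀ k, (S.F k).Ω → Prop), S.Sub K' ∧ Typ G ∧ ∀ᶠ k in UF, ∀ ω, (S.F k).μ ω ≠ 0 → G k ω →
      ∀ y : Fin l.e → ℝ, (∀ i, |y i - l.Y.v k ω i| < 1) → |f k ω y| ≤ K' k * |f k ω (l.Y.v k ω)| := by
  obtain ⟨K', hK', hT⟩ := typd l (c := 0) le_rfl one_pos (fun k => FLab.triv (S.F k)) (by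
    have h1 : (fun k => (FLab.triv (S.F k)).leak (l.win 0 k)) = fun _ => (0 : ℝ) := by
      funext k
      exact FLab.triv_leak _
    show Tendsto _ _ _
    simp only [FLab.triv_leak, zero_div]
    exact tendsto_const_nhds) f (N := N + 1) (Nat.succ_pos N) hK hf (κ := fun _ => 1) (S.Sub_const zero_le_one) (by
    filter_upwards [hfn] with k hk w w' hw hw' hZ _ hLa _ y _
    have h2 : f k w = f k w' := hk w w' hw hw' hZ hLa
    rw [h2, one_mul])
  refine ⟨K', _, hK', hT, Eventually.of_forall fun k ω _ h y hy => h y (fun i => ?_)⟩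
  rw [S.dl_zero]
  exact hy i

/-- TYPICAL VALUES of functions of the algebra over a label without leak at the window `c` -/
theorem typ_al {c : ℝ} (h0 : 0 ≤ c) (h1 : c < 1) (L : Lab S) (hL : Nul S (fun k => (L k).leak (l.win c k))) {D : ℕ}
    (f : ∀ k, (L k).T.Ω → (Fin l.e → ℝ) → ℝ)
    (hf : ∀ᶠ k in UF, ∀ w, (L k).T.μ w ≠ 0 → ∃ g ∈ l.al k ((L k).p.π w) D, ∀ y : Fin l.e → ℝ,
      (∀ i, |y i - l.Y.v k ((L k).p.π w) i| < 1) → g y = f k w y) {κ : ℕ → ℝ} (hκ : S.Sub κ)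
    (hcl : ∀ᶠ k in UF, ∀ w w', (L k).T.μ w ≠ 0 → (L k).T.μ w' ≠ 0 → (L k).T.Z w w' → (L k).V w w' →
      l.La k ((L k).p.π w) ((L k).p.π w') → (∀ i, ⌊l.Y.v k ((L k).p.π w) i / S.dl c k⌋ =
        ⌊l.Y.v k ((L k).p.π w') i / S.dl c k⌋) →
      ∀ y : Fin l.e → ℝ, (∀ i, ⌊y i / S.dl c k⌋ = ⌊l.Y.v k ((L k).p.π w) i / S.dl c k⌋) →
        |f k w' y| ≤ κ k * |f k w y|) :
    ∃ K' : ℕ → ℝ, S.Sub K' ∧ Typ (S := L.sp) (fun k w => ∀ y : Fin l.e → ℝ,
      (∀ i, |y i - l.Y.v k ((L k).p.π w) i| < S.dl c k) → |f k w y| ≤ K' k * |f k w (l.Y.v k ((L k).p.π w))|) := by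
  obtain ⟨K, hK, hs⟩ := leaf_axS l D
  refine typd l h0 h1 L hL f (Nat.succ_pos (E D)) hK ?_ hκ hcl
  filter_upwards [hs, hf] with k h2 h3 w hw
  obtain ⟨g, hg, h4⟩ := h3 w hw
  exact (h2 _ ((L k).p.supp w hw) g hg).congr h4

/-- TYPICAL VALUES of polynomials of the point of the chart: coefficients known to the label, the leaf, the window, up to
tame factors -/
theorem typ_pol {c : ℝ} (h0 : 0 ≤ c) (h1 : c < 1) (L : Lab S) (hL : Nul S (fun k => (L k).leak (l.win c k))) {D : ℕ}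
    (g : ∀ k, (L k).T.Ω → (Fin M → ℝ) → ℝ) (hg : ∀ᶠ k in UF, ∀ w, (L k).T.μ w ≠ 0 → g k w ∈ polyAl M 1 D)
    {κ : ℕ → ℝ} (hκ : S.Sub κ) (hm : ∀ᶠ k in UF, ∀ w w', (L k).T.μ w ≠ 0 → (L k).T.μ w' ≠ 0 → (L k).T.Z w w' →
      (L k).V w w' → l.La k ((L k).p.π w) ((L k).p.π w') → (∀ i, ⌊l.Y.v k ((L k).p.π w) i / S.dl c k⌋ =
        ⌊l.Y.v k ((L k).p.π w') i / S.dl c k⌋) → ∀ p, |g k w' p| ≤ κ k * |g k w p|) :
    ∃ K' : ℕ → ℝ, S.Sub K' ∧ Typ (S := L.sp) (fun k w => ∀ y : Fin l.e → ℝ,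
      (∀ i, |y i - l.Y.v k ((L k).p.π w) i| < S.dl c k) → |g k w (l.F k ((L k).p.π w) y)| ≤
        K' k * |g k w (l.F k ((L k).p.π w) (l.Y.v k ((L k).p.π w)))|) := by
  apply typ_al l h0 h1 L hL (D := D) (fun k w y => g k w (l.F k ((L k).p.π w) y)) _ hκ
  · filter_upwards [hm, l.fn] with k h2 h3 w w' hw hw' hZ hV hLa hc y _
    have h4 : l.F k ((L k).p.π w) = l.F k ((L k).p.π w') :=
      h3 _ _ ((L k).p.supp w hw) ((L k).p.supp w' hw') (((L k).p.hZ w w' hw hw').mp hZ) hLa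
    show |g k w' (l.F k ((L k).p.π w') y)| ≤ κ k * |g k w (l.F k ((L k).p.π w) y)|
    rw [← h4]
    exact h2 w w' hw hw' hZ hV hLa hc _
  · filter_upwards [hg, l.eval_mem D] with k h2 h3 w hw
    obtain ⟨P, hP, hP'⟩ := h2 w hw
    rw [one_mul] at hP
    refine ⟨_, h3 _ ((L k).p.supp w hw) P hP, fun y _ => ?_⟩
    rw [hP']

/-- the constant of the comparison at the point -/
theorem pt_near : ∃ K : ℕ → ℝ, S.Sub K ∧ (∀ᶠ k in UF, 1 ≤ K k) ∧ ∀ᶠ k in UF, ∀ ω, (S.F k).μ ω ≠ 0 → ∀ i,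
    |Q.v k ω i - l.F k ω (l.Y.v k ω) i| + S.dl 1 k ≤ K k * S.dl 1 k ∧
    |l.F k ω (l.Y.v k ω) i - Q.v k ω i| + S.dl 1 k ≤ K k * S.dl 1 k := by
  obtain ⟨K, hK, hp⟩ := l.pt
  refine ⟨fun k => K k + 1, hK.add (S.Sub_const zero_le_one), ?_, ?_⟩
  · filter_upwards [hK.1] with k hk
    linarith
  · filter_upwards [hp] with k hk ω hω i
    have h1 := hk ω hω i
    have h2 : |l.F k ω (l.Y.v k ω) i - Q.v k ω i| = |Q.v k ω i - l.F k ω (l.Y.v k ω) i| := abs_sub_comm _ _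
    rw [h2]
    constructor <;> linarith

/-- WINDOW BOUND: forms known to a label without leak at the window `c` (and the leaf) are typically not larger on the
whole window than at the point -/
theorem typ_phi {c : ℝ} (h0 : 0 ≤ c) (h1 : c < 1) (L : Lab S) (hL : Nul S (fun k => (L k).leak (l.win c k))) {D : ℕ}
    (A : ∀ k, (L k).T.Ω → Matrix (Mon M D) (Mon M D) ℝ) (hA : ∀ᶠ k in UF, ∀ w, (L k).T.μ w ≠ 0 → PdM (A k w))
    (hm : ∀ᶠ k in UF, ∀ w w', (L k).T.μ w ≠ 0 → (L k).T.μ w' ≠ 0 → (L k).T.Z w w' → (L k).V w w' →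
      l.La k ((L k).p.π w) ((L k).p.π w') → A k w = A k w') :
    ∃ K' : ℕ → ℝ, S.Sub K' ∧ Typ (S := L.sp) (fun k w => ∀ y : Fin l.e → ℝ,
      (∀ i, |y i - l.Y.v k ((L k).p.π w) i| < S.dl c k) → phi (S.dl 1 k) (A k w) (l.F k ((L k).p.π w) y) ≤
        K' k * phi (S.dl 1 k) (A k w) (Q.v k ((L k).p.π w))) := by
  obtain ⟨K1, hK1, hT⟩ := typ_pol l h0 h1 L hL (D := D + D) (fun k w p => phi (S.dl 1 k) (A k w) p)
    (Eventually.of_forall fun k w _ => phi_mem _ _) (κ := fun _ => 1) (S.Sub_const zero_le_one) (by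
      filter_upwards [hm] with k hk w w' hw hw' hZ hV hLa _ p
      rw [hk w w' hw hw' hZ hV hLa, one_mul])
  obtain ⟨K2, hK2, hK21, hn⟩ := pt_near l
  refine ⟨fun k => K1 k * cM M D (K2 k), hK1.mul (cM_Sub M D hK2 hK21), hT.mono ?_⟩
  filter_upwards [hA, hK1.1, hK21, hn] with k g1 g2 g3 g4 w hw g5 y hy
  have hP := g1 w hw
  have h3 := g5 y hy
  rw [abs_of_nonneg (phi_nonneg _ (fun x => hP.nonneg x) _), abs_of_nonneg (phi_nonneg _ (fun x => hP.nonneg x) _)] at h3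
  refine h3.trans ?_
  rw [mul_assoc]
  apply mul_le_mul_of_nonneg_left _ g2
  exact phi_comp (A k w) hP (S.dl 1 k) (S.dl 1 k) (K2 k) (S.dl_pos 1 k) (S.dl_pos 1 k).le g3 _ _
    (fun i => (g4 _ ((L k).p.supp w hw) i).2)

/-- the volume factor of a known form is typically not larger on the whole window than at the point -/
theorem typ_GQ {c : ℝ} (h0 : 0 ≤ c) (h1 : c < 1) (L : Lab S) (hL : Nul S (fun k => (L k).leak (l.win c k))) {D : ℕ}
    (A : ∀ k, (L k).T.Ω → Matrix (Mon M D) (Mon M D) ℝ) (hA : ∀ᶠ k in UF, ∀ w, (L k).T.μ w ≠ 0 → PdM (A k w))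
    (hm : ∀ᶠ k in UF, ∀ w w', (L k).T.μ w ≠ 0 → (L k).T.μ w' ≠ 0 → (L k).T.Z w w' → (L k).V w w' →
      l.La k ((L k).p.π w) ((L k).p.π w') → A k w = A k w') :
    ∃ K' : ℕ → ℝ, S.Sub K' ∧ Typ (S := L.sp) (fun k w => ∀ y : Fin l.e → ℝ,
      (∀ i, |y i - l.Y.v k ((L k).p.π w) i| < S.dl c k) → GQ (S.dl 1 k) (A k w) (l.F k ((L k).p.π w) y) ≤
        K' k * GQ (S.dl 1 k) (A k w) (Q.v k ((L k).p.π w))) := by
  obtain ⟨K1, hK1, hT⟩ := typ_pol l h0 h1 L hL (D := M * (D + D)) (fun k w p => GQ (S.dl 1 k) (A k w) p)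
    (Eventually.of_forall fun k w _ => GQ_mem _ _) (κ := fun _ => 1) (S.Sub_const zero_le_one) (by
      filter_upwards [hm] with k hk w w' hw hw' hZ hV hLa _ p
      rw [hk w w' hw hw' hZ hV hLa, one_mul])
  obtain ⟨K2, hK2, hK21, hn⟩ := pt_near l
  have hcQ : (0 : ℝ) ≤ cQ M D ^ M := by
    have := cQ_one M D
    positivity
  refine ⟨fun k => K1 k * (cQ M D ^ M * K2 k ^ (2 * D * M)), hK1.mul ((S.Sub_const hcQ).mul (Sub_pow' hK2 _)),
    hT.mono ?_⟩
  filter_upwards [hA, hK1.1, hK21, hn] with k g1 g2 g3 g4 w hw g5 y hy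
  have hP := g1 w hw
  have h3 := g5 y hy
  have hnn : ∀ p, 0 ≤ GQ (S.dl 1 k) (A k w) p := fun p =>
    zero_le_one.trans (one_le_GQ _ hP.1 (fun x => hP.nonneg x) p)
  rw [abs_of_nonneg (hnn _), abs_of_nonneg (hnn _)] at h3
  refine h3.trans ?_
  rw [mul_assoc]
  apply mul_le_mul_of_nonneg_left _ g2
  exact GQ_comp (A k w) hP (S.dl 1 k) (S.dl 1 k) (K2 k) (S.dl_pos 1 k) (S.dl_pos 1 k).le g3 _ _
    (fun i => (g4 _ ((L k).p.supp w hw) i).2)

end

end

end Pool.Agent.Helper89.LX
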