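import Pool.Agent.Helper48.NS.Cst2
import Pool.Agent.Helper84.MT.Canf

/-! THEOREM COST, abstract form, for a family of conditions (port of helper48's Vari, Cst, Cst2): over a maximal label of
a family with an optimal form, a label of information `i` cannot predict a unit combination smaller than `2 ^ (-(C i) n)`,
if every resampling step costs at most `C` times the leak. -/

set_option autoImplicit false

namespace Pool.Agent.Helper89.LX

open Finset Filter Topology Matrix Pool.Agent.Helper69.RK Pool.Agent.Helper31.EC Pool.Agent.Helper40.EL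
open Pool.Agent.Helper48.NS Pool.Agent.Helper59.LF
open Pool.Agent.Helper95.LF (PdM)

noncomputable section

/-- VARIATIONAL PRINCIPLE for a family of conditions -/
theorem varif (T : Sp) (X : Type) {κ : Type} (A : κ → Part T) (G : ∀ k, (T.F k).Ω → X → Prop)
    (hG : ∀ k ω ω' c, (T.F k).μ ω ≠ 0 → (T.F k).μ ω' ≠ 0 → (T.F k).Z ω ω' → G k ω c → G k ω' c)
    (f : ∀ k, (T.F k).Ω → X → ℝ) (M : ℝ) (hf : ∀ k ω c, f k ω c ≤ M)
    (htr : ∀ y : Lab T, y.DMf A → Nul T (fun k => (y k).info)) (Cp : κ → ℝ) (C : ℝ) (hC : 0 ≤ C)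
    (hA : ∀ i, Cp i < C) (ε : κ → ℕ → ℝ) (hε : ∀ i, Tendsto (ε i) UF (𝓝 0))
    (sA : ∀ i, ∀ᶠ k in UF, ∀ x : CL (T.F k) X, x.Good (G k) →
      x.E (f k) - Cp i * (x.l.leak (A i k) / (T.F k).n) - ε i k ≤ (x.rs (A i k)).E (f k))
    (x₀ : ∀ k, CL (T.F k) X) (h₀ : ∀ᶠ k in UF, (x₀ k).Good (G k)) :
    ∃ y : ∀ k, CL (T.F k) X, (∀ᶠ k in UF, (y k).Good (G k)) ∧ Lab.DMf (fun k => (y k).l) A ∧
      Nul T (fun k => (y k).l.info) ∧
      ∀ᶠ k in UF, (x₀ k).E (f k) - C * ((x₀ k).l.info / (T.F k).n) ≤ (y k).E (f k) := by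
  classical
  have hex : ∀ k, ∃ y : CL (T.F k) X, (x₀ k).Good (G k) → (y.Good (G k) ∧ (x₀ k).pot (f k) C ≤ y.pot (f k) C ∧
      ∀ z : CL (T.F k) X, z.Good (G k) → z.pot (f k) C ≤ y.pot (f k) C + 1 / (T.F k).n) := by
    intro k
    by_cases h : (x₀ k).Good (G k)
    · obtain ⟨y, h1, h2, h3⟩ := CL.near_max (G k) (f k) M C (1 / (T.F k).n) (hf k) hC
        (div_pos one_pos (T.F k).pos) (x₀ k) h
      exact ⟨y, fun _ => ⟨h1, h2, h3⟩⟩
    · exact ⟨x₀ k, fun h' => absurd h' h⟩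
  choose y hy using hex
  have hδ : Tendsto (fun k => 1 / (T.F k).n) UF (𝓝 0) := T.div_n_tendsto 1
  have hyG : ∀ᶠ k in UF, (y k).Good (G k) := by
    filter_upwards [h₀] with k hk using (hy k hk).1
  have hDM : Lab.DMf (fun k => (y k).l) A := by
    intro i
    have h1 : Tendsto (fun k => (C - Cp i)⁻¹ * (1 / (T.F k).n + ε i k)) UF (𝓝 0) := by
      have := (hδ.add (hε i)).const_mul (C - Cp i)⁻¹
      rwa [add_zero, mul_zero] at this
    refine tendsto_of_tendsto_of_tendsto_of_le_of_le' tendsto_const_nhds h1 ?_ ?_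
    · exact Eventually.of_forall fun k => div_nonneg (FLab.leak_nonneg _ _) (T.F k).pos.le
    · filter_upwards [h₀, sA i] with k hk hs
      obtain ⟨a1, a2, a3⟩ := hy k hk
      have a4 := CL.small_leak (G k) (hG k) (f k) C (Cp i) (1 / (T.F k).n) (ε i k) (y k) a1 a3 (A i k) (hs (y k) a1)
      rw [inv_mul_eq_div, le_div_iff₀ (by linarith [hA i]), mul_comm]
      exact a4
  refine ⟨y, hyG, hDM, htr _ hDM, ?_⟩
  filter_upwards [h₀] with k hk
  obtain ⟨a1, a2, a3⟩ := hy k hk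
  have a4 : 0 ≤ C * ((y k).l.info / (T.F k).n) := mul_nonneg hC (div_nonneg (FLab.info_nonneg _) (T.F k).pos.le)
  unfold CL.pot at a2
  linarith

variable {ι : Type} [Fintype ι] [DecidableEq ι] {S : Sp} (Φ : Gau S ι) (x : ∀ k, FD (S.F k) ι)
  (y : ∀ k, CL ((Ov x).F k) (ι → ℝ)) {κ : Type}

theorem nw_DMf {A : κ → Part S} (D : ℝ) (hD : 0 ≤ D) (hx : Lab.DMf (fun k => (x k).l) A)
    (hy : Lab.DMf (S := Ov x) (fun k => (y k).l) (fun i => Lab.up (fun k => (x k).l) 1 one_pos (A i))) :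
    Lab.DMf (fun k => (nw Φ x y D k).l) A := fun i =>
  (nw_DM Φ x y D hD (hx.dm i i) (hy.dm i i)).1

variable {Φ x y}

/-- admissible -/
theorem nw_Adf [Finite κ] {A : κ → Part S} (hsm : Gau.Hom Φ) (D : ℝ) (hD : 0 ≤ D) (hx : Φ.Adf A x)
    (hG : ∀ᶠ k in UF, (y k).Good (GdC x k))
    (hy : Lab.DMf (S := Ov x) (fun k => (y k).l) (fun i => Lab.up (fun k => (x k).l) 1 one_pos (A i))) :
    Φ.Adf A (nw Φ x y D) := by
  classical
  have hDM := nw_DMf Φ x y D hD (Gau.Adf.dm Φ hx) hy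
  intro η hη
  have hη4 : 0 < η / 4 := by linarith
  have hnk : ∀ᶠ k in UF, (4 / η : ℝ) ≤ (S.F k).n := S.lim.eventually (eventually_ge_atTop _)
  filter_upwards [hx _ hη4, hG, leak_evf hDM hη, hnk] with k hk hGk d1 hnk
  have hn := (S.F k).pos
  have hsz : (nw Φ x y D k).l.T.pb (fun ω => ¬ Φ.φ k ((nw Φ x y D k).l.p.π ω) (gm Φ x y D k ω) ≤
      2 ^ (η * (S.F k).n)) ≤ η := by
    have h2 : (nw Φ x y D k).l.T.pb (fun ω => ¬ Φ.φ k ((nw Φ x y D k).l.p.π ω) (gm Φ x y D k ω) ≤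
        2 ^ (η * (S.F k).n)) ≤ (y k).l.T.pb (fun ω => ¬ Φ.φ k ((x k).l.p.π ((y k).l.p.π ω))
          ((x k).g ((y k).l.p.π ω)) ≤ 2 ^ (η / 4 * (S.F k).n)) := by
      apply FSp.pb_mono (F := (y k).l.T)
      intro ω h0 h3 h4
      apply h3
      have hg := (hk.2.1 _ ((y k).l.p.supp ω h0)).1
      have hU : UnitC ((x k).g ((y k).l.p.π ω)) ((y k).c ω) := hGk ω h0
      have e1 : (1 : ℝ) ≤ 2 ^ (η / 4 * (S.F k).n) := Real.one_le_rpow (by norm_num) (by positivity)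
      have e2 : (2 : ℝ) * 2 ^ (η / 4 * (S.F k).n) ≤ 2 ^ (η * (S.F k).n) := by
        rw [mul_comm, ← Real.rpow_add_one (by norm_num)]
        apply Real.rpow_le_rpow_of_exponent_le (by norm_num)
        have : 1 ≤ η / 4 * (S.F k).n := by
          rw [div_le_iff₀ hη] at hnk
          linarith
        nlinarith
      show Φ.φ k ((x k).l.p.π ((y k).l.p.π ω)) (gm Φ x y D k ω) ≤ _
      unfold gm
      split_ifs with h5
      · refine (g1_phi hsm D hD k ω hg hU).trans ?_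
        have := max_le e1 h4
        linarith
      · linarith
    have h6 := pb_y (y := y) k (fun ω => ¬ Φ.φ k ((x k).l.p.π ω) ((x k).g ω) ≤ 2 ^ (η / 4 * (S.F k).n))
    have h7 := hk.2.2.1
    linarith
  refine ⟨d1, fun ω h0 => ?_, hsz, hsz⟩
  have h2 : Cpd (Φ.cp k) (gm Φ x y D k ω) := by
    unfold gm
    split_ifs with h3
    · exact h3
    · exact (hk.2.1 _ ((y k).l.p.supp ω h0)).1
  exact ⟨h2, h2⟩

/-- an optimal form leaves no gain -/
theorem no_gainf [Finite κ] {A : κ → Part S} (hsm : Gau.Hom Φ) (D : ℝ) (hD : 0 ≤ D) (hx : Φ.Optf A x)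
    (hG : ∀ᶠ k in UF, (y k).Good (GdC x k))
    (hy : Lab.DMf (S := Ov x) (fun k => (y k).l) (fun i => Lab.up (fun k => (x k).l) 1 one_pos (A i)))
    (θ : ℝ) (hθ : 0 < θ) (hE : ∀ᶠ k in UF, θ ≤ (y k).E (fex Φ x D k)) : False := by
  classical
  have hAd := nw_Adf (y := y) hsm D hD hx.1 hG hy
  have hopt := hx.2 _ hAd
  set η : ℝ := min (1 / 2) (θ / (4 * (D + 1))) with hη
  have hη0 : 0 < η := lt_min (by norm_num) (by positivity)
  have hη1 : η ≤ 1 / 2 := min_le_left _ _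
  have hη2 : D * η ≤ θ / 4 := by
    have h1 : η ≤ θ / (4 * (D + 1)) := min_le_right _ _
    have h2 : D * η ≤ (D + 1) * (θ / (4 * (D + 1))) := by nlinarith
    have h3 : (D + 1) * (θ / (4 * (D + 1))) = θ / 4 := by field_simp
    linarith
  have hnk : ∀ᶠ k in UF, (4 / θ + 2 : ℝ) ≤ (S.F k).n := S.lim.eventually (eventually_ge_atTop _)
  have hgain : ∀ᶠ k in UF, (x k).sc / (S.F k).n + θ ≤ (nw Φ x y D k).sc / (S.F k).n := by
    filter_upwards [hx.1 η hη0, hG, hE, Φ.cap, hnk] with k hk hGk hEk hcap hnk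
    have hn := (S.F k).pos
    have h4θ : 0 < 4 / θ := by positivity
    have h1 := nw_sc (Φ := Φ) (x := x) (y := y) D hD k (fun ω h => (hk.2.1 ω h).1) hGk
    have h2 : (y k).l.T.pb (fun ω => ¬ Cpd (Φ.cp k) (g1 Φ x y D k ω)) ≤ η := by
      have h3 : (y k).l.T.pb (fun ω => ¬ Cpd (Φ.cp k) (g1 Φ x y D k ω)) ≤
          (y k).l.T.pb (fun ω => ¬ Φ.φ k ((x k).l.p.π ((y k).l.p.π ω)) ((x k).g ((y k).l.p.π ω)) ≤
            2 ^ (η * (S.F k).n)) := by
        apply FSp.pb_mono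
        intro ω h0 h3 h4
        apply h3
        have a1 : (x k).l.T.μ ((y k).l.p.π ω) ≠ 0 := (y k).l.p.supp ω h0
        apply g1_cpd hsm D hD k ω (fun A hA v => hcap _ ((x k).l.p.supp _ a1) A hA v) (by linarith)
          (hk.2.1 _ a1).1 (hGk ω h0)
        refine h4.trans (Real.rpow_le_rpow_of_exponent_le (by norm_num) ?_)
        exact mul_le_mul_of_nonneg_right hη1 hn.le
      have h6 := pb_y (y := y) k (fun ω => ¬ Φ.φ k ((x k).l.p.π ω) ((x k).g ω) ≤ 2 ^ (η * (S.F k).n))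
      have h7 := hk.2.2.1
      linarith
    rw [← sub_nonneg]
    have e1 : (nw Φ x y D k).sc / (S.F k).n - ((x k).sc / (S.F k).n + θ) =
        ((nw Φ x y D k).sc - (x k).sc - θ * (S.F k).n) / (S.F k).n := by
      field_simp
      ring
    rw [e1]
    apply div_nonneg _ hn.le
    have h8 : (S.F k).n * D * (y k).l.T.pb (fun ω => ¬ Cpd (Φ.cp k) (g1 Φ x y D k ω)) ≤ (S.F k).n * (θ / 4) := by
      have a1 : D * (y k).l.T.pb (fun ω => ¬ Cpd (Φ.cp k) (g1 Φ x y D k ω)) ≤ θ / 4 :=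
        (mul_le_mul_of_nonneg_left h2 hD).trans hη2
      calc _ = (S.F k).n * (D * (y k).l.T.pb (fun ω => ¬ Cpd (Φ.cp k) (g1 Φ x y D k ω))) := by ring
        _ ≤ _ := mul_le_mul_of_nonneg_left a1 hn.le
    have h9 : (S.F k).n * θ ≤ (S.F k).n * (y k).E (fex Φ x D k) := mul_le_mul_of_nonneg_left hEk hn.le
    have h10 : 4 ≤ θ * (S.F k).n := by
      have : 4 / θ ≤ (S.F k).n := by linarith
      rw [div_le_iff₀ hθ] at this
      linarith
    nlinarith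
  have h1 := ul_mono ((Φ.sc_UBf hx.1).add (UB_const θ)) (Φ.sc_UBf hAd) hgain
  rw [ul_add (Φ.sc_UBf hx.1) (UB_const θ), ul_const] at h1
  linarith

/-- THEOREM COST, abstract form, families: the resampling steps are done for a family `B` of conditions of the space over
the label, such that labels without leak for `B` have no leak for `A` -/
theorem costg [Finite κ] {A : κ → Part S} {i₀ : κ} (hA : (A i₀).Bd) (hsm : Gau.Hom Φ) (D : ℝ) (hD : 0 ≤ D)
    (hx : Φ.Optf A x) (hκ : Lab.IsMaxf (fun k => (x k).l) A) {κ' : Type} (B : κ' → Part (Ov x))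
    (hBA : ∀ z : Lab (Ov x), z.DMf B → z.DMf (fun i => Lab.up (fun k => (x k).l) 1 one_pos (A i)))
    (CA : ℝ) (hCA : 0 ≤ CA) (Cp : κ' → ℝ) (hCp : ∀ i, Cp i ≤ CA) (ε : κ' → ℕ → ℝ) (hε : ∀ i, Tendsto (ε i) UF (𝓝 0))
    (sA : ∀ i, ∀ᶠ k in UF, ∀ z : CL ((Ov x).F k) (ι → ℝ), z.Good (GdC x k) →
      z.E (fex Φ x D k) - Cp i * (z.l.leak (B i k) / ((Ov x).F k).n) - ε i k ≤ (z.rs (B i k)).E (fex Φ x D k))
    (y₀ : ∀ k, CL ((Ov x).F k) (ι → ℝ)) (h₀ : ∀ᶠ k in UF, (y₀ k).Good (GdC x k))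
    (hU : UB (fun k => (y₀ k).l.info / ((Ov x).F k).n)) :
    ul (fun k => (y₀ k).E (fex Φ x D k)) ≤ CA * ul (fun k => (y₀ k).l.info / ((Ov x).F k).n) := by
  by_contra hcon
  rw [not_le] at hcon
  have hf0 : ∀ k (ω : ((Ov x).F k).Ω) (c : ι → ℝ), 0 ≤ fex Φ x D k ω c := fun k ω c => ex_nonneg (S.F k).pos hD
  have hf1 : ∀ k (ω : ((Ov x).F k).Ω) (c : ι → ℝ), fex Φ x D k ω c ≤ D := fun k ω c => ex_le (S.F k).pos
  have hUE : UB (fun k => (y₀ k).E (fex Φ x D k)) := by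
    apply UB_of_nonneg_le (C := D)
    · exact Eventually.of_forall fun k => (y₀ k).E_nonneg _ (hf0 k)
    · exact Eventually.of_forall fun k => (y₀ k).E_le _ _ (hf1 k)
  set e := ul (fun k => (y₀ k).E (fex Φ x D k)) with he
  set i := ul (fun k => (y₀ k).l.info / ((Ov x).F k).n) with hi
  have hi0 : 0 ≤ i := const_le_ul hU (Eventually.of_forall fun k =>
    div_nonneg (FLab.info_nonneg _) ((Ov x).F k).pos.le)
  set θ : ℝ := e - CA * i with hθ
  have hθ0 : 0 < θ := by rw [hθ]; linarith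
  set C : ℝ := CA + θ / (2 * (i + 1)) with hC
  have hC1 : CA < C := by
    have : 0 < θ / (2 * (i + 1)) := by positivity
    rw [hC]; linarith
  have hC2 : C * i ≤ CA * i + θ / 2 := by
    have h1 : θ / (2 * (i + 1)) * i ≤ θ / 2 := by
      rw [div_mul_eq_mul_div, div_le_div_iff₀ (by positivity) (by norm_num)]
      nlinarith
    rw [hC]; nlinarith
  obtain ⟨y, hy1, hy2, hy3, hy4⟩ := varif (Ov x) (ι → ℝ) B
    (GdC x) (fun k ω ω' c h1 h2 hZ h => GdC_inv x k ω ω' c h1 h2 hZ h)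
    (fex Φ x D) D hf1
    (fun z hz => (Lab.nul_over (fun k => (x k).l) 1 one_pos).mpr (Lab.IsMaxf.triv hκ hA z (hBA z hz)))
    Cp C (by linarith) (fun i => (hCp i).trans_lt hC1) ε hε sA y₀ h₀
  apply no_gainf (y := y) hsm D hD hx hy1 (hBA _ hy2) (θ / 4) (by linarith)
  have hlim : Tendsto (fun k => (y₀ k).E (fex Φ x D k) - C * ((y₀ k).l.info / ((Ov x).F k).n)) UF (𝓝 (e - C * i)) :=
    (ul_tendsto hUE).sub ((ul_tendsto hU).const_mul C)
  have h5 : θ / 4 < e - C * i := by rw [hθ] at *; linarith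
  filter_upwards [hy4, hlim.eventually (lt_mem_nhds h5)] with k a b
  linarith

/-- THEOREM COST, abstract form, families -/
theorem costf [Finite κ] {A : κ → Part S} {i₀ : κ} (hA : (A i₀).Bd) (hsm : Gau.Hom Φ) (D : ℝ) (hD : 0 ≤ D)
    (hx : Φ.Optf A x) (hκ : Lab.IsMaxf (fun k => (x k).l) A) (CA : ℝ) (hCA : 0 ≤ CA) (Cp : κ → ℝ)
    (hCp : ∀ i, Cp i ≤ CA) (ε : κ → ℕ → ℝ) (hε : ∀ i, Tendsto (ε i) UF (𝓝 0))
    (sA : ∀ i, ∀ᶠ k in UF, ∀ z : CL ((Ov x).F k) (ι → ℝ), z.Good (GdC x k) →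
      z.E (fex Φ x D k) - Cp i * (z.l.leak (Lab.up (fun k => (x k).l) 1 one_pos (A i) k) / ((Ov x).F k).n) - ε i k ≤
        (z.rs (Lab.up (fun k => (x k).l) 1 one_pos (A i) k)).E (fex Φ x D k))
    (y₀ : ∀ k, CL ((Ov x).F k) (ι → ℝ)) (h₀ : ∀ᶠ k in UF, (y₀ k).Good (GdC x k))
    (hU : UB (fun k => (y₀ k).l.info / ((Ov x).F k).n)) :
    ul (fun k => (y₀ k).E (fex Φ x D k)) ≤ CA * ul (fun k => (y₀ k).l.info / ((Ov x).F k).n) :=
  costg hA hsm D hD hx hκ (fun i => Lab.up (fun k => (x k).l) 1 one_pos (A i)) (fun _ hz => hz) CA hCA Cp hCp ε hε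
    sA y₀ h₀ hU

end

end Pool.Agent.Helper89.LX
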