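import Pool.Agent.Helper89.MG.Cub
import Pool.Agent.Helper84.MT.Def
import Pool.Agent.Helper48.NS.StA
import Pool.Agent.Helper59.LF.Add
import Pool.Agent.Helper89.MG.Csf

/-! Entropy of the coordinates of a leaf at a window, in the space and over labels. -/

set_option autoImplicit false

namespace Pool.Agent.Helper89.LX

open Finset Filter Topology Matrix Pool.Agent.Helper69.RK Pool.Agent.Helper31.EC Pool.Agent.Helper40.EL
open Pool.Agent.Helper84.MT Pool.Agent.Helper66.MT Pool.Agent.Helper59.LF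
open Pool.Agent.Helper48.NS (tker)

noncomputable section

/-- entropies over a label: lower bound -/
theorem e_over_ge {F : FSp} (l : FLab F) (W A : Setoid F.Ω) : F.e W (A ⊓ F.Z) - l.leak (fc A) ≤
    l.T.e (Setoid.comap l.p.π W) (Setoid.comap l.p.π A ⊓ (l.V ⊓ l.T.Z)) := by
  have e1 : Setoid.comap l.p.π A ⊓ (l.V ⊓ l.T.Z) = (l.V ⊓ Setoid.comap l.p.π A) ⊓ l.T.Z := by
    rw [inf_left_comm, inf_assoc]
  rw [e1, ← h_label, ← l.p.map_fc]
  have h3 := I_eq' l.v (l.p.map (fc W)) (l.p.map (fc A))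
  have h4 : I l.v (l.p.map (fc W)) (l.p.map (fc A)) ≤ l.leak (fc A) :=
    I_mono_right ((l.p.map_le_top _).trans le_sup_left)
  rw [l.p.h_map, h_fc] at h3
  linarith

/-- entropies over a label: upper bound -/
theorem e_over_le {F : FSp} (l : FLab F) (W A : Setoid F.Ω) :
    l.T.e (Setoid.comap l.p.π W) (Setoid.comap l.p.π A ⊓ (l.V ⊓ l.T.Z)) ≤ F.e W (A ⊓ F.Z) := by
  have e1 : Setoid.comap l.p.π A ⊓ (l.V ⊓ l.T.Z) = (l.V ⊓ Setoid.comap l.p.π A) ⊓ l.T.Z := by
    rw [inf_left_comm, inf_assoc]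
  rw [e1, ← h_label, ← l.p.map_fc, ← h_fc, ← l.p.h_map]
  exact h_anti le_sup_right

section
variable {S : Sp} {M : ℕ} {E : ℕ → ℕ} {Q : S.VV M} (l : Leaf S Q E)

/-- the window -/
def bS (c : ℝ) (k : ℕ) : Setoid (S.F k).Ω := l.La k ⊓ Setoid.ker (l.Y.cellv c k)

/-- all coordinates but one -/
def cS (c : ℝ) (j : Fin l.e) (k : ℕ) : Setoid (S.F k).Ω := oths (l.Y.cellv 1 k) (univ.erase j) ⊓ bS l c k

/-- all coordinates -/
def tS (c : ℝ) (k : ℕ) : Setoid (S.F k).Ω := bS l c k ⊓ Setoid.ker (l.Y.cellv 1 k)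

/-- one coordinate -/
def wS (j : Fin l.e) (k : ℕ) : Setoid (S.F k).Ω := Setoid.ker (fun ω => l.Y.cellv 1 k ω j)

theorem wS_co (j : Fin l.e) (k : ℕ) : wS l j k = Setoid.ker ((l.Y.co j).cellv 1 k) := by
  ext ω ω'
  constructor
  · intro h
    exact (co_rel _ _ _ _ _ _).2 h
  · intro h
    exact (co_rel _ _ _ _ _ _).1 h

theorem bS_close {c : ℝ} (k : ℕ) (ω ω' : (S.F k).Ω) (h : bS l c k ω ω') (i : Fin l.e) :
    |l.Y.v k ω i - l.Y.v k ω' i| ≤ S.dl c k :=
  l.Y.cellv_close c k ω ω' h.2 i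

/-- the parameter is full in the window -/
theorem full_win {c : ℝ} (h0 : 0 ≤ c) : ∃ η : ℕ → ℝ, Tendsto η UF (𝓝 0) ∧
    ∀ᶠ k in UF, (l.e : ℝ) * (1 - c) - η k ≤ S.rt (fun k => Setoid.ker (l.Y.cellv 1 k)) (bS l c) k := by
  obtain ⟨C, hCs, hC⟩ := l.Y.bd
  obtain ⟨f, hf, hf1⟩ := Sp.ul_rt_cell_le l.Y c c h0 l.La (fun _ _ => True) Sp.Typ_true (fun k => 2 * C k)
    ((S.Sub_const (by norm_num)).mul hCs) (by
      filter_upwards [hC] with k hk ω ω' a b _ _ _ i
      rw [sub_self, Sp.dl_zero, mul_one]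
      have h1 := abs_le.mp (hk ω a i)
      have h2 := abs_le.mp (hk ω' b i)
      rw [abs_le]; constructor <;> linarith [h1.1, h1.2, h2.1, h2.2])
  have hfull : Tendsto (S.rt (fun k => Setoid.ker (l.Y.cellv 1 k)) l.La) UF (𝓝 l.e) := by
    refine l.full.congr fun k => ?_
    rw [h_fc]
    rfl
  refine ⟨fun k => (l.e : ℝ) * (1 - c) - (S.rt (fun k => Setoid.ker (l.Y.cellv 1 k)) l.La k - f k), ?_, ?_⟩
  · have h1 := (hfull.sub hf).const_sub ((l.e : ℝ) * (1 - c))
    have h2 : (l.e : ℝ) * (1 - c) - ((l.e : ℝ) - l.e * c) = 0 := by ring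
    rwa [h2] at h1
  · filter_upwards [hf1] with k hk
    have h1 := Sp.rt_chain (S := S) (fun k => Setoid.ker (l.Y.cellv c k)) (fun k => Setoid.ker (l.Y.cellv 1 k)) l.La k
    have h2 : S.rt (fun k => Setoid.ker (l.Y.cellv 1 k)) l.La k ≤
        S.rt (fun k => Setoid.ker (l.Y.cellv c k) ⊓ Setoid.ker (l.Y.cellv 1 k)) l.La k := by
      unfold Sp.rt
      apply div_le_div_of_nonneg_right _ (S.F k).pos.le
      apply FSp.e_mono
      intro ω ω' _ _ h _
      exact h.2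
    have h3 : (fun k => Setoid.ker (l.Y.cellv c k) ⊓ l.La k) = bS l c := by
      funext k
      exact inf_comm _ _
    rw [h3] at h1
    linarith

/-- the conditional entropy of one coordinate given the others, lower bound -/
theorem ent_low {c : ℝ} (h0 : 0 ≤ c) (h1 : c ≤ 1) : ∃ θ : ℕ → ℝ, Tendsto θ UF (𝓝 0) ∧ ∀ j : Fin l.e,
    ∀ᶠ k in UF, (1 - c - θ k) * (S.F k).n ≤ (S.F k).e (wS l j k) (cS l c j k ⊓ (S.F k).Z) := by
  obtain ⟨η, hη, hη1⟩ := full_win l h0
  refine ⟨fun k => η k + l.e * (Real.logb 2 (1 + 2) / (S.F k).n), ?_, fun j => ?_⟩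
  · have := hη.add ((S.div_n_tendsto (Real.logb 2 (1 + 2))).const_mul (l.e : ℝ))
    rwa [mul_zero, add_zero] at this
  · filter_upwards [hη1] with k hk
    have hn := (S.F k).pos
    have h2 := rt_last l.Y c 1 h1 (bS l c) (fun _ => 1) k zero_le_one (by
      intro ω ω' _ _ hB _ i
      rw [one_mul]
      exact bS_close l k ω' ω hB i) (η k) hk j
    have h3 : S.rt (fun k => Setoid.ker ((l.Y.co j).cellv 1 k)) (fun k => oth l.Y 1 (univ.erase j) k ⊓ bS l c k) k =
        (S.F k).e (wS l j k) (cS l c j k ⊓ (S.F k).Z) / (S.F k).n := by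
      unfold Sp.rt
      rw [wS_co]
      rfl
    rw [h3, le_div_iff₀ hn] at h2
    exact h2

/-- the conditional entropy of one coordinate, upper bound -/
theorem ent_up {c : ℝ} (h1 : c ≤ 1) (j : Fin l.e) (k : ℕ) :
    (S.F k).e (wS l j k) (bS l c k ⊓ (S.F k).Z) ≤ (1 - c) * (S.F k).n + Real.logb 2 (1 + 2) := by
  have hn := (S.F k).pos
  have h2 := rt_co_le l.Y c 1 h1 (bS l c) (fun _ => 1) k zero_le_one (by
    intro ω ω' _ _ hB _ i
    rw [one_mul]
    exact bS_close l k ω' ω hB i) j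
  have h3 : S.rt (fun k => Setoid.ker ((l.Y.co j).cellv 1 k)) (bS l c) k =
      (S.F k).e (wS l j k) (bS l c k ⊓ (S.F k).Z) / (S.F k).n := by
    unfold Sp.rt
    rw [wS_co]
  unfold rho at h2
  rw [h3, div_le_iff₀ hn, add_mul, div_mul_cancel₀ _ hn.ne'] at h2
  exact h2

/-- LEAKS: a label of the space over the label `x` without leak at the windows of single coordinates given the others
and at the finest level has no leak at the window -/
theorem win_leak {L : Lab S} {c : ℝ} (h0 : 0 ≤ c) (h1 : c ≤ 1)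
    (hL : Nul S (fun k => (L k).leak (l.win c k))) (z : Lab (Lab.ovr L 1 one_pos))
    (ht : Nul (Lab.ovr L 1 one_pos) (fun k => (z k).leak (Lab.up L 1 one_pos (fun k => fc (tS l c k)) k)))
    (hc : ∀ j, Nul (Lab.ovr L 1 one_pos) (fun k => (z k).leak (Lab.up L 1 one_pos (fun k => fc (cS l c j k)) k))) :
    Nul (Lab.ovr L 1 one_pos) (fun k => (z k).leak (Lab.up L 1 one_pos (l.win c) k)) := by
  classical
  obtain ⟨θ, hθ, hθ1⟩ := ent_low l h0 h1
  have hS : Nul S (fun k => (z k).leak (Lab.up L 1 one_pos (fun k => fc (tS l c k)) k) + ∑ j,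
      ((z k).leak (Lab.up L 1 one_pos (fun k => fc (cS l c j k)) k) +
        (Real.logb 2 (1 + 2) + θ k * (S.F k).n + (L k).leak (l.win c k)))) := by
    have ht' := (Lab.nul_over L 1 one_pos).mp ht
    apply ht'.add
    have h2 : ∀ j : Fin l.e, Nul S (fun k => (z k).leak (Lab.up L 1 one_pos (fun k => fc (cS l c j k)) k) +
        (Real.logb 2 (1 + 2) + θ k * (S.F k).n + (L k).leak (l.win c k))) := by
      intro j
      apply ((Lab.nul_over L 1 one_pos).mp (hc j)).add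
      have a0 : Nul S (fun _ => Real.logb 2 (1 + 2)) := S.div_n_tendsto _
      have a1 : Nul S (fun k => θ k * (S.F k).n) := by
        show Tendsto _ _ _
        refine hθ.congr fun k => ?_
        have := (S.F k).pos.ne'
        field_simp
      exact (a0.add a1).add hL
    have h3 : Tendsto (fun k => ∑ j, ((z k).leak (Lab.up L 1 one_pos (fun k => fc (cS l c j k)) k) +
        (Real.logb 2 (1 + 2) + θ k * (S.F k).n + (L k).leak (l.win c k))) / (S.F k).n) UF
        (𝓝 (∑ _ : Fin l.e, (0 : ℝ))) := tendsto_finsetSum _ fun j _ => h2 j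
    rw [Finset.sum_const_zero] at h3
    refine h3.congr fun k => ?_
    rw [Finset.sum_div]
  rw [Lab.nul_over]
  have hall : ∀ᶠ k in UF, ∀ j : Fin l.e, (1 - c - θ k) * (S.F k).n ≤ (S.F k).e (wS l j k) (cS l c j k ⊓ (S.F k).Z) := by
    rw [eventually_all]
    exact hθ1
  refine hS.of_le (Eventually.of_forall fun k => FLab.leak_nonneg _ _) ?_
  filter_upwards [hall] with k hk
  have h2 := leak_cube (F := (Lab.ovr L 1 one_pos).F k) (z k) (Setoid.comap (L k).p.π (bS l c k))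
    (fun ω => l.Y.cellv 1 k ((L k).p.π ω))
  have e1 : Lab.up L 1 one_pos (l.win c) k =
      fc (F := (Lab.ovr L 1 one_pos).F k) (Setoid.comap (L k).p.π (bS l c k)) := rfl
  have e2 : Lab.up L 1 one_pos (fun k => fc (tS l c k)) k = fc (F := (Lab.ovr L 1 one_pos).F k)
      (Setoid.comap (L k).p.π (bS l c k) ⊓ Setoid.ker (fun ω => l.Y.cellv 1 k ((L k).p.π ω))) := rfl
  have e3 : ∀ j, Lab.up L 1 one_pos (fun k => fc (cS l c j k)) k = fc (F := (Lab.ovr L 1 one_pos).F k)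
      (oths (fun ω => l.Y.cellv 1 k ((L k).p.π ω)) (univ.erase j) ⊓ Setoid.comap (L k).p.π (bS l c k)) :=
    fun _ => rfl
  rw [e1, e2]
  refine h2.trans (add_le_add le_rfl (Finset.sum_le_sum fun j _ => ?_))
  rw [e3]
  refine add_le_add le_rfl ?_
  rw [h_fc, h_fc]
  have u1 : ((Lab.ovr L 1 one_pos).F k).e (Setoid.ker (fun ω => l.Y.cellv 1 k ((L k).p.π ω) j))
      (Setoid.comap (L k).p.π (bS l c k) ⊓ ((Lab.ovr L 1 one_pos).F k).Z) ≤
      (S.F k).e (wS l j k) (bS l c k ⊓ (S.F k).Z) := e_over_le (L k) (wS l j k) (bS l c k)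
  have u2 : (S.F k).e (wS l j k) (cS l c j k ⊓ (S.F k).Z) - (L k).leak (fc (cS l c j k)) ≤
      ((Lab.ovr L 1 one_pos).F k).e (Setoid.ker (fun ω => l.Y.cellv 1 k ((L k).p.π ω) j))
      (oths (fun ω => l.Y.cellv 1 k ((L k).p.π ω)) (univ.erase j) ⊓ Setoid.comap (L k).p.π (bS l c k) ⊓
        ((Lab.ovr L 1 one_pos).F k).Z) := e_over_ge (L k) (wS l j k) (cS l c j k)
  have u3 := ent_up l h1 j k
  have u4 := hk j
  have u5 : (L k).leak (fc (cS l c j k)) ≤ (L k).leak (l.win c k) := by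
    apply (L k).leak_anti
    exact fc_mono inf_le_right
  linarith

end

end

end Pool.Agent.Helper89.LX
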