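import Pool.Agent.Helper48.NS.StA

/-! Resampling of one coordinate of a leaf: the mean exponent of a function which satisfies a Remez inequality for
separated points loses at most `N` times the leak. (COST for abstract charts) -/

set_option autoImplicit false

namespace Pool.Agent.Helper89.LX

open Finset Pool.Agent.Helper69.RK Pool.Agent.Helper3.LF Pool.Agent.Helper31.EC Pool.Agent.Helper40.EL
open Pool.Agent.Helper48.NS

noncomputable section

/-- LEVELS AND ENTROPY: few cells on each level -/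
theorem lev_mass' {Ω γ : Type} [Fintype Ω] (μ : Ω → ℝ) (B : Ω → γ) (t : Ω → ℝ) (N : ℕ) (J : Ω → ℕ) (Q δ η : ℝ)
    (h0 : ∀ ω, 0 ≤ μ ω) (hm : mass μ = 1) (hQ : 0 < Q) (hη : 0 < η) (hJN : ∀ ω, μ ω ≠ 0 → J ω ≤ N)
    (hcnt : ∀ ω, μ ω ≠ 0 → ∀ T : Finset ℤ, (∀ j ∈ T, ∃ ω', μ ω' ≠ 0 ∧ J ω' = J ω ∧ B ω' = B ω ∧ ⌊t ω' / δ⌋ = j) →
      (T.card : ℝ) ≤ Q * η ^ J ω) :
    (∑ ω, μ ω * J ω) * Real.logb 2 (1 / η) ≤
      Real.logb 2 (N + 1) + Real.logb 2 Q - CH μ (fun ω => ⌊t ω / δ⌋) B := by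
  classical
  set τ : Ω → ℤ := fun ω => ⌊t ω / δ⌋ with hτ
  -- chain rule
  have c1 : CH μ τ B ≤ CH μ J B + CH μ τ (fun ω => (J ω, B ω)) := by
    have e1 := (st_E1 Ω ℕ ℤ γ μ J τ B h0).2.1
    have e2 := (st_E1 Ω ℤ ℕ γ μ τ J B h0).2.1
    have e3 := (st_E1 Ω ℕ γ γ μ J B (fun ω => B ω) h0).1
    have e4 := (st_E1 Ω ℕ (ℤ × γ) ℤ μ J (fun ω => (τ ω, B ω)) τ h0).1
    have e5 := (st_E1 Ω ℕ ℤ (ℤ × γ) μ J τ (fun ω => (τ ω, B ω)) h0).1
    have e6 : CH μ (fun ω => (τ ω, J ω)) B = CH μ (fun ω => (J ω, τ ω)) B := by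
      apply le_antisymm
      · apply (st_E2 st_E1).1 Ω _ _ _ μ _ _ _ h0
        intro ω ω' _ _ h
        simp only [Prod.mk.injEq] at h ⊢
        exact ⟨h.1.2, h.1.1⟩
      · apply (st_E2 st_E1).1 Ω _ _ _ μ _ _ _ h0
        intro ω ω' _ _ h
        simp only [Prod.mk.injEq] at h ⊢
        exact ⟨h.1.2, h.1.1⟩
    linarith
  -- the levels
  have c2 : CH μ J B ≤ Real.logb 2 (N + 1) := by
    have e1 := st_E3.1 Ω ℕ γ μ J B (fun _ => (N : ℝ) + 1) h0 (by
      intro ω _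
      refine le_trans (Nat.cast_le.2 (Finset.card_le_card (t := Finset.range (N + 1)) ?_)) ?_
      · intro j hj
        obtain ⟨ω', hω', rfl⟩ := e3_mem_image hj
        obtain ⟨-, d1, -⟩ := Finset.mem_filter.1 hω'
        exact Finset.mem_range.2 (Nat.lt_succ_of_le (hJN ω' d1))
      · rw [Finset.card_range]
        push_cast
        exact le_rfl)
    refine e1.trans (le_of_eq ?_)
    rw [← Finset.sum_mul]
    have : ∑ ω, μ ω = 1 := hm
    rw [this, one_mul]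
  -- the cells on a level
  have c3 : CH μ τ (fun ω => (J ω, B ω)) ≤ ∑ ω, μ ω * Real.logb 2 (Q * η ^ J ω) := by
    obtain ⟨β, G, hG, hG1⟩ : ∃ (β : Type) (G : Ω → β), CH μ τ (fun ω => (J ω, B ω)) = CH μ τ G ∧
        ∀ ω ω', G ω' = G ω → J ω' = J ω ∧ B ω' = B ω := by
      refine ⟨ℕ × γ, fun ω => (J ω, B ω), rfl, ?_⟩
      intro ω ω' h
      simp only [Prod.mk.injEq] at h
      exact h
    rw [hG]
    apply st_E3.1 Ω ℤ β μ τ G (fun ω => Q * η ^ J ω) h0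
    intro ω hω
    apply hcnt ω hω
    intro j hj'
    obtain ⟨ω', hω', rfl⟩ := e3_mem_image hj'
    obtain ⟨-, d1, d2⟩ := Finset.mem_filter.1 hω'
    have d3 := hG1 _ _ d2
    exact ⟨ω', d1, d3.1, d3.2, rfl⟩
  have c4 : ∑ ω, μ ω * Real.logb 2 (Q * η ^ J ω) =
      Real.logb 2 Q - (∑ ω, μ ω * J ω) * Real.logb 2 (1 / η) := by
    have e1 : ∀ ω, Real.logb 2 (Q * η ^ J ω) = Real.logb 2 Q - J ω * Real.logb 2 (1 / η) := by
      intro ω
      rw [Real.logb_mul (by positivity) (by positivity), Real.logb_pow, one_div, Real.logb_inv]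
      ring
    simp only [e1, mul_sub, Finset.sum_sub_distrib, ← Finset.sum_mul, ← mul_assoc]
    have : ∑ ω, μ ω = 1 := hm
    rw [this, one_mul]
  linarith

/-- number of cells of an interval -/
theorem int_count (a ρ δ : ℝ) (hδ : 0 < δ) (hρ : 0 ≤ ρ) (T : Finset ℤ)
    (h : ∀ j ∈ T, ∃ p : ℝ, ⌊p / δ⌋ = j ∧ |p - a| ≤ ρ) : (T.card : ℝ) ≤ 2 * (ρ / δ) + 2 := by
  have c3 : ((⌊(a + ρ) / δ⌋ + 1 - ⌊(a - ρ) / δ⌋).toNat : ℝ) ≤ 2 * (ρ / δ) + 2 := by
    have e1 := Int.floor_le ((a + ρ) / δ)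
    have e2 := Int.lt_floor_add_one ((a - ρ) / δ)
    have e3 : ⌊(a - ρ) / δ⌋ ≤ ⌊(a + ρ) / δ⌋ :=
      Int.floor_le_floor (div_le_div_of_nonneg_right (by linarith) hδ.le)
    have e4 : (((⌊(a + ρ) / δ⌋ + 1 - ⌊(a - ρ) / δ⌋).toNat : ℤ) : ℝ) =
        (⌊(a + ρ) / δ⌋ : ℝ) + 1 - ⌊(a - ρ) / δ⌋ := by
      rw [Int.toNat_of_nonneg (by omega)]
      push_cast
      ring
    have e5 : ((⌊(a + ρ) / δ⌋ + 1 - ⌊(a - ρ) / δ⌋).toNat : ℝ) =
        (((⌊(a + ρ) / δ⌋ + 1 - ⌊(a - ρ) / δ⌋).toNat : ℤ) : ℝ) := by norm_cast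
    rw [e5, e4]
    have e6 : (a + ρ) / δ - (a - ρ) / δ = 2 * (ρ / δ) := by ring
    linarith
  refine le_trans (Nat.cast_le.2 (Finset.card_le_card
    (t := Finset.Icc ⌊(a - ρ) / δ⌋ ⌊(a + ρ) / δ⌋) ?_)) ?_
  · intro j hj
    obtain ⟨p, rfl, d3⟩ := h j hj
    rw [abs_le] at d3
    rw [Finset.mem_Icc]
    exact ⟨Int.floor_le_floor (div_le_div_of_nonneg_right (by linarith) hδ.le),
      Int.floor_le_floor (div_le_div_of_nonneg_right (by linarith) hδ.le)⟩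
  · rw [Int.card_Icc]
    exact c3

/-- cells of a set without `N + 1` separated points -/
theorem sep_count (N : ℕ) (ρ δ : ℝ) (hδ : 0 < δ) (hρ : 0 < ρ) (T : Finset ℤ) (p : ℤ → ℝ)
    (hp : ∀ j ∈ T, ⌊p j / δ⌋ = j)
    (hno : ¬ ∃ x : Fin (N + 1) → ℤ, (∀ i, x i ∈ T) ∧ ∀ i j, i ≠ j → ρ ≤ |p (x i) - p (x j)|) :
    (T.card : ℝ) ≤ N * (2 * (ρ / δ) + 2) := by
  classical
  -- a maximal separated subset
  set Fs : Finset (Finset ℤ) := T.powerset.filter fun U => ∀ a ∈ U, ∀ b ∈ U, a ≠ b → ρ ≤ |p a - p b| with hFs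
  have hne : Fs.Nonempty := ⟨∅, by
    rw [hFs, Finset.mem_filter]
    exact ⟨Finset.empty_mem_powerset T, fun a ha => absurd ha (Finset.notMem_empty a)⟩⟩
  obtain ⟨U, hU, hmax⟩ := Finset.exists_max_image Fs Finset.card hne
  rw [hFs, Finset.mem_filter, Finset.mem_powerset] at hU
  obtain ⟨hUT, hUs⟩ := hU
  have hUc : U.card ≤ N := by
    by_contra hc
    push Not at hc
    apply hno
    obtain ⟨V, hVU, hV⟩ := Finset.exists_subset_card_eq (show N + 1 ≤ U.card by omega)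
    have e := (Fintype.equivFinOfCardEq (show Fintype.card V = N + 1 by rw [Fintype.card_coe]; exact hV)).symm
    refine ⟨fun i => (e i).1, fun i => hUT (hVU (e i).2), fun i j hij => ?_⟩
    apply hUs _ (hVU (e i).2) _ (hVU (e j).2)
    intro h
    exact hij (e.injective (Subtype.ext h))
  have hcov : ∀ j ∈ T, ∃ u ∈ U, |p j - p u| ≤ ρ := by
    intro j hj
    by_contra hc
    push Not at hc
    have hjU : j ∉ U := fun h => by
      have := hc j h
      rw [sub_self, abs_zero] at this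
      linarith
    have h1 : insert j U ∈ Fs := by
      rw [hFs, Finset.mem_filter, Finset.mem_powerset]
      refine ⟨Finset.insert_subset hj hUT, ?_⟩
      intro a ha b hb hab
      rcases Finset.mem_insert.1 ha with h | h
      · rcases Finset.mem_insert.1 hb with h' | h'
        · exact absurd (h.trans h'.symm) hab
        · rw [h]; exact (hc b h').le
      · rcases Finset.mem_insert.1 hb with h' | h'
        · rw [h', abs_sub_comm]; exact (hc a h).le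
        · exact hUs a h b h' hab
    have h2 := hmax _ h1
    rw [Finset.card_insert_of_notMem hjU] at h2
    omega
  have hsub : T ⊆ U.biUnion fun u => T.filter fun j => |p j - p u| ≤ ρ := by
    intro j hj
    obtain ⟨u, hu, h⟩ := hcov j hj
    exact Finset.mem_biUnion.2 ⟨u, hu, Finset.mem_filter.2 ⟨hj, h⟩⟩
  have h1 : (T.card : ℝ) ≤ ∑ u ∈ U, ((T.filter fun j => |p j - p u| ≤ ρ).card : ℝ) := by
    have h2 := (Finset.card_le_card hsub).trans Finset.card_biUnion_le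
    have h3 : (T.card : ℝ) ≤ ((∑ u ∈ U, (T.filter fun j => |p j - p u| ≤ ρ).card : ℕ) : ℝ) := Nat.cast_le.2 h2
    rwa [Nat.cast_sum] at h3
  have h2 : ∀ u ∈ U, ((T.filter fun j => |p j - p u| ≤ ρ).card : ℝ) ≤ 2 * (ρ / δ) + 2 := by
    intro u _
    apply int_count (p u) ρ δ hδ hρ.le
    intro j hj
    obtain ⟨h3, h4⟩ := Finset.mem_filter.1 hj
    exact ⟨p j, hp j h3, h4⟩
  have h3 := Finset.sum_le_card_nsmul U _ _ h2
  rw [nsmul_eq_mul] at h3
  have h4 : (U.card : ℝ) ≤ N := Nat.cast_le.2 hUc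
  have h5 : (U.card : ℝ) * (2 * (ρ / δ) + 2) ≤ N * (2 * (ρ / δ) + 2) :=
    mul_le_mul_of_nonneg_right h4 (by positivity)
  linarith

/-- on the classes of `A` the function `Fv` is, up to the factor `κ`, a function of `t` with the Remez property for
`N + 1` separated points of the window `W` -/
def SPr (F : FSp) {X : Type} (A : Setoid F.Ω) (t : F.Ω → ℝ) (Fv : F.Ω → X → ℝ) (κ W B : ℝ) (N : ℕ) : Prop :=
  ∀ ω c, F.μ ω ≠ 0 → ∃ G : ℝ → ℝ, (∀ s, 0 ≤ G s) ∧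
    (∀ (x : Fin (N + 1) → ℝ) (d ε : ℝ), 0 < d → (∀ i, |x i - t ω| ≤ W) → (∀ i j, i ≠ j → d * W ≤ |x i - x j|) →
      (∀ i, G (x i) ≤ ε) → ∀ u, |u - t ω| ≤ W → G u ≤ B * (1 / d) ^ (2 * N) * ε) ∧
    ∀ ω', F.μ ω' ≠ 0 → A ω ω' → F.Z ω ω' → |t ω' - t ω| ≤ W ∧ Fv ω' c ≤ κ * G (t ω') ∧ G (t ω') ≤ κ * Fv ω' c

/-- a function with the Remez property has an almost maximum -/
theorem exists_amax {G : ℝ → ℝ} (hG : ∀ s, 0 ≤ G s) (t W B : ℝ) (hW : 0 < W) (N : ℕ)
    (h : ∀ (x : Fin (N + 1) → ℝ) (d ε : ℝ), 0 < d → (∀ i, |x i - t| ≤ W) → (∀ i j, i ≠ j → d * W ≤ |x i - x j|) →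
      (∀ i, G (x i) ≤ ε) → ∀ u, |u - t| ≤ W → G u ≤ B * (1 / d) ^ (2 * N) * ε) :
    ∃ s, |s - t| ≤ W ∧ ∀ s', |s' - t| ≤ W → G s' ≤ 2 * G s := by
  classical
  -- bounded
  have hbd : ∃ Mb, ∀ s', |s' - t| ≤ W → G s' ≤ Mb := by
    set x : Fin (N + 1) → ℝ := fun i => t + W * ((i : ℕ) / (N + 1)) with hx
    have hN : (0 : ℝ) < (N : ℝ) + 1 := by positivity
    have h1 : ∀ i, |x i - t| ≤ W := by
      intro i
      have e1 : x i - t = W * ((i : ℕ) / (N + 1)) := by rw [hx]; ring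
      rw [e1, abs_of_nonneg (by positivity)]
      have e2 : ((i : ℕ) : ℝ) / (N + 1) ≤ 1 := by
        rw [div_le_one hN]
        have : ((i : ℕ) : ℝ) ≤ N := Nat.cast_le.2 (Nat.le_of_lt_succ i.2)
        linarith
      nlinarith
    have h2 : ∀ i j, i ≠ j → 1 / ((N : ℝ) + 1) * W ≤ |x i - x j| := by
      intro i j hij
      have e1 : x i - x j = W / (N + 1) * (((i : ℕ) : ℝ) - (j : ℕ)) := by rw [hx]; ring
      have e2 : (1 : ℝ) ≤ |(((i : ℕ) : ℝ) - (j : ℕ))| := by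
        have e3 : (1 : ℤ) ≤ |((i : ℕ) : ℤ) - ((j : ℕ) : ℤ)| := by
          apply Int.one_le_abs
          intro h
          apply hij
          apply Fin.ext
          omega
        have e4 : ((1 : ℤ) : ℝ) ≤ ((|((i : ℕ) : ℤ) - ((j : ℕ) : ℤ)| : ℤ) : ℝ) := by exact_mod_cast e3
        rw [Int.cast_abs] at e4
        push_cast at e4
        exact e4
      rw [e1, abs_mul, abs_of_pos (by positivity : 0 < W / ((N : ℝ) + 1))]
      have e5 : 1 / ((N : ℝ) + 1) * W = W / (N + 1) * 1 := by ring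
      rw [e5]
      exact mul_le_mul_of_nonneg_left e2 (by positivity)
    refine ⟨B * (1 / (1 / ((N : ℝ) + 1))) ^ (2 * N) * (∑ i, G (x i)), fun s' hs' => ?_⟩
    exact h x (1 / ((N : ℝ) + 1)) _ (by positivity) h1 h2
      (fun i => Finset.single_le_sum (f := fun i => G (x i)) (fun _ _ => hG _) (Finset.mem_univ i)) s' hs'
  obtain ⟨Mb, hMb⟩ := hbd
  set V : Set ℝ := {r | ∃ s, |s - t| ≤ W ∧ r = G s} with hV
  have hVb : BddAbove V := ⟨Mb, by rintro r ⟨s, hs, rfl⟩; exact hMb s hs⟩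
  have hVn : V.Nonempty := ⟨G t, t, by rw [sub_self, abs_zero]; exact hW.le, rfl⟩
  by_cases h0 : sSup V ≤ 0
  · refine ⟨t, by rw [sub_self, abs_zero]; exact hW.le, fun s' hs' => ?_⟩
    have h1 : G s' ≤ sSup V := le_csSup hVb ⟨s', hs', rfl⟩
    have h2 := hG t
    linarith
  · push Not at h0
    obtain ⟨r, ⟨s, hs, rfl⟩, hr⟩ := exists_lt_of_lt_csSup hVn (show sSup V / 2 < sSup V by linarith)
    refine ⟨s, hs, fun s' hs' => ?_⟩
    have h1 : G s' ≤ sSup V := le_csSup hVb ⟨s', hs', rfl⟩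
    linarith

/-- RESAMPLING ONE COORDINATE -/
theorem step_SP {F : FSp} {X : Type} (x : CL F X) (A : Setoid F.Ω) (t : F.Ω → ℝ) (Fv : F.Ω → X → ℝ)
    (κ W δ D B : ℝ) (N : ℕ) (hN : 0 < N) (hD : 0 ≤ D) (hκ : 1 ≤ κ) (hB : 1 ≤ B) (hδ : 0 < δ) (hW : δ ≤ W)
    (hcap : (2 : ℝ) ^ (D * F.n / N) ≤ W / δ) (hSP : SPr F A t Fv κ W B N) :
    x.E (fun ω c => ex F.n D (Fv ω c)) -
      (N / F.n) * (Real.logb 2 (F.n * D + 1) + Real.logb 2 (4 * N * (W / δ)) -
        F.e (tker t δ) (A ⊓ F.Z) + x.l.leak (fc A)) - (Real.logb 2 (4 * B * κ ^ 2) / 2 + 1) / F.n ≤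
    (x.rs (fc A)).E (fun ω c => ex F.n D (Fv ω c)) := by
  classical
  have hn := F.pos
  set n := F.n with hnn
  have hN' : (0 : ℝ) < N := Nat.cast_pos.2 hN
  have hN1 : (1 : ℝ) ≤ N := by exact_mod_cast hN
  have hκ0 : 0 < κ := by linarith
  obtain ⟨w₀⟩ := x.T_ne
  set Bq : Setoid x.l.T.Ω := x.l.V ⊓ Setoid.comap x.l.p.π A ⊓ x.l.T.Z with hBq
  -- representatives
  have hρ : ∀ b : Quotient Bq, ∃ w0 : x.l.T.Ω, ∀ w, x.l.T.μ w ≠ 0 → Quotient.mk Bq w = b →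
      x.l.T.μ w0 ≠ 0 ∧ Quotient.mk Bq w0 = b := by
    intro b
    by_cases h : ∃ w, x.l.T.μ w ≠ 0 ∧ Quotient.mk Bq w = b
    · obtain ⟨w, h1, h2⟩ := h
      exact ⟨w, fun _ _ _ => ⟨h1, h2⟩⟩
    · exact ⟨w₀, fun w h1 h2 => absurd ⟨w, h1, h2⟩ h⟩
  choose ρ hρ using hρ
  have hWp : 0 < W := lt_of_lt_of_le hδ hW
  -- the functions with the almost maxima
  have hg : ∀ w0 : x.l.T.Ω, ∃ (G : ℝ → ℝ) (σ : ℝ), x.l.T.μ w0 ≠ 0 → ((∀ s, 0 ≤ G s) ∧
      (∀ (y : Fin (N + 1) → ℝ) (d ε : ℝ), 0 < d → (∀ i, |y i - t (x.l.p.π w0)| ≤ W) →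
        (∀ i j, i ≠ j → d * W ≤ |y i - y j|) → (∀ i, G (y i) ≤ ε) → ∀ u, |u - t (x.l.p.π w0)| ≤ W →
          G u ≤ B * (1 / d) ^ (2 * N) * ε) ∧
      (∀ ω', F.μ ω' ≠ 0 → A (x.l.p.π w0) ω' → F.Z (x.l.p.π w0) ω' → |t ω' - t (x.l.p.π w0)| ≤ W ∧
        Fv ω' (x.c w0) ≤ κ * G (t ω') ∧ G (t ω') ≤ κ * Fv ω' (x.c w0)) ∧
      |σ - t (x.l.p.π w0)| ≤ W ∧ ∀ s', |s' - t (x.l.p.π w0)| ≤ W → G s' ≤ 2 * G σ) := by
    intro w0
    by_cases h0 : x.l.T.μ w0 = 0
    · exact ⟨fun _ => 0, 0, fun h => absurd h0 h⟩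
    · obtain ⟨G, h1, h2, h3⟩ := hSP (x.l.p.π w0) (x.c w0) (x.l.p.supp _ h0)
      obtain ⟨σ, h4, h5⟩ := exists_amax h1 (t (x.l.p.π w0)) W B hWp N h2
      exact ⟨G, σ, fun _ => ⟨h1, h2, h3, h4, h5⟩⟩
  choose G σ hg using hg
  set r : x.l.T.Ω → x.l.T.Ω := fun w => ρ (Quotient.mk Bq w) with hr
  have hr1 : ∀ w, x.l.T.μ w ≠ 0 → x.l.T.μ (r w) ≠ 0 ∧ x.l.V (r w) w ∧ A (x.l.p.π (r w)) (x.l.p.π w) ∧
      F.Z (x.l.p.π (r w)) (x.l.p.π w) ∧ x.c (r w) = x.c w := by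
    intro w hw
    obtain ⟨h1, h2⟩ := hρ (Quotient.mk Bq w) w hw rfl
    have h3 : Bq (r w) w := Quotient.exact h2
    refine ⟨h1, h3.1.1, h3.1.2, (x.l.p.hZ _ _ h1 hw).mp h3.2, x.meas _ _ h1 hw h3.1.1 h3.2⟩
  set M : x.l.T.Ω → ℝ := fun w => G (r w) (σ (r w)) with hM
  set c0 : ℝ := Real.logb 2 (4 * B * κ ^ 2) / 2 with hc0
  set J : x.l.T.Ω → ℕ := fun w =>
    ⌊n * (ex n D (Fv (x.l.p.π w) (x.c w)) - ex n D (2 * κ * M w)) - c0⌋₊ with hJ
  have hBk : 1 ≤ B * κ ^ 2 := one_le_mul_of_one_le_of_one_le hB (one_le_pow₀ hκ)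
  have hBk4 : 4 ≤ 4 * B * κ ^ 2 := by nlinarith
  have hc0' : 1 ≤ c0 := by
    have h1 := Real.logb_le_logb_of_le (b := 2) (by norm_num) (by norm_num) hBk4
    have h2 : Real.logb 2 4 = 2 := by
      rw [show (4 : ℝ) = 2 ^ (2 : ℝ) by norm_num]
      exact Real.logb_rpow (by norm_num) (by norm_num)
    rw [h2] at h1
    rw [hc0]
    linarith
  set η : ℝ := (2 : ℝ) ^ (-(1 / (N : ℝ))) with hη
  have hη0 : 0 < η := by positivity
  have hη1 : η ≤ 1 := by
    apply Real.rpow_le_one_of_one_le_of_nonpos (by norm_num)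
    have : 0 < 1 / (N : ℝ) := by positivity
    linarith
  have hηl : Real.logb 2 (1 / η) = 1 / N := by
    rw [one_div, Real.logb_inv, hη, Real.logb_rpow (by norm_num) (by norm_num), neg_neg]
  have hηN : ∀ j : ℕ, (1 / η ^ j) ^ (2 * N) = (2 : ℝ) ^ (2 * (j : ℝ)) := by
    intro j
    rw [one_div, inv_pow, hη, ← pow_mul, ← Real.rpow_natCast, ← Real.rpow_mul (by norm_num),
      ← Real.rpow_neg (by norm_num)]
    congr 1
    push_cast
    field_simp
  have hηcap : ∀ j : ℕ, j ≤ ⌊n * D⌋₊ → 1 ≤ η ^ j * (W / δ) := by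
    intro j hj
    have e1 : η ^ j = (2 : ℝ) ^ (-(1 / (N : ℝ)) * j) := by
      rw [hη, ← Real.rpow_natCast, ← Real.rpow_mul (by norm_num)]
    have e2 : (j : ℝ) ≤ n * D := (Nat.cast_le.2 hj).trans (Nat.floor_le (by positivity))
    have e3 : (2 : ℝ) ^ (-(D * n / N)) ≤ η ^ j := by
      rw [e1]
      apply Real.rpow_le_rpow_of_exponent_le (by norm_num)
      have e4 : 1 / (N : ℝ) * j ≤ 1 / (N : ℝ) * (n * D) := mul_le_mul_of_nonneg_left e2 (by positivity)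
      have e5 : 1 / (N : ℝ) * (n * D) = D * n / N := by ring
      linarith
    have e4 : (2 : ℝ) ^ (-(D * n / N)) * 2 ^ (D * n / N) = 1 := by
      rw [← Real.rpow_add (by norm_num), neg_add_cancel, Real.rpow_zero]
    calc (1 : ℝ) = (2 : ℝ) ^ (-(D * n / N)) * 2 ^ (D * n / N) := e4.symm
      _ ≤ η ^ j * (W / δ) := mul_le_mul e3 hcap (by positivity) (by positivity)
  have hJN : ∀ w, x.l.T.μ w ≠ 0 → J w ≤ ⌊n * D⌋₊ := by
    intro w _
    apply Nat.floor_le_floor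
    have h1 := ex_le (D := D) (F := Fv (x.l.p.π w) (x.c w)) hn
    have h2 := ex_nonneg (F := 2 * κ * M w) hn hD
    have h3 : n * (ex n D (Fv (x.l.p.π w) (x.c w)) - ex n D (2 * κ * M w)) ≤ n * D :=
      mul_le_mul_of_nonneg_left (by linarith) hn.le
    linarith
  -- size on the levels
  have hsz : ∀ w, x.l.T.μ w ≠ 0 → J w ≠ 0 → 0 < M w ∧
      G (r w) (t (x.l.p.π w)) ≤ (2 : ℝ) ^ (-(2 * (J w : ℝ))) * (M w / (2 * B)) := by
    intro w hw hJw
    obtain ⟨h1, h2, h3, h4, h5⟩ := hr1 w hw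
    obtain ⟨-, -, g3, -, -⟩ := hg (r w) h1
    obtain ⟨-, h6, h7⟩ := g3 _ (x.l.p.supp _ hw) h3 h4
    rw [h5] at h6 h7
    have e1 : (J w : ℝ) ≤ n * (ex n D (Fv (x.l.p.π w) (x.c w)) - ex n D (2 * κ * M w)) - c0 := by
      have e0 := Nat.floor_pos.1 (Nat.pos_of_ne_zero hJw)
      exact Nat.floor_le (by linarith)
    have e2 : ex n D (2 * κ * M w) + ((J w : ℝ) + c0) / n ≤ ex n D (Fv (x.l.p.π w) (x.c w)) := by
      rw [← le_sub_iff_add_le', div_le_iff₀ hn]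
      linarith
    obtain ⟨e3, e4⟩ := ex_gap hn (by positivity) e2
    have hMp : 0 < M w := by
      by_contra hc
      have : 2 * κ * M w ≤ 0 := mul_nonpos_of_nonneg_of_nonpos (by positivity) (not_lt.1 hc)
      linarith
    refine ⟨hMp, ?_⟩
    have e5 : 2 * n * (((J w : ℝ) + c0) / n) = 2 * (J w : ℝ) + 2 * c0 := by
      field_simp
    rw [e5] at e3
    have e6 : (2 : ℝ) ^ (-(2 * (J w : ℝ) + 2 * c0)) = (2 : ℝ) ^ (-(2 * (J w : ℝ))) * (1 / (4 * B * κ ^ 2)) := by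
      have a2 : (2 : ℝ) ^ (-(2 * c0)) = 1 / (4 * B * κ ^ 2) := by
        have a3 : -(2 * c0) = -(Real.logb 2 (4 * B * κ ^ 2)) := by rw [hc0]; ring
        rw [a3, Real.rpow_neg (by norm_num), Real.rpow_logb (by norm_num) (by norm_num) (by linarith), one_div]
      rw [neg_add, Real.rpow_add (by norm_num), a2]
    rw [e6] at e3
    calc G (r w) (t (x.l.p.π w)) ≤ κ * Fv (x.l.p.π w) (x.c w) := h7
      _ ≤ κ * ((2 : ℝ) ^ (-(2 * (J w : ℝ))) * (1 / (4 * B * κ ^ 2)) * (2 * κ * M w)) :=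
          mul_le_mul_of_nonneg_left e3 hκ0.le
      _ = (2 : ℝ) ^ (-(2 * (J w : ℝ))) * (M w / (2 * B)) := by
          have hB0 : B ≠ 0 := by linarith
          field_simp
          ring
  -- the level inequality
  have key := lev_mass' x.l.T.μ (Quotient.mk Bq) (fun w => t (x.l.p.π w)) ⌊n * D⌋₊ J (4 * N * (W / δ)) δ η
    x.l.T.nn x.l.T.ms (by positivity) hη0 hJN (by
      intro w hw T hT
      have hWδ : 1 ≤ W / δ := by rw [one_le_div hδ]; exact hW
      by_cases hj : J w = 0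
      · have h1 := int_count (t (x.l.p.π (r w))) W δ hδ hWp.le T (by
          intro j hj'
          obtain ⟨w', a1, -, a3, a4⟩ := hT j hj'
          obtain ⟨b1, b2, b3, b4, -⟩ := hr1 w' a1
          have b5 : r w' = r w := by simp only [hr, a3]
          rw [b5] at b1 b3 b4
          obtain ⟨-, -, g3, -, -⟩ := hg (r w) b1
          exact ⟨t (x.l.p.π w'), a4, (g3 _ (x.l.p.supp _ a1) b3 b4).1⟩)
        rw [hj, pow_zero, mul_one]
        have h2 : 4 * (W / δ) ≤ 4 * N * (W / δ) := by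
          apply mul_le_mul_of_nonneg_right _ (by positivity)
          linarith
        linarith
      · have hcapj := hηcap (J w) (hJN w hw)
        have hex : ∀ j : ℤ, ∃ w', j ∈ T → (x.l.T.μ w' ≠ 0 ∧ J w' = J w ∧ Quotient.mk Bq w' = Quotient.mk Bq w ∧
            ⌊t (x.l.p.π w') / δ⌋ = j) := by
          intro j
          by_cases h : j ∈ T
          · obtain ⟨w', hw'⟩ := hT j h
            exact ⟨w', fun _ => hw'⟩
          · exact ⟨w, fun h' => absurd h' h⟩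
        choose q hq using hex
        have h1 := sep_count N (η ^ J w * W) δ hδ (by positivity) T (fun j => t (x.l.p.π (q j)))
          (fun j hj' => (hq j hj').2.2.2) (by
            rintro ⟨y, hy1, hy2⟩
            obtain ⟨b1, -, -, -, -⟩ := hr1 w hw
            obtain ⟨-, g2, g3, g4, -⟩ := hg (r w) b1
            obtain ⟨hMp, -⟩ := hsz w hw hj
            have hall : ∀ i, r (q (y i)) = r w := by
              intro i
              have := (hq (y i) (hy1 i)).2.2.1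
              simp only [hr, this]
            have h2 := g2 (fun i => t (x.l.p.π (q (y i)))) (η ^ J w)
              ((2 : ℝ) ^ (-(2 * (J w : ℝ))) * (M w / (2 * B))) (by positivity) (by
                intro i
                obtain ⟨a1, a2, a3, a4⟩ := hq (y i) (hy1 i)
                obtain ⟨c1, c2, c3, c4, -⟩ := hr1 (q (y i)) a1
                rw [hall i] at c3 c4
                exact (g3 _ (x.l.p.supp _ a1) c3 c4).1) hy2 (by
                intro i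
                obtain ⟨a1, a2, a3, a4⟩ := hq (y i) (hy1 i)
                have h3 := (hsz (q (y i)) a1 (by rw [a2]; exact hj)).2
                have h4 : M (q (y i)) = M w := by simp only [hM, hall i]
                rw [hall i, h4, a2] at h3
                exact h3) (σ (r w)) g4
            rw [hηN] at h2
            have h3 : B * (2 : ℝ) ^ (2 * (J w : ℝ)) * ((2 : ℝ) ^ (-(2 * (J w : ℝ))) * (M w / (2 * B))) = M w / 2 := by
              have e1 : (2 : ℝ) ^ (2 * (J w : ℝ)) * (2 : ℝ) ^ (-(2 * (J w : ℝ))) = 1 := by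
                rw [← Real.rpow_add (by norm_num), add_neg_cancel, Real.rpow_zero]
              have hB0 : B ≠ 0 := by linarith
              calc _ = B * ((2 : ℝ) ^ (2 * (J w : ℝ)) * (2 : ℝ) ^ (-(2 * (J w : ℝ)))) * (M w / (2 * B)) := by ring
                _ = M w / 2 := by
                    rw [e1]
                    field_simp
            rw [h3] at h2
            have h4 : G (r w) (σ (r w)) = M w := rfl
            rw [h4] at h2
            linarith)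
        have h2 : (N : ℝ) * (2 * (η ^ J w * W / δ) + 2) ≤ 4 * N * (W / δ) * η ^ J w := by
          have e1 : η ^ J w * W / δ = η ^ J w * (W / δ) := by ring
          rw [e1]
          nlinarith
        exact h1.trans h2)
  rw [hηl] at key
  -- entropy
  have hent := x.ent_t A t δ
  -- lower bound for the resampled label
  have hlow := x.rs_ge (fc A) (fun ω c => ex n D (Fv ω c)) (fun w => ex n D (2 * κ * M w)) (by
    intro w hw
    obtain ⟨h1, h2, h3, h4⟩ := x.rs_supp_fc A w hw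
    obtain ⟨a1, a2, a3, a4, a5⟩ := hr1 w.1 h1
    obtain ⟨-, -, g3, -, g5⟩ := hg (r w.1) a1
    obtain ⟨b1, b2, -⟩ := g3 w.2 h2 (A.trans a3 h3) (F.Z.trans a4 h4)
    rw [a5] at b2
    apply ex_anti hn
    refine b2.trans ?_
    have := mul_le_mul_of_nonneg_left (g5 _ b1) hκ0.le
    refine this.trans (le_of_eq ?_)
    simp only [hM]
    ring)
  -- comparison of the mean values
  have hmean : n * x.E (fun ω c => ex n D (Fv ω c)) - n * (∑ ω, x.l.T.μ ω * ex n D (2 * κ * M ω)) - c0 - 1 ≤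
      ∑ ω, x.l.T.μ ω * J ω := by
    have e1 : n * x.E (fun ω c => ex n D (Fv ω c)) - n * (∑ ω, x.l.T.μ ω * ex n D (2 * κ * M ω)) - c0 - 1 =
        ∑ ω, x.l.T.μ ω * (n * (ex n D (Fv (x.l.p.π ω) (x.c ω)) - ex n D (2 * κ * M ω)) - c0 - 1) := by
      have a1 : ∑ ω, x.l.T.μ ω * (c0 + 1) = c0 + 1 := by
        rw [← Finset.sum_mul, x.T_mass, one_mul]
      unfold CL.E
      rw [Finset.mul_sum, Finset.mul_sum]
      calc _ = (∑ i, n * (x.l.T.μ i * ex n D (Fv (x.l.p.π i) (x.c i)))) -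
            (∑ i, n * (x.l.T.μ i * ex n D (2 * κ * M i))) - ∑ ω, x.l.T.μ ω * (c0 + 1) := by rw [a1]; ring
        _ = _ := by
            rw [← Finset.sum_sub_distrib, ← Finset.sum_sub_distrib]
            exact Finset.sum_congr rfl fun ω _ => by ring
    rw [e1]
    refine Finset.sum_le_sum fun ω _ => mul_le_mul_of_nonneg_left ?_ (x.l.T.nn ω)
    have := Nat.lt_floor_add_one (n * (ex n D (Fv (x.l.p.π ω) (x.c ω)) - ex n D (2 * κ * M ω)) - c0)
    simp only [hJ]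
    linarith
  have hlogN : Real.logb 2 (⌊n * D⌋₊ + 1) ≤ Real.logb 2 (n * D + 1) := by
    apply Real.logb_le_logb_of_le (by norm_num) (by positivity)
    have : (⌊n * D⌋₊ : ℝ) ≤ n * D := Nat.floor_le (by positivity)
    linarith
  -- assembly
  set Sg := ∑ ω, x.l.T.μ ω * (J ω : ℝ) with hSg
  set Q := Real.logb 2 (n * D + 1) + Real.logb 2 (4 * N * (W / δ)) - F.e (tker t δ) (A ⊓ F.Z) +
    x.l.leak (fc A) with hQ
  have f1 : Sg * (1 / N) ≤ Q := by
    rw [hQ]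
    linarith
  have f2 : Sg ≤ N * Q := by
    have : Sg = Sg * (1 / N) * N := by field_simp
    rw [this, mul_comm]
    exact mul_le_mul_of_nonneg_left f1 (by positivity)
  have f3 : n * x.E (fun ω c => ex n D (Fv ω c)) - N * Q - (c0 + 1) ≤
      n * (x.rs (fc A)).E (fun ω c => ex n D (Fv ω c)) := by
    have := mul_le_mul_of_nonneg_left hlow hn.le
    linarith
  have f5 : x.E (fun ω c => ex n D (Fv ω c)) - N / n * Q - (c0 + 1) / n =
      (n * x.E (fun ω c => ex n D (Fv ω c)) - N * Q - (c0 + 1)) / n := by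
    field_simp
  rw [f5, div_le_iff₀ hn, mul_comm _ n]
  exact f3

end

end Pool.Agent.Helper89.LX
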