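import Pool.Agent.Helper89.MG.Cmp
import Pool.Agent.Helper89.MG.Lfe
import Pool.Agent.Helper89.MG.Sps
import Pool.Agent.Helper84.MT.Leaf0

/-! THEOREM COST for systems of leaves (`MSys`): over a canonical form of the window `c`, a label of information `i` cannot
predict a unit combination of degree `D` which is smaller than `2 ^ (-(E D) i n)`. -/

set_option autoImplicit false

namespace Pool.Agent.Helper89.LX

open Finset Filter Topology Matrix Pool.Agent.Helper69.RK Pool.Agent.Helper31.EC Pool.Agent.Helper40.EL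
open Pool.Agent.Helper84.MT Pool.Agent.Helper3.LF Pool.Agent.Helper59.LF
open Pool.Agent.Helper48.NS (cc qf_cc tker CL Ov GdC fex ex Ov_n ex_scale logn)

noncomputable section

section
variable {S : Sp} {M D : ℕ} {E : ℕ → ℕ} {Q : S.VV M} (l : Leaf S Q E)

/-- segments of the chart -/
theorem leaf_sgp (D : ℕ) : ∃ K : ℕ → ℝ, S.Sub K ∧ ∀ᶠ k in UF, ∀ ω, (S.F k).μ ω ≠ 0 → ∀ y z : Fin l.e → ℝ,
    (∀ i, |y i - l.Y.v k ω i| ≤ 1) → (∀ i, |z i - l.Y.v k ω i| ≤ 1) →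
    SgP M D (E D) (K k) (fun u => l.F k ω (fun i => y i + u * (z i - y i))) := by
  obtain ⟨K, hK, h⟩ := l.seg D
  refine ⟨K, hK, ?_⟩
  filter_upwards [h, l.eval_mem D] with k h1 h2 ω hω y z hy hz P hP
  exact h1 ω hω _ (h2 ω hω P hP) y z hy hz

/-- the point `ω'` on the chart of `ω` -/
theorem leaf_near : ∃ R : ℕ → ℝ, S.Sub R ∧ ∀ᶠ k in UF, 0 ≤ R k ∧ ∀ ω ω', (S.F k).μ ω ≠ 0 → (S.F k).μ ω' ≠ 0 →
    (S.F k).Z ω ω' → l.La k ω ω' → ∀ a : Fin l.e → ℝ, (∀ i, |a i - l.Y.v k ω i| ≤ 1) →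
    (∀ i, |a i + 1 / S.dl 1 k * (l.Y.v k ω' i - a i) - l.Y.v k ω i| ≤ 1) →
    ∀ i, |Q.v k ω' i - l.F k ω a i| ≤ R k * S.dl 1 k := by
  obtain ⟨Kb, hKb, hb⟩ := l.bd
  obtain ⟨K1, hK1, hc⟩ := leaf_sgp l 1
  obtain ⟨Kp, hKp, hp⟩ := l.pt
  refine ⟨fun k => Kp k + K1 k * Kb k, hKp.add (hK1.mul hKb), ?_⟩
  filter_upwards [hb, hc, hp, l.fn, hKb.1, hK1.1, hKp.1] with k b1 c1 p1 f1 x1 x2 x3
  refine ⟨by positivity, fun ω ω' h1 h2 hZ hLa a ha hab i => ?_⟩
  have e1 : l.F k ω = l.F k ω' := f1 ω ω' h1 h2 hZ hLa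
  have u1 := p1 ω' h2 i
  rw [← e1] at u1
  have u2 := chart_lip (D := 1) le_rfl (l.F k ω) (l.Y.v k ω) (c1 ω h1) (b1 ω h1) (S.dl 1 k) (S.dl_pos 1 k)
    (dl_one_le S k) a (l.Y.v k ω') ha hab i
  have e2 : Q.v k ω' i - l.F k ω a i = (Q.v k ω' i - l.F k ω (l.Y.v k ω') i) +
      (l.F k ω (l.Y.v k ω') i - l.F k ω a i) := by ring
  rw [e2]
  refine (abs_add_le _ _).trans ?_
  linarith

/-- two points of a cell of the leaf -/
theorem leaf_near_t : ∃ R : ℕ → ℝ, S.Sub R ∧ ∀ᶠ k in UF, 0 ≤ R k ∧ ∀ ω ω', (S.F k).μ ω ≠ 0 → (S.F k).μ ω' ≠ 0 →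
    (S.F k).Z ω ω' → l.La k ω ω' → (∀ i, |l.Y.v k ω' i - l.Y.v k ω i| ≤ S.dl 1 k) →
    ∀ i, |Q.v k ω' i - Q.v k ω i| ≤ R k * S.dl 1 k := by
  obtain ⟨R, hR, h⟩ := leaf_near l
  refine ⟨fun k => R k + R k, hR.add hR, ?_⟩
  filter_upwards [h] with k hk
  obtain ⟨h0, hk⟩ := hk
  refine ⟨by linarith, fun ω ω' h1 h2 hZ hLa hY i => ?_⟩
  have hd := S.dl_pos 1 k
  have ha : ∀ i, |l.Y.v k ω i - l.Y.v k ω i| ≤ 1 := fun i => by rw [sub_self, abs_zero]; exact zero_le_one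
  have u1 := hk ω ω' h1 h2 hZ hLa (l.Y.v k ω) ha (fun i => by
    rw [add_sub_cancel_left, abs_mul, abs_of_pos (by positivity : 0 < 1 / S.dl 1 k), one_div, inv_mul_le_iff₀ hd, mul_one]
    exact hY i) i
  have u2 := hk ω ω h1 h1 ((S.F k).Z.refl ω) ((l.La k).refl ω) (l.Y.v k ω) ha (fun i => by
    rw [sub_self, mul_zero, add_zero]
    exact ha i) i
  have e2 : Q.v k ω' i - Q.v k ω i = (Q.v k ω' i - l.F k ω (l.Y.v k ω) i) - (Q.v k ω i - l.F k ω (l.Y.v k ω) i) := by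
    ring
  rw [e2]
  refine (abs_sub _ _).trans ?_
  linarith

/-- the Remez property of the size along one coordinate of the parameter -/
theorem leaf_SPr {c : ℝ} (h0 : 0 ≤ c) (x : ∀ k, FD (S.F k) (Mon M D)) : ∃ R B : ℕ → ℝ, S.Sub R ∧
    S.Sub B ∧ ∀ᶠ k in UF, 0 ≤ R k ∧ 1 ≤ B k ∧ ∀ j,
      SPr ((Ov x).F k) (Setoid.comap (x k).l.p.π (cS l c j k)) (fun ω => l.Y.v k ((x k).l.p.π ω) j)
      (fun ω (cf : Mon M D → ℝ) => phi (S.dl 1 k) (cc cf) (Q.v k ((x k).l.p.π ω))) (cM M D (R k + 1)) (S.dl c k)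
        (B k) (E D) := by
  classical
  obtain ⟨R, hR, h⟩ := leaf_near l
  obtain ⟨K1, hK1, hc⟩ := leaf_sgp l D
  refine ⟨R, fun k => nn M D * ((K1 k + 1) ^ 2 * 4 ^ (E D)), hR, ?_, ?_⟩
  · have a1 := Sub_pow' (hK1.add (S.Sub_const zero_le_one)) 2
    have a2 := a1.mul (S.Sub_const (show (0 : ℝ) ≤ 4 ^ (E D) by positivity))
    exact (S.Sub_const (show 0 ≤ nn M D by linarith [nn_one M D])).mul a2
  filter_upwards [h, hc, hK1.1] with k hk c1 k1
  obtain ⟨hR0, hk⟩ := hk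
  have hd := S.dl_pos 1 k
  have hdc := S.dl_pos c k
  have hdc1 : S.dl c k ≤ 1 := by
    have := S.dl_anti h0 k
    rwa [S.dl_zero] at this
  have hnn := nn_one M D
  refine ⟨hR0, ?_, fun j ω cf hω => ?_⟩
  · exact one_le_mul_of_one_le_of_one_le hnn (one_le_mul_of_one_le_of_one_le (one_le_pow₀ (by linarith))
      (one_le_pow₀ (by norm_num)))
  set π : ((Ov x).F k).Ω → (S.F k).Ω := (x k).l.p.π with hπ
  have hμ : (S.F k).μ (π ω) ≠ 0 := (x k).l.p.supp ω hω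
  refine ⟨fun s => phi (S.dl 1 k) (cc cf) (l.F k (π ω) (Function.update (l.Y.v k (π ω)) j s)), fun s => ?_, ?_, ?_⟩
  · show 0 ≤ phi (S.dl 1 k) (cc cf) (l.F k (π ω) (Function.update (l.Y.v k (π ω)) j s))
    rw [phi_ccM]
    exact ph_nonneg _ _ _
  · intro y d ε hd' hy hsep hε u hu
    have hε' : ∀ i, ph D (pol cf) (S.dl 1 k) (l.F k (π ω) (Function.update (l.Y.v k (π ω)) j (y i))) ≤ ε := by
      intro i
      rw [← phi_ccM]
      exact hε i
    have key := seg_rem (l.F k (π ω)) (l.Y.v k (π ω)) (c1 (π ω) hμ) (pol cf) (pol_deg _) (S.dl 1 k) (S.dl c k)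
      hdc hdc1 j y d ε hd' hy hsep hε' u hu
    show phi (S.dl 1 k) (cc cf) (l.F k (π ω) (Function.update (l.Y.v k (π ω)) j u)) ≤ _
    rw [phi_ccM]
    refine key.trans ?_
    have hε0 : 0 ≤ ε := (ph_nonneg _ _ _).trans (hε' 0)
    apply mul_le_mul_of_nonneg_right _ hε0
    apply mul_le_mul_of_nonneg_right _ (by positivity)
    apply mul_le_mul_of_nonneg_left _ (by linarith)
    apply mul_le_mul_of_nonneg_right _ (by positivity)
    exact pow_le_pow_left₀ k1 (by linarith) 2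
  · intro ω' hω' hA hZ
    have hμ' : (S.F k).μ (π ω') ≠ 0 := (x k).l.p.supp ω' hω'
    have hZ' : (S.F k).Z (π ω) (π ω') := ((x k).l.p.hZ ω ω' hω hω').mp hZ.2
    have hA' : cS l c j k (π ω) (π ω') := hA
    obtain ⟨hA1, hA2, hA3⟩ := hA'
    have hA1' := (oths_rel _ _ _ _).1 hA1
    have hYc : ∀ i, |l.Y.v k (π ω') i - l.Y.v k (π ω) i| ≤ S.dl c k := fun i =>
      l.Y.cellv_close c k (π ω') (π ω) (Eq.symm hA3) i
    have hY1 : ∀ i, i ≠ j → |l.Y.v k (π ω') i - l.Y.v k (π ω) i| ≤ S.dl 1 k := fun i hi =>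
      Sp.abs_sub_le_of_floor_eq hd (hA1' i (Finset.mem_erase.2 ⟨hi, Finset.mem_univ _⟩)).symm
    have hn := hk (π ω) (π ω') hμ hμ' hZ' hA2 (Function.update (l.Y.v k (π ω)) j (l.Y.v k (π ω') j)) (by
      intro i
      by_cases hi : i = j
      · subst hi
        rw [Function.update_self]
        exact (hYc i).trans hdc1
      · rw [Function.update_of_ne hi, sub_self, abs_zero]
        exact zero_le_one) (by
      intro i
      by_cases hi : i = j
      · subst hi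
        rw [Function.update_self, sub_self, mul_zero, add_zero]
        exact (hYc i).trans hdc1
      · rw [Function.update_of_ne hi, add_sub_cancel_left, abs_mul, abs_of_pos (by positivity : 0 < 1 / S.dl 1 k),
          one_div, inv_mul_le_iff₀ hd, mul_one]
        exact hY1 i hi)
    refine ⟨hYc j, ?_, ?_⟩
    · show phi (S.dl 1 k) (cc cf) (Q.v k (π ω')) ≤ _ * phi (S.dl 1 k) (cc cf)
        (l.F k (π ω) (Function.update (l.Y.v k (π ω)) j (l.Y.v k (π ω') j)))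
      rw [phi_ccM, phi_ccM]
      apply ph_nearM cf _ _ hd (by linarith)
      intro i
      have := hn i
      rw [add_mul, one_mul]
      linarith
    · show phi (S.dl 1 k) (cc cf) (l.F k (π ω) (Function.update (l.Y.v k (π ω)) j (l.Y.v k (π ω') j))) ≤
        _ * phi (S.dl 1 k) (cc cf) (Q.v k (π ω'))
      rw [phi_ccM, phi_ccM]
      apply ph_nearM cf _ _ hd (by linarith)
      intro i
      have := hn i
      rw [abs_sub_comm, add_mul, one_mul]
      linarith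

/-- tame constants in the steps -/
theorem logb_cM0 (M D : ℕ) {R B : ℕ → ℝ} (hR : S.Sub R) (hB : S.Sub B) (h0 : ∀ᶠ k in UF, 0 ≤ R k ∧ 1 ≤ B k) :
    Tendsto (fun k => (Real.logb 2 (4 * B k * cM M D (R k + 1) ^ 2) / 2 + 1) / (S.F k).n) UF (𝓝 0) := by
  have h1 : S.Sub (fun k => 4 * B k * cM M D (R k + 1) ^ 2) := by
    have a1 := cM_Sub (S := S) M D (hR.add (S.Sub_const zero_le_one)) (by
      filter_upwards [h0] with k hk
      linarith [hk.1])
    exact ((S.Sub_const (by norm_num : (0 : ℝ) ≤ 4)).mul hB).mul (Sub_pow' a1 2)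
  have h2 : Tendsto (fun k => Real.logb 2 (4 * B k * cM M D (R k + 1) ^ 2 + 2) / (S.F k).n + 1 / (S.F k).n) UF
      (𝓝 0) := by
    have := h1.2.add (S.div_n_tendsto 1)
    rwa [add_zero] at this
  have hpos : ∀ᶠ k in UF, (1 : ℝ) ≤ 4 * B k * cM M D (R k + 1) ^ 2 := by
    filter_upwards [h0] with k hk
    have a1 := cM_one M D (K := R k + 1) (by linarith [hk.1])
    have a2 : 1 ≤ cM M D (R k + 1) ^ 2 := one_le_pow₀ a1
    have a3 : 1 ≤ 4 * B k := by linarith [hk.2]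
    exact one_le_mul_of_one_le_of_one_le a3 a2
  refine tendsto_of_tendsto_of_tendsto_of_le_of_le' tendsto_const_nhds h2 ?_ ?_
  · filter_upwards [hpos] with k hk
    have := Real.logb_nonneg (b := 2) (by norm_num) hk
    have := (S.F k).pos
    positivity
  · filter_upwards [hpos] with k hk
    rw [← add_div]
    apply div_le_div_of_nonneg_right _ (S.F k).pos.le
    have a1 := Real.logb_nonneg (b := 2) (by norm_num) hk
    have a2 : Real.logb 2 (4 * B k * cM M D (R k + 1) ^ 2) ≤ Real.logb 2 (4 * B k * cM M D (R k + 1) ^ 2 + 2) :=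
      Real.logb_le_logb_of_le (by norm_num) (by linarith) (by linarith)
    linarith

theorem logb_cM1 (M D : ℕ) {R : ℕ → ℝ} (hR : S.Sub R) (h0 : ∀ᶠ k in UF, 0 ≤ R k) :
    Tendsto (fun k => Real.logb 2 (cM M D (R k + 1)) / (2 * (S.F k).n)) UF (𝓝 0) := by
  have a1 := cM_Sub (S := S) M D (hR.add (S.Sub_const zero_le_one)) (by
    filter_upwards [h0] with k hk
    linarith)
  refine tendsto_of_tendsto_of_tendsto_of_le_of_le' tendsto_const_nhds a1.2 ?_ ?_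
  · filter_upwards [h0] with k hk
    have := Real.logb_nonneg (b := 2) (by norm_num) (cM_one M D (K := R k + 1) (by linarith))
    have := (S.F k).pos
    positivity
  · filter_upwards [h0] with k hk
    have hn := (S.F k).pos
    have b1 := cM_one M D (K := R k + 1) (by linarith)
    have b2 := Real.logb_nonneg (b := 2) (by norm_num) b1
    have b3 : Real.logb 2 (cM M D (R k + 1)) ≤ Real.logb 2 (cM M D (R k + 1) + 2) :=
      Real.logb_le_logb_of_le (by norm_num) (by linarith) (by linarith)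
    rw [div_le_div_iff₀ (by positivity) hn]
    nlinarith

/-- STEP for the point -/
theorem step_pt (Q : S.VV M) (E₀ : ℝ) (x : ∀ k, FD (S.F k) (Mon M D)) : ∃ ε : ℕ → ℝ, Tendsto ε UF (𝓝 0) ∧
    ∀ᶠ k in UF, ∀ z : CL ((Ov x).F k) (Mon M D → ℝ), z.E (fex (gaq Q D) x E₀ k) - ε k ≤
      (z.rs (Lab.up (fun k => (x k).l) 1 one_pos (pcd Q) k)).E (fex (gaq Q D) x E₀ k) := by
  refine ⟨fun k => Real.logb 2 (cM M D (1 + 1)) / (2 * (S.F k).n), logb_cM1 M D (S.Sub_const zero_le_one)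
    (Eventually.of_forall fun _ => zero_le_one), Eventually.of_forall fun k z => ?_⟩
  have e1 : Lab.up (fun k => (x k).l) 1 one_pos (pcd Q) k =
      fc (F := (Ov x).F k) (Setoid.comap (x k).l.p.π (Setoid.ker (Q.cellv 1 k))) := rfl
  rw [e1]
  apply z.step_B
  intro ω ω' cf _ _ hB _
  apply ex_scale (S.F k).pos (cM_one M D (by norm_num))
  show phi (S.dl 1 k) (cc cf) (Q.v k ((x k).l.p.π ω')) ≤ _ * phi (S.dl 1 k) (cc cf) (Q.v k ((x k).l.p.π ω))
  rw [phi_ccM, phi_ccM]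
  apply ph_nearM cf _ _ (S.dl_pos 1 k) (by norm_num)
  intro i
  have h1 : |Q.v k ((x k).l.p.π ω') i - Q.v k ((x k).l.p.π ω) i| ≤ S.dl 1 k :=
    Q.cellv_close 1 k _ _ (Eq.symm hB) i
  linarith

/-- STEP for the cell of the leaf -/
theorem step_leaf_t (E₀ : ℝ) (c : ℝ) (x : ∀ k, FD (S.F k) (Mon M D)) : ∃ ε : ℕ → ℝ, Tendsto ε UF (𝓝 0) ∧
    ∀ᶠ k in UF, ∀ z : CL ((Ov x).F k) (Mon M D → ℝ), z.E (fex (gaq Q D) x E₀ k) - ε k ≤
      (z.rs (Lab.up (fun k => (x k).l) 1 one_pos (fun k => fc (tS l c k)) k)).E (fex (gaq Q D) x E₀ k) := by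
  obtain ⟨R, hR, h⟩ := leaf_near_t l
  have h0 : ∀ᶠ k in UF, 0 ≤ R k := by
    filter_upwards [h] with k hk using hk.1
  refine ⟨fun k => Real.logb 2 (cM M D (R k + 1)) / (2 * (S.F k).n), logb_cM1 M D hR h0, ?_⟩
  filter_upwards [h] with k hk z
  obtain ⟨hR0, hk⟩ := hk
  have e1 : Lab.up (fun k => (x k).l) 1 one_pos (fun k => fc (tS l c k)) k =
      fc (F := (Ov x).F k) (Setoid.comap (x k).l.p.π (tS l c k)) := rfl
  rw [e1]
  apply z.step_B
  intro ω ω' cf hω hω' hB hZ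
  have hμ : (S.F k).μ ((x k).l.p.π ω) ≠ 0 := (x k).l.p.supp ω hω
  have hμ' : (S.F k).μ ((x k).l.p.π ω') ≠ 0 := (x k).l.p.supp ω' hω'
  have hZ' : (S.F k).Z ((x k).l.p.π ω) ((x k).l.p.π ω') := ((x k).l.p.hZ ω ω' hω hω').mp hZ.2
  obtain ⟨⟨hA1, hA2⟩, hA3⟩ := hB
  have hn := hk _ _ hμ hμ' hZ' hA1 (fun i => l.Y.cellv_close 1 k _ _ (Eq.symm hA3) i)
  apply ex_scale (S.F k).pos (cM_one M D (by linarith))
  show phi (S.dl 1 k) (cc cf) (Q.v k ((x k).l.p.π ω')) ≤ _ * phi (S.dl 1 k) (cc cf) (Q.v k ((x k).l.p.π ω))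
  rw [phi_ccM, phi_ccM]
  apply ph_nearM cf _ _ (S.dl_pos 1 k) (by linarith)
  intro i
  have := hn i
  rw [add_mul, one_mul]
  linarith

/-- STEP for one coordinate of the parameter -/
theorem step_leaf_c (hED : 1 ≤ E D) {c : ℝ} (h0 : 0 ≤ c) (h1 : c < 1) (E₀ : ℝ) (hE0 : 0 ≤ E₀)
    (hE1 : E₀ ≤ E D * (1 - c)) (x : ∀ k, FD (S.F k) (Mon M D))
    (hL : Nul S (fun k => (x k).l.leak (l.win c k))) (j : Fin l.e) : ∃ ε : ℕ → ℝ, Tendsto ε UF (𝓝 0) ∧
    ∀ᶠ k in UF, ∀ z : CL ((Ov x).F k) (Mon M D → ℝ), z.E (fex (gaq Q D) x E₀ k) -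
      E D * (z.l.leak (Lab.up (fun k => (x k).l) 1 one_pos (fun k => fc (cS l c j k)) k) / ((Ov x).F k).n) - ε k ≤
      (z.rs (Lab.up (fun k => (x k).l) 1 one_pos (fun k => fc (cS l c j k)) k)).E (fex (gaq Q D) x E₀ k) := by
  have hN : (1 : ℝ) ≤ E D := by exact_mod_cast hED
  obtain ⟨R, B, hR, hB, hSP⟩ := leaf_SPr (D := D) l h0 x
  obtain ⟨θ, hθ, hθ1⟩ := ent_low l h0 h1.le
  set ε : ℕ → ℝ := fun k => E D * (Real.logb 2 ((E₀ + 1) * (S.F k).n + 1) / (S.F k).n) +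
    E D * (Real.logb 2 (4 * E D) / (S.F k).n) + E D * (θ k + (x k).l.leak (l.win c k) / (S.F k).n) +
    (Real.logb 2 (4 * B k * cM M D (R k + 1) ^ 2) / 2 + 1) / (S.F k).n with hε
  refine ⟨ε, ?_, ?_⟩
  · have a1 := (logn S (E₀ + 1) 1 (by linarith)).const_mul (E D : ℝ)
    have a2 := (S.div_n_tendsto (Real.logb 2 (4 * E D))).const_mul (E D : ℝ)
    have a3 := (hθ.add hL).const_mul (E D : ℝ)
    have a4 := logb_cM0 M D hR hB (by filter_upwards [hSP] with k hk using ⟨hk.1, hk.2.1⟩)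
    have a5 := ((a1.add a2).add a3).add a4
    have e0 : (E D : ℝ) * 0 + E D * 0 + E D * (0 + 0) + 0 = 0 := by ring
    rw [e0] at a5
    exact a5
  · filter_upwards [hSP, hθ1 j] with k hk hent z
    obtain ⟨hR0, hB1, hS⟩ := hk
    have hn := (S.F k).pos
    have hnO : ((Ov x).F k).n = (S.F k).n := Ov_n x k
    have hd1 := S.dl_pos 1 k
    have hdc := S.dl_pos c k
    have hW : S.dl 1 k ≤ S.dl c k := S.dl_anti h1.le k
    have hWd : S.dl c k / S.dl 1 k = 2 ^ ((1 - c) * (S.F k).n) := by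
      unfold Sp.dl
      rw [← Real.rpow_sub (by norm_num)]
      congr 1; ring
    have key := step_SP z (Setoid.comap (x k).l.p.π (cS l c j k)) (fun ω => l.Y.v k ((x k).l.p.π ω) j)
      (fun ω cf => phi (S.dl 1 k) (cc cf) (Q.v k ((x k).l.p.π ω))) (cM M D (R k + 1)) (S.dl c k) (S.dl 1 k) E₀ (B k)
      (E D) (by omega) hE0 (cM_one M D (by linarith)) hB1 hd1 hW (by
        rw [hWd, hnO]
        apply Real.rpow_le_rpow_of_exponent_le (by norm_num)
        rw [div_le_iff₀ (by linarith)]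
        nlinarith) (hS j)
    rw [hnO] at key
    have hlog : Real.logb 2 (4 * (E D : ℝ) * (S.dl c k / S.dl 1 k)) =
        Real.logb 2 (4 * (E D : ℝ)) + (1 - c) * (S.F k).n := by
      rw [hWd, Real.logb_mul (by positivity) (by positivity), Real.logb_rpow (by norm_num) (by norm_num)]
    have hl1 : Real.logb 2 ((S.F k).n * E₀ + 1) ≤ Real.logb 2 ((E₀ + 1) * (S.F k).n + 1) :=
      Real.logb_le_logb_of_le (by norm_num) (by positivity) (by nlinarith)
    have hfe : (fun (ω : ((Ov x).F k).Ω) (cf : Mon M D → ℝ) =>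
        ex (S.F k).n E₀ (phi (S.dl 1 k) (cc cf) (Q.v k ((x k).l.p.π ω)))) = fex (gaq Q D) x E₀ k := rfl
    have hee : (S.F k).e (wS l j k) (cS l c j k ⊓ (S.F k).Z) - (x k).l.leak (fc (cS l c j k)) ≤
        ((Ov x).F k).e (tker (fun ω => l.Y.v k ((x k).l.p.π ω) j) (S.dl 1 k))
        (Setoid.comap (x k).l.p.π (cS l c j k) ⊓ ((Ov x).F k).Z) := e_over_ge (x k).l (wS l j k) (cS l c j k)
    have hlk : (x k).l.leak (fc (cS l c j k)) ≤ (x k).l.leak (l.win c k) := by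
      apply (x k).l.leak_anti
      exact fc_mono inf_le_right
    have e0 : Lab.up (fun k => (x k).l) 1 one_pos (fun k => fc (cS l c j k)) k =
        fc (F := (Ov x).F k) (Setoid.comap (x k).l.p.π (cS l c j k)) := rfl
    rw [hlog, hfe] at key
    rw [e0, hnO]
    refine le_trans ?_ key
    have hDn : 0 ≤ (E D : ℝ) / (S.F k).n := by positivity
    have e1 : ε k = E D / (S.F k).n * (Real.logb 2 ((E₀ + 1) * (S.F k).n + 1) + Real.logb 2 (4 * (E D : ℝ)) +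
        θ k * (S.F k).n + (x k).l.leak (l.win c k)) +
        (Real.logb 2 (4 * B k * cM M D (R k + 1) ^ 2) / 2 + 1) / (S.F k).n := by
      simp only [hε]
      field_simp
      ring
    rw [e1]
    have e3 : (E D : ℝ) * (z.l.leak (fc (F := (Ov x).F k) (Setoid.comap (x k).l.p.π (cS l c j k))) / (S.F k).n) =
        E D / (S.F k).n * z.l.leak (fc (F := (Ov x).F k) (Setoid.comap (x k).l.p.π (cS l c j k))) := by ring
    rw [e3]
    have e4 : Real.logb 2 ((S.F k).n * E₀ + 1) + (Real.logb 2 (4 * (E D : ℝ)) + (1 - c) * (S.F k).n) -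
        ((Ov x).F k).e (tker (fun ω => l.Y.v k ((x k).l.p.π ω) j) (S.dl 1 k))
        (Setoid.comap (x k).l.p.π (cS l c j k) ⊓ ((Ov x).F k).Z) +
        z.l.leak (fc (F := (Ov x).F k) (Setoid.comap (x k).l.p.π (cS l c j k))) ≤
        (Real.logb 2 ((E₀ + 1) * (S.F k).n + 1) + Real.logb 2 (4 * (E D : ℝ)) +
        θ k * (S.F k).n + (x k).l.leak (l.win c k)) +
        z.l.leak (fc (F := (Ov x).F k) (Setoid.comap (x k).l.p.π (cS l c j k))) := by
      nlinarith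
    have e5 := mul_le_mul_of_nonneg_left e4 hDn
    rw [mul_add (↑(E D) / (S.F k).n) (Real.logb 2 ((E₀ + 1) * (S.F k).n + 1) + Real.logb 2 (4 * (E D : ℝ)) +
        θ k * (S.F k).n + (x k).l.leak (l.win c k))] at e5
    linarith

end

/-- THEOREM COST for systems of leaves -/
theorem cost_msys {S : Sp} {M D : ℕ} {E : ℕ → ℕ} {ι : Type} [Finite ι] (s : MSys S M E ι) (hED : 1 ≤ E D) {c : ℝ}
    (h0 : 0 ≤ c) (h1 : c < 1) (E₀ : ℝ) (hE0 : 0 ≤ E₀) (hE1 : E₀ ≤ E D * (1 - c)) {x : ∀ k, FD (S.F k) (Mon M D)}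
    (hx : s.IsCan D c x) (y : ∀ k, CL ((Ov x).F k) (Mon M D → ℝ)) (hy : ∀ᶠ k in UF, (y k).Good (GdC x k))
    (hU : UB (fun k => (y k).l.info / ((Ov x).F k).n)) :
    ul (fun k => (y k).E (fex (gaq s.Q D) x E₀ k)) ≤ E D * ul (fun k => (y k).l.info / ((Ov x).F k).n) := by
  classical
  have hN : (1 : ℝ) ≤ E D := by exact_mod_cast hED
  have hL : ∀ i, Nul S (fun k => (x k).l.leak ((s.lf i).win c k)) := fun i => Gau.Adf.dm _ hx.1.1 (some i)
  set κ' := Option (Σ i : ι, Option (Fin (s.lf i).e)) with hκ'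
  set B : κ' → Part (Ov x) := fun a => match a with
    | none => Lab.up (fun k => (x k).l) 1 one_pos (pcd s.Q)
    | some ⟨i, none⟩ => Lab.up (fun k => (x k).l) 1 one_pos (fun k => fc (tS (s.lf i) c k))
    | some ⟨i, some j⟩ => Lab.up (fun k => (x k).l) 1 one_pos (fun k => fc (cS (s.lf i) c j k)) with hB
  have hstep : ∀ a : κ', ∃ ε : ℕ → ℝ, Tendsto ε UF (𝓝 0) ∧ ∀ᶠ k in UF, ∀ z : CL ((Ov x).F k) (Mon M D → ℝ),
      z.Good (GdC x k) → z.E (fex (gaq s.Q D) x E₀ k) - E D * (z.l.leak (B a k) / ((Ov x).F k).n) - ε k ≤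
        (z.rs (B a k)).E (fex (gaq s.Q D) x E₀ k) := by
    intro a
    have hlk : ∀ (k : ℕ) (z : CL ((Ov x).F k) (Mon M D → ℝ)), 0 ≤ E D * (z.l.leak (B a k) / ((Ov x).F k).n) :=
      fun k z => mul_nonneg (by linarith) (div_nonneg (FLab.leak_nonneg _ _) ((Ov x).F k).pos.le)
    rcases a with _ | ⟨i, _ | j⟩
    · obtain ⟨ε, hε, h⟩ := step_pt (D := D) s.Q E₀ x
      refine ⟨ε, hε, ?_⟩
      filter_upwards [h] with k hk z _
      have u1 := hk z
      have u2 := hlk k z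
      show z.E _ - _ - ε k ≤ (z.rs (Lab.up (fun k => (x k).l) 1 one_pos (pcd s.Q) k)).E _
      linarith
    · obtain ⟨ε, hε, h⟩ := step_leaf_t (D := D) (s.lf i) E₀ c x
      refine ⟨ε, hε, ?_⟩
      filter_upwards [h] with k hk z _
      have u1 := hk z
      have u2 := hlk k z
      show z.E _ - _ - ε k ≤ (z.rs (Lab.up (fun k => (x k).l) 1 one_pos (fun k => fc (tS (s.lf i) c k)) k)).E _
      linarith
    · obtain ⟨ε, hε, h⟩ := step_leaf_c (D := D) (s.lf i) hED h0 h1 E₀ hE0 hE1 x (hL i) j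
      refine ⟨ε, hε, ?_⟩
      filter_upwards [h] with k hk z _ using hk z
  choose ε hε hs using hstep
  refine costg (i₀ := none) (A := s.cnd c) (pcd_Bd s.Q) (gaq_hom s.Q D) E₀ hE0 hx.1 hx.2 B ?_ (E D) (by linarith)
    (fun _ => (E D : ℝ)) (fun _ => le_rfl) ε hε hs y hy hU
  intro z hz i
  rcases i with _ | i
  · exact hz none
  · exact win_leak (s.lf i) h0 h1.le (hL i) z (hz (some ⟨i, none⟩)) (fun j => hz (some ⟨i, some j⟩))

end

end Pool.Agent.Helper89.LX
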