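import Pool.Agent.Helper89.MG.Tvp
import Pool.Agent.Helper89.MG.Lfe

/-! TYPICAL VALUES (TYPD): a function on the cell of level `c` of the parameter of a leaf, which obeys the Remez and
Bernstein inequalities on axis-parallel segments and is a function of the window `c` over a label without leak, up to
tame factors, is typically not smaller at the parameter than its maximum, up to `2 ^ o(n)`. -/

set_option autoImplicit false

namespace Pool.Agent.Helper89.LX

open Finset Filter Topology Matrix Pool.Agent.Helper69.RK Pool.Agent.Helper31.EC Pool.Agent.Helper31.EC.Sp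
open Pool.Agent.Helper40.EL Pool.Agent.Helper84.MT Pool.Agent.Helper3.LF

noncomputable section

theorem AxS.mono {e N N' : ℕ} {K K' : ℝ} {Y : Fin e → ℝ} {f : (Fin e → ℝ) → ℝ} (h : AxS N K Y f) (hN : N ≤ N')
    (h0 : 0 ≤ K) (hK : K ≤ K') : AxS N' K' Y f := fun y hy j α β hα hβ =>
  ⟨(h y hy j α β hα hβ).1.mono hN h0 hK, (h y hy j α β hα hβ).2.mono hK⟩

/-- diagonal: a bound up to `2 ^ (η n)` with probability `1 - η` for all `η` is a typical bound -/
theorem typ_diag {S : Sp} (P : ∀ k, (S.F k).Ω → ℝ → Prop)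
    (h : ∀ η : ℝ, 0 < η → ∀ᶠ k in UF, (S.F k).pb (fun ω => ¬ P k ω (2 ^ (η * (S.F k).n))) ≤ η) :
    ∃ K' : ℕ → ℝ, S.Sub K' ∧ Typ (fun k ω => P k ω (K' k)) := by
  obtain ⟨J, hJ, hJ2⟩ := dia (fun j k => (S.F k).pb (fun ω => ¬ P k ω (2 ^ (1 / ((j : ℝ) + 1) * (S.F k).n))) ≤
    1 / ((j : ℝ) + 1)) (fun j => h _ (by positivity))
  have h0 : Tendsto (fun k => 1 / ((J k : ℝ) + 1)) UF (𝓝 0) := tendsto_one_div_add_atTop_nhds_zero_nat.comp hJ
  refine ⟨fun k => 2 ^ (1 / ((J k : ℝ) + 1) * (S.F k).n), Sub_pow_two h0 (Eventually.of_forall fun k => by positivity), ?_⟩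
  show Tendsto _ _ _
  refine tendsto_of_tendsto_of_tendsto_of_le_of_le' tendsto_const_nhds h0
    (Eventually.of_forall fun k => (S.F k).pb_nonneg _) ?_
  filter_upwards [hJ2] with k hk using hk (J k) le_rfl

section
variable {S : Sp} {M : ℕ} {E : ℕ → ℕ} {Q : S.VV M} (l : Leaf S Q E)

/-- TYPICAL VALUES over a label without leak at the window `c` -/
theorem typd {c : ℝ} (h0 : 0 ≤ c) (h1 : c < 1) (L : Lab S) (hL : Nul S (fun k => (L k).leak (l.win c k)))
    (f : ∀ k, (L k).T.Ω → (Fin l.e → ℝ) → ℝ) {N : ℕ} (hN : 0 < N) {K : ℕ → ℝ} (hK : S.Sub K)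
    (hf : ∀ᶠ k in UF, ∀ w, (L k).T.μ w ≠ 0 → AxS N (K k) (l.Y.v k ((L k).p.π w)) (f k w)) {κ : ℕ → ℝ} (hκ : S.Sub κ)
    (hcl : ∀ᶠ k in UF, ∀ w w', (L k).T.μ w ≠ 0 → (L k).T.μ w' ≠ 0 → (L k).T.Z w w' → (L k).V w w' →
      l.La k ((L k).p.π w) ((L k).p.π w') → (∀ i, ⌊l.Y.v k ((L k).p.π w) i / S.dl c k⌋ =
        ⌊l.Y.v k ((L k).p.π w') i / S.dl c k⌋) →
      ∀ y : Fin l.e → ℝ, (∀ i, ⌊y i / S.dl c k⌋ = ⌊l.Y.v k ((L k).p.π w) i / S.dl c k⌋) →
        |f k w' y| ≤ κ k * |f k w y|) :
    ∃ K' : ℕ → ℝ, S.Sub K' ∧ Typ (S := L.sp) (fun k w => ∀ y : Fin l.e → ℝ,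
      (∀ i, |y i - l.Y.v k ((L k).p.π w) i| < S.dl c k) → |f k w y| ≤ K' k * |f k w (l.Y.v k ((L k).p.π w))|) := by
  classical
  obtain ⟨θ, hθ, hθ1⟩ := ent_low l h0 h1.le
  have key : ∀ η : ℝ, 0 < η → ∀ᶠ k in UF, (L.sp.F k).pb (fun w => ¬ ∀ y : Fin l.e → ℝ,
      (∀ i, |y i - l.Y.v k ((L k).p.π w) i| < S.dl c k) →
        |f k w y| ≤ 2 ^ (η * (L.sp.F k).n) * |f k w (l.Y.v k ((L k).p.π w))|) ≤ η := by
    intro η hη
    have hN0 : (0 : ℝ) < N := by exact_mod_cast hN
    set e' : ℝ := (l.e : ℝ) + 1 with he'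
    have he0 : 0 < e' := by positivity
    have hc1 : 0 < 1 - c := by linarith
    set η1 : ℝ := min (η / (4 * (N * e'))) ((1 - c) / (4 * (N * e'))) with hη1
    have hη10 : 0 < η1 := lt_min (by positivity) (by positivity)
    have hη1a : η1 * N * l.e ≤ η / 4 := by
      have h2 : η1 ≤ η / (4 * (N * e')) := min_le_left _ _
      rw [le_div_iff₀ (by positivity)] at h2
      have h3 : η1 * N * l.e ≤ η1 * N * e' := mul_le_mul_of_nonneg_left (by linarith) (by positivity)
      linarith
    have hη1b : η1 * N * l.e ≤ (1 - c) / 4 := by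
      have h2 : η1 ≤ (1 - c) / (4 * (N * e')) := min_le_right _ _
      rw [le_div_iff₀ (by positivity)] at h2
      have h3 : η1 * N * l.e ≤ η1 * N * e' := mul_le_mul_of_nonneg_left (by linarith) (by positivity)
      linarith
    have hη1c : η1 ≤ (1 - c) / 4 := by
      have h2 : η1 ≤ (1 - c) / (4 * (N * e')) := min_le_right _ _
      have h4 : (1 : ℝ) ≤ N * e' := by
        have h5 : (1 : ℝ) ≤ N := by exact_mod_cast hN
        have h6 : (0 : ℝ) ≤ l.e := Nat.cast_nonneg _
        nlinarith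
      refine h2.trans ?_
      apply div_le_div_of_nonneg_left hc1.le (by norm_num)
      linarith
    set p : ℝ := η / e' with hp
    have hp0 : 0 < p := by positivity
    -- constants
    have hK1 : S.Sub (fun k => K k + 1) := hK.add (S.Sub_const zero_le_one)
    have hκ1 : S.Sub (fun k => κ k + 1) := hκ.add (S.Sub_const zero_le_one)
    have hC3 : S.Sub (fun k => extC N (K k + 1) ^ l.e) := by
      apply Sub_pow'
      unfold extC
      exact hK1.mul (S.Sub_const (by positivity))
    have hC4 : S.Sub (fun k => (2 * (K k + 1) * (κ k + 1) ^ 2) ^ l.e) :=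
      Sub_pow' (((S.Sub_const zero_le_two).mul hK1).mul (Sub_pow' hκ1 2)) _
    have hC5 : S.Sub (fun k => 4 * l.e * (K k + 1) * extC N (K k + 1) ^ l.e *
        (2 * (K k + 1) * (κ k + 1) ^ 2) ^ l.e) :=
      (((S.Sub_const (show (0 : ℝ) ≤ 4 * l.e by positivity)).mul hK1).mul hC3).mul hC4
    have hC6 : S.Sub (fun k => 2 * extC N (K k + 1) ^ l.e * (2 * (K k + 1) * (κ k + 1) ^ 2) ^ l.e) :=
      ((S.Sub_const zero_le_two).mul hC3).mul hC4
    -- the entropy defect
    have hent : Tendsto (fun k => (1 + Real.logb 2 (4 * N)) / (S.F k).n + θ k + (L k).leak (l.win c k) / (S.F k).n) UF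
        (𝓝 0) := by
      have := ((S.div_n_tendsto (1 + Real.logb 2 (4 * N))).add hθ).add hL
      rwa [add_zero, add_zero] at this
    have hall : ∀ᶠ k in UF, ∀ j : Fin l.e, (1 - c - θ k) * (S.F k).n ≤
        (S.F k).e (wS l j k) (cS l c j k ⊓ (S.F k).Z) := by
      rw [eventually_all]
      exact hθ1
    have hlarge : ∀ᶠ k in UF, 2 / (1 - c) ≤ (S.F k).n := S.lim.eventually (eventually_ge_atTop _)
    filter_upwards [hf, hcl, hK.1, hκ.1, hC5.eventually_le (show 0 < (1 - c) / 2 by linarith),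
      hC6.eventually_le (show 0 < η / 2 by linarith), hent.eventually (gt_mem_nhds (show 0 < p * η1 by positivity)),
      hall, hlarge] with k g1 g2 g3 g4 g5 g6 g7 g8 g9
    have hn := (S.F k).pos
    have hnk : (L.sp.F k).n = (S.F k).n := sp_n L k
    rw [hnk]
    set n := (S.F k).n with hndef
    rw [div_le_iff₀ hc1] at g9
    have hW0 := S.dl_pos c k
    have hδ0 := S.dl_pos 1 k
    have hWd : S.dl 1 k / S.dl c k = 2 ^ (-((1 - c) * n)) := by
      unfold Sp.dl
      rw [← Real.rpow_sub (by norm_num)]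
      congr 1
      ring
    have hWd' : S.dl c k / S.dl 1 k = 2 ^ ((1 - c) * n) := by
      unfold Sp.dl
      rw [← Real.rpow_sub (by norm_num)]
      congr 1
      ring
    have H : TvH (L k).T l.e N (fun w => l.Y.v k ((L k).p.π w)) ((L k).V ⊓ Setoid.comap (L k).p.π (l.La k))
        (S.dl c k) (S.dl 1 k) (K k + 1) (κ k + 1) (f k) := by
      refine ⟨hN, by linarith, by linarith, hδ0, ?_, ?_, fun w hw => (g1 w hw).mono le_rfl g3 (by linarith), ?_⟩
      · have h2 : S.dl 1 k * 2 ≤ S.dl c k := by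
          unfold Sp.dl
          rw [← Real.rpow_add_one (by norm_num)]
          apply Real.rpow_le_rpow_of_exponent_le (by norm_num)
          linarith
        linarith
      · have := S.dl_anti h0 k
        rwa [S.dl_zero] at this
      · intro w w' hw hw' hZ hA hc y hy
        refine (g2 w w' hw hw' hZ hA.1 hA.2 hc y hy).trans ?_
        exact mul_le_mul_of_nonneg_right (by linarith) (abs_nonneg _)
    set d : ℝ := 2 ^ (-(η1 * n)) with hd
    set r : ℝ := d ^ N / (2 * (K k + 1) * (κ k + 1) ^ 2) with hr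
    have hd0 : 0 < d := by positivity
    have hden : 0 < 2 * (K k + 1) * (κ k + 1) ^ 2 := by positivity
    have h2 := H.typ (r := r) (d := d) (p := p) hd0 (by
        rw [hd]
        apply Real.rpow_lt_one_of_one_lt_of_neg (by norm_num)
        have := mul_pos hη10 hn
        linarith) (by
        rw [← div_le_iff₀ hW0, hWd]
        apply Real.rpow_le_rpow_of_exponent_le (by norm_num)
        have := mul_le_mul_of_nonneg_right hη1c hn.le
        nlinarith) (by positivity) (by
        rw [hr, mul_div_cancel₀]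
        exact hden.ne') hp0.le (fun j => by
        have e1 : Real.logb 2 (1 / d) = η1 * n := by
          rw [hd, Real.rpow_neg (by norm_num), one_div, inv_inv, Real.logb_rpow (by norm_num) (by norm_num)]
        have e2 : Real.logb 2 (4 * N * (S.dl c k / S.dl 1 k)) = Real.logb 2 (4 * N) + (1 - c) * n := by
          rw [Real.logb_mul (by positivity) (by positivity), hWd', Real.logb_rpow (by norm_num) (by norm_num)]
        have e3 := e_over_ge (L k) (wS l j k) (cS l c j k)
        have e4 : (L k).leak (fc (cS l c j k)) ≤ (L k).leak (l.win c k) := by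
          apply (L k).leak_anti
          exact fc_mono inf_le_right
        have e5 : (L k).T.e (Setoid.comap (L k).p.π (wS l j k)) (Setoid.comap (L k).p.π (cS l c j k) ⊓
            ((L k).V ⊓ (L k).T.Z)) ≤ (L k).T.e (Setoid.ker (fun ω => ⌊l.Y.v k ((L k).p.π ω) j / S.dl 1 k⌋))
            ((Setoid.ker (fun ω (i : ((univ : Finset (Fin l.e)).erase j)) => ⌊l.Y.v k ((L k).p.π ω) i / S.dl 1 k⌋) ⊓
              (((L k).V ⊓ Setoid.comap (L k).p.π (l.La k)) ⊓
                Setoid.ker (fun ω i => ⌊l.Y.v k ((L k).p.π ω) i / S.dl c k⌋))) ⊓ (L k).T.Z) := by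
          have e6 : (L k).T.e (Setoid.comap (L k).p.π (wS l j k)) (Setoid.comap (L k).p.π (cS l c j k) ⊓
              ((L k).V ⊓ (L k).T.Z)) ≤ (L k).T.e (Setoid.comap (L k).p.π (wS l j k))
              ((Setoid.ker (fun ω (i : ((univ : Finset (Fin l.e)).erase j)) => ⌊l.Y.v k ((L k).p.π ω) i / S.dl 1 k⌋) ⊓
              (((L k).V ⊓ Setoid.comap (L k).p.π (l.La k)) ⊓
                Setoid.ker (fun ω i => ⌊l.Y.v k ((L k).p.π ω) i / S.dl c k⌋))) ⊓ (L k).T.Z) := by
            apply FSp.e_anti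
            rintro ω ω' _ _ ⟨⟨a1, a2, a3⟩, a4, a5⟩
            exact ⟨⟨a1, ⟨a4, a2⟩, a3⟩, a5⟩
          exact e6
        have e7 := g8 j
        have e8 : (1 + Real.logb 2 (4 * N)) + θ k * n + (L k).leak (l.win c k) ≤ p * η1 * n := by
          have h3 : ((1 + Real.logb 2 (4 * N)) / n + θ k + (L k).leak (l.win c k) / n) * n ≤ p * η1 * n :=
            mul_le_mul_of_nonneg_right g7.le hn.le
          have h4 : ((1 + Real.logb 2 (4 * N)) / n + θ k + (L k).leak (l.win c k) / n) * n =
              (1 + Real.logb 2 (4 * N)) + θ k * n + (L k).leak (l.win c k) := by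
            field_simp
          linarith
        rw [e1, e2]
        have e9 : (1 - c - θ k) * n = (1 - c) * n - θ k * n := by ring
        linarith)
    have h3 : (l.e : ℝ) * p ≤ η := by
      rw [hp, ← mul_div_assoc, div_le_iff₀ he0, he']
      nlinarith
    refine le_trans (FSp.pb_mono _ ?_) (h2.trans h3)
    intro w hw h4 h5
    apply h4
    intro y hy
    have h6 := h5 y hy
    set C3 : ℝ := extC N (K k + 1) ^ l.e with hC3d
    set C4 : ℝ := (2 * (K k + 1) * (κ k + 1) ^ 2) ^ l.e with hC4d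
    have hC31 : 1 ≤ C3 := one_le_pow₀ (extC_one (by linarith))
    have hC40 : 0 < C4 := by positivity
    set u : ℝ := 2 ^ (-(η1 * N * l.e * n)) with hu
    have hu0 : 0 < u := by positivity
    have hre : r ^ l.e = u / C4 := by
      rw [hr, div_pow, hC4d]
      congr 1
      rw [hd, hu, ← pow_mul, ← Real.rpow_natCast, ← Real.rpow_mul (by norm_num)]
      congr 1
      push_cast
      ring
    -- the error term
    have h7 : 2 * l.e * (K k + 1) * C3 * (S.dl 1 k / S.dl c k) ≤ r ^ l.e / 2 := by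
      rw [hre, hWd, div_div, le_div_iff₀ (by positivity)]
      have e1 : 2 * l.e * (K k + 1) * C3 * 2 ^ (-((1 - c) * n)) * (C4 * 2) =
          (4 * l.e * (K k + 1) * C3 * C4) * 2 ^ (-((1 - c) * n)) := by ring
      rw [e1]
      have e2 : (4 * l.e * (K k + 1) * C3 * C4) * 2 ^ (-((1 - c) * n)) ≤
          2 ^ ((1 - c) / 2 * n) * 2 ^ (-((1 - c) * n)) := mul_le_mul_of_nonneg_right (by linarith) (by positivity)
      refine e2.trans ?_
      rw [← Real.rpow_add (by norm_num), hu]
      apply Real.rpow_le_rpow_of_exponent_le (by norm_num)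
      have := mul_le_mul_of_nonneg_right hη1b hn.le
      nlinarith
    have h8 : r ^ l.e / 2 * |f k w y| ≤ C3 * |f k w (l.Y.v k ((L k).p.π w))| := by
      refine le_trans ?_ h6
      apply mul_le_mul_of_nonneg_right _ (abs_nonneg _)
      linarith
    rw [hre, div_div, div_mul_eq_mul_div, div_le_iff₀ (by positivity)] at h8
    have h9 : |f k w y| ≤ 2 * C3 * C4 * u⁻¹ * |f k w (l.Y.v k ((L k).p.π w))| := by
      have e1 : |f k w y| = u⁻¹ * (u * |f k w y|) := by
        rw [← mul_assoc, inv_mul_cancel₀ hu0.ne', one_mul]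
      rw [e1]
      have := mul_le_mul_of_nonneg_left h8 (inv_nonneg.2 hu0.le)
      refine this.trans (le_of_eq ?_)
      ring
    refine h9.trans ?_
    apply mul_le_mul_of_nonneg_right _ (abs_nonneg _)
    have e1 : u⁻¹ = 2 ^ (η1 * N * l.e * n) := by
      rw [hu, Real.rpow_neg (by norm_num), inv_inv]
    rw [e1]
    calc 2 * C3 * C4 * 2 ^ (η1 * N * l.e * n) ≤ 2 ^ (η / 2 * n) * 2 ^ (η / 2 * n) := by
          apply mul_le_mul (by linarith) _ (by positivity) (by positivity)
          apply Real.rpow_le_rpow_of_exponent_le (by norm_num)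
          have := mul_le_mul_of_nonneg_right hη1a hn.le
          nlinarith
      _ = 2 ^ (η * n) := by
          rw [← Real.rpow_add (by norm_num)]
          congr 1
          ring
  obtain ⟨K', hK', hT⟩ := typ_diag (S := L.sp) (fun k w x => ∀ y : Fin l.e → ℝ,
    (∀ i, |y i - l.Y.v k ((L k).p.π w) i| < S.dl c k) → |f k w y| ≤ x * |f k w (l.Y.v k ((L k).p.π w))|)
    key
  exact ⟨K', (sp_Sub L).mp hK', hT⟩

end

end

end Pool.Agent.Helper89.LX
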