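import Pool.Agent.Helper89.MG.Agl

/-! AGREEMENT OF FORMS with per-condition partitions. -/

set_option autoImplicit false

namespace Pool.Agent.Helper89.LX

open Finset Filter Topology Matrix Pool.Agent.Helper69.RK Pool.Agent.Helper31.EC Pool.Agent.Helper40.EL
open Pool.Agent.Helper95.LF (PdM NearM round_mat values_card)

noncomputable section

/-- AGREEMENT PRINCIPLE FOR FORMS, finite families, with per-condition partitions -/
theorem agf2L (ι : Type) [Fintype ι] [DecidableEq ι] : ∃ Cc : ℝ, 0 ≤ Cc ∧ ∀ {S : Sp} (Φ : Gau S ι) (_ : MonG Φ.φ)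
    {κ : Type} [Fintype κ] {A : κ → Part S} {l : Lab S} (_ : l.IsMaxf A) (i₀ : κ) (_ : (A i₀).Bd)
    (_ : ∀ E : ∀ k, (l.sp.F k).Ω → Prop, ((A i₀).im l.pj E).Bd)
    (L : κ → ∀ k, Setoid (l k).T.Ω) (_ : ∀ i k, L i k ≤ (l k).V) (_ : ∀ k, (l k).V ≤ L i₀ k)
    (_ : ∀ i, Nul S (fun k => ((l k).wV (L i k)).leak (A i k)))
    (D : κ → ∀ k, FAm (l k).T (l k).T) (_ : ∀ k, (D i₀ k).f = (D i₀ k).g)
    (_ : ∀ i k, (fc (Setoid.ker (D i k).f) : FL (l k).T) ≤ fc (L i k) ⊔ (l k).p.map (A i k))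
    (g : ∀ k, (l k).T.Ω → Matrix ι ι ℝ) (_ : ∀ᶠ k in UF, ∀ ω, (l k).T.μ ω ≠ 0 → Cpd (Φ.cp k) (g k ω))
    (_ : ∀ η : ℝ, 0 < η → ∀ᶠ k in UF,
      (l k).T.pb (fun ω => ¬ Φ.φ k ((l k).p.π ω) (g k ω) ≤ 2 ^ (η * (S.F k).n)) ≤ η)
    (e : ℝ) (_ : 0 < e) {p : κ → ℝ} (_ : 0 < 1 - ∑ i, (1 - p i))
    (_ : ∀ i, ∀ᶠ k in UF, p i ≤ (D i k).sp.pb (fun w => Nr (e * (S.F k).n) (g k w.1) (g k w.2))),
    ∃ E M c, AgOut Φ A l g (1 - ∑ i, (1 - p i)) (Cc * e) E M c := by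
  classical
  obtain ⟨C, N, hC, hN, hround⟩ := exists_round ι
  refine ⟨2 * (1 + C * 2), by positivity, ?_⟩
  intro S Φ hφ κ _ A l hl i₀ hA hA₂ L hLV hL₀ hLl D hD hY g hcpd hg e he p hpp hp
  set L1 : ℕ → ℝ := fun k => max 1 (e * (S.F k).n * Real.log 2) with hL1
  set L2 : ℕ → ℝ := fun k => 2 * L1 k with hL2
  have hL1a : ∀ k, 1 ≤ L1 k := fun k => le_max_left _ _
  have hL1b : ∀ k, e * (S.F k).n * Real.log 2 ≤ L1 k := fun k => le_max_right _ _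
  have hL2a : ∀ k, 1 ≤ L2 k := fun k => by
    have := hL1a k
    show 1 ≤ 2 * L1 k
    linarith
  choose Q hQa hQb using fun k => hround (L2 k) (hL2a k)
  have henum : ∀ k (z : Matrix ι ι ℝ), ∃ f : Fin N → Matrix ι ι ℝ, PdM z →
      ∀ A', PdM A' → NearM (L2 k) z A' → ∃ i, Q k A' = f i := by
    intro k z
    by_cases hp : PdM z
    · obtain ⟨Z, hZ, hZ'⟩ := hQb k _ hp
      obtain ⟨f, hf⟩ := enum_fin Z N hZ
      exact ⟨f, fun _ A' h1 h2 => hf _ (hZ' A' h1 h2)⟩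
    · exact ⟨fun _ => 1, fun h => absurd h hp⟩
  choose en hen using henum
  obtain ⟨E, ub, hpE, hR, -, hub', -, hmax⟩ := Lab.IsMaxf.agree2L (l := l) hl i₀ hA hA₂ L hLV hL₀ hLl D hD hY
    (fun _ => Matrix ι ι ℝ) (fun _ => Matrix ι ι ℝ) g
    (fun _ k a b => PdM a ∧ PdM b ∧ Nr (e * (S.F k).n) a b) (fun k => Q k) N (fun k => en k)
    (fun _ k x y z hxy hxz => by
      obtain ⟨h1, h2, h3⟩ := hxy
      obtain ⟨-, h4, h5⟩ := hxz
      refine hen k z h4 y h2 ?_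
      have h6 : NearM (L1 k) z x := Nr.near ⟨h4.1, fun x => h4.nonneg x⟩ ⟨h1.1, fun x => h1.nonneg x⟩ h5.symm (hL1b k)
      have h7 : NearM (L1 k) x y := Nr.near ⟨h1.1, fun x => h1.nonneg x⟩ ⟨h2.1, fun x => h2.nonneg x⟩ h3 (hL1b k)
      have h8 := nearM_trans h6 h7
      have h9 : L1 k + L1 k = L2 k := by rw [hL2]; ring
      rwa [h9] at h8) hpp (fun i => by
      filter_upwards [hp i, hcpd] with k hk hc
      refine hk.trans (FSp.pb_mono _ ?_)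
      intro w hw hN
      have h1 := (D i k).p1.supp w hw
      have h2 := (D i k).p2.supp w hw
      exact ⟨(hc _ h1).pdM, (hc _ h2).pdM, hN⟩)
  refine ⟨E, fun k ω => Q k (ub k ω), _, AgOut.mk' Φ hφ hpp hpE he L1 L2 hL1a (fun _ => rfl) (fun _ => rfl) hcpd ?_
    (fun k ω hω => (hR k ω hω).2.2) (fun k ω h => hQa k _ h) hg hmax⟩
  filter_upwards [hcpd] with k hk ω hω
  obtain ⟨ω', h6, -, h7⟩ := hub' k ω hω
  rw [h7]
  exact ⟨(hk ω' h6).pdM, (hk ω' h6).2.2⟩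

/-- AGREEMENT OF FORMS AT BOTH CONDITIONS; the copies for `B` are given `(LB, B)`, where `LB` is finer than the label and
has no leak at `B` -/
theorem agf_pairL (ι : Type) [Fintype ι] [DecidableEq ι] : ∃ Cc : ℝ, 0 ≤ Cc ∧ ∀ {S : Sp} (Φ : Gau S ι) (_ : MonG Φ.φ)
    {A B : Part S} {l : Lab S} (_ : l.IsMax A B) (_ : A.Bd)
    (_ : ∀ E : ∀ k, (l.sp.F k).Ω → Prop, (A.im l.pj E).Bd)
    (LB : ∀ k, Setoid (l k).T.Ω) (_ : ∀ k, LB k ≤ (l k).V) (_ : Nul S (fun k => ((l k).wV (LB k)).leak (B k)))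
    (DA DB : ∀ k, FAm (l k).T (l k).T) (_ : ∀ k, (DA k).f = (DA k).g)
    (_ : ∀ k, (fc (Setoid.ker (DA k).f) : FL (l k).T) ≤ (l k).v ⊔ (l k).p.map (A k))
    (_ : ∀ k, (fc (Setoid.ker (DB k).f) : FL (l k).T) ≤ fc (LB k) ⊔ (l k).p.map (B k))
    (g : ∀ k, (l k).T.Ω → Matrix ι ι ℝ) (_ : ∀ᶠ k in UF, ∀ ω, (l k).T.μ ω ≠ 0 → Cpd (Φ.cp k) (g k ω))
    (_ : ∀ η : ℝ, 0 < η → ∀ᶠ k in UF,
      (l k).T.pb (fun ω => ¬ Φ.φ k ((l k).p.π ω) (g k ω) ≤ 2 ^ (η * (S.F k).n)) ≤ η)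
    (e : ℝ) (_ : 0 < e) {p q : ℝ} (_ : 1 < p + q)
    (_ : ∀ᶠ k in UF, p ≤ (DA k).sp.pb (fun w => Nr (e * (S.F k).n) (g k w.1) (g k w.2)))
    (_ : ∀ᶠ k in UF, q ≤ (DB k).sp.pb (fun w => Nr (e * (S.F k).n) (g k w.1) (g k w.2))),
    ∃ E M c, AgOut Φ ![A, B] l g (p + q - 1) (Cc * e) E M c := by
  obtain ⟨Cc, hCc, h⟩ := agf2L ι
  refine ⟨Cc, hCc, ?_⟩
  intro S Φ hφ A B l hl hA hA2 LB hLB hLl DA DB hD hYA hYB g hcpd hg e he p q hpq hp hq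
  have h1 : 1 - ∑ i : Fin 2, (1 - ![p, q] i) = p + q - 1 := by
    rw [Fin.sum_univ_two]
    show 1 - ((1 - p) + (1 - q)) = _
    ring
  have h2 := h Φ hφ (A := ![A, B]) (Lab.IsMaxf_pair.mpr hl) 0 hA hA2
    (fun i => if i = 0 then fun k => (l k).V else LB) (fun i k => by
      fin_cases i
      · exact le_rfl
      · exact hLB k) (fun k => le_rfl) (fun i => by
      fin_cases i
      · exact hl.1.1
      · exact hLl) ![DA, DB] hD (fun i k => by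
    fin_cases i
    · exact hYA k
    · exact hYB k) g hcpd hg e he (p := ![p, q]) (by rw [h1]; linarith) (fun i => by
    fin_cases i
    · exact hp
    · exact hq)
  rw [h1] at h2
  exact h2

/-- AGREEMENT MODULO A KNOWN FORM, the copies for `B` are given `(LB, B)` -/
theorem lab_modL (ι : Type) [Fintype ι] [DecidableEq ι] : ∃ Cc : ℝ, 0 ≤ Cc ∧ ∀ {S : Sp} (Φ : Gau S ι) (_ : MonG Φ.φ)
    {A B : Part S} {l : Lab S} (_ : l.IsMax A B) (_ : A.Bd)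
    (_ : ∀ E : ∀ k, (l.sp.F k).Ω → Prop, (A.im l.pj E).Bd)
    (LB : ∀ k, Setoid (l k).T.Ω) (_ : ∀ k, LB k ≤ (l k).V) (_ : Nul S (fun k => ((l k).wV (LB k)).leak (B k)))
    (DA DB : ∀ k, FAm (l k).T (l k).T) (_ : ∀ k, (DA k).f = (DA k).g)
    (_ : ∀ k, (fc (Setoid.ker (DA k).f) : FL (l k).T) ≤ (l k).v ⊔ (l k).p.map (A k))
    (_ : ∀ k, (fc (Setoid.ker (DB k).f) : FL (l k).T) ≤ fc (LB k) ⊔ (l k).p.map (B k))
    (a b : ∀ k, (l k).T.Ω → Matrix ι ι ℝ)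
    (_ : ∀ᶠ k in UF, ∀ ω, (l k).T.μ ω ≠ 0 → Cpd (Φ.cp k) (a k ω) ∧ Psd (b k ω))
    (_ : ∀ η : ℝ, 0 < η → ∀ᶠ k in UF, (l k).T.pb (fun ω => ¬ Φ.φ k ((l k).p.π ω) (a k ω) ≤ 2 ^ (η * (S.F k).n)) ≤ η)
    (_ : ∀ η : ℝ, 0 < η → ∀ᶠ k in UF, (l k).T.pb (fun ω => ¬ Φ.φ k ((l k).p.π ω) (b k ω) ≤ 2 ^ (η * (S.F k).n)) ≤ η)
    (e : ℝ) (_ : 0 < e) {p q : ℝ} (_ : 1 < p + q)
    (_ : ∀ᶠ k in UF, p ≤ (DA k).sp.pb (fun w => NrM (e * (S.F k).n) (a k w.1) (b k w.1) (a k w.2) (b k w.2)))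
    (_ : ∀ᶠ k in UF, q ≤ (DB k).sp.pb (fun w => NrM (e * (S.F k).n) (a k w.1) (b k w.1) (a k w.2) (b k w.2))),
    ∃ p0, 0 < p0 ∧ ∃ E M c, AgOut Φ ![A, B] l (fun k ω => csum (Φ.cp k) (a k ω) (b k ω)) p0 (Cc * e) E M c := by
  classical
  obtain ⟨Cc, hCc, h⟩ := agf_pairL ι
  refine ⟨Cc * 2, by positivity, ?_⟩
  intro S Φ hφ A B l hl hA hA2 LB hLB hLl DA DB hD hYA hYB a b hab ha hb e he p q hpq hp hq
  set ε : ℝ := (p + q - 1) / 8 with hε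
  have hε0 : 0 < ε := by rw [hε]; linarith
  have htyp := Φ.csum_typ (T := fun k => (l k).T) (π := fun k => (l k).p.π) (fun k ω h => (l k).p.supp ω h) hab ha hb hε0
  have hlarge : ∀ᶠ k in UF, 1 ≤ e * (S.F k).n := by
    filter_upwards [S.lim.eventually (eventually_ge_atTop (1 / e))] with k hk
    rw [div_le_iff₀ he] at hk
    linarith
  have hnear : ∀ (D : ∀ k, FAm (l k).T (l k).T) (r : ℝ),
      (∀ᶠ k in UF, r ≤ (D k).sp.pb (fun w => NrM (e * (S.F k).n) (a k w.1) (b k w.1) (a k w.2) (b k w.2))) →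
      ∀ᶠ k in UF, r - 2 * ε ≤ (D k).sp.pb (fun w => Nr (e * 2 * (S.F k).n)
        (csum (Φ.cp k) (a k w.1) (b k w.1)) (csum (Φ.cp k) (a k w.2) (b k w.2))) := by
    intro D r hr
    filter_upwards [hr, htyp, hab, hlarge] with k h1 h2 h3 h4
    have p1 := pb_push (D k).p1 (fun ω => ¬ Cpd (Φ.cp k) (a k ω + b k ω))
    have p2 := pb_push (D k).p2 (fun ω => ¬ Cpd (Φ.cp k) (a k ω + b k ω))
    have h5 : (D k).sp.pb (fun w => NrM (e * (S.F k).n) (a k w.1) (b k w.1) (a k w.2) (b k w.2)) ≤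
        (D k).sp.pb (fun w => Nr (e * 2 * (S.F k).n) (csum (Φ.cp k) (a k w.1) (b k w.1))
          (csum (Φ.cp k) (a k w.2) (b k w.2))) + ((D k).sp.pb (fun w => ¬ Cpd (Φ.cp k) (a k w.1 + b k w.1)) +
          (D k).sp.pb (fun w => ¬ Cpd (Φ.cp k) (a k w.2 + b k w.2))) := by
      refine le_trans (FSp.pb_mono _ ?_) ((pb_or _ _ _).trans (add_le_add le_rfl (pb_or _ _ _)))
      intro w hw hN
      by_cases c1 : Cpd (Φ.cp k) (a k w.1 + b k w.1)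
      · by_cases c2 : Cpd (Φ.cp k) (a k w.2 + b k w.2)
        · left
          unfold csum
          rw [if_pos c1, if_pos c2]
          obtain ⟨n1, n2, n3, n4⟩ := hN
          have s1 := h3 _ ((D k).p1.supp w hw)
          have s2 := h3 _ ((D k).p2.supp w hw)
          have e1 : (2 : ℝ) * 2 ^ (e * (S.F k).n) ≤ 2 ^ (e * 2 * (S.F k).n) := by
            rw [mul_comm, ← Real.rpow_add_one (by norm_num)]
            apply Real.rpow_le_rpow_of_exponent_le (by norm_num)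
            linarith
          have key : ∀ {a1 b1 a2 b2 : Matrix ι ι ℝ}, Psd a2 → Psd b2 →
              (∀ v, qf a1 v ≤ 2 ^ (e * (S.F k).n) * qf a2 v) →
              (∀ v, qf b1 v ≤ 2 ^ (e * (S.F k).n) * (qf a2 v + qf b2 v)) →
              ∀ v, qf (a1 + b1) v ≤ 2 ^ (e * 2 * (S.F k).n) * qf (a2 + b2) v := by
            intro a1 b1 a2 b2 ha2 hb2 u1 u2 v
            rw [qf_add, qf_add]
            have x1 := ha2.2 v
            have x2 := hb2.2 v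
            have x3 : (2 : ℝ) * 2 ^ (e * (S.F k).n) * (qf a2 v + qf b2 v) ≤
                2 ^ (e * 2 * (S.F k).n) * (qf a2 v + qf b2 v) := mul_le_mul_of_nonneg_right e1 (by linarith)
            have x4 : 0 ≤ (2 : ℝ) ^ (e * (S.F k).n) * qf b2 v := by positivity
            have := u1 v
            have := u2 v
            linarith
          exact ⟨key s2.1.psd s2.2 n1 n3, key s1.1.psd s1.2 n2 n4⟩
        · exact Or.inr (Or.inr c2)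
      · exact Or.inr (Or.inl c1)
    have h6 : (D k).sp.pb (fun w => ¬ Cpd (Φ.cp k) (a k w.1 + b k w.1)) = (l k).T.pb
        (fun ω => ¬ Cpd (Φ.cp k) (a k ω + b k ω)) := p1
    have h7 : (D k).sp.pb (fun w => ¬ Cpd (Φ.cp k) (a k w.2 + b k w.2)) = (l k).T.pb
        (fun ω => ¬ Cpd (Φ.cp k) (a k ω + b k ω)) := p2
    rw [h6, h7] at h5
    linarith
  obtain ⟨E, M, c, hag⟩ := h Φ hφ hl hA hA2 LB hLB hLl DA DB hD hYA hYB (fun k ω => csum (Φ.cp k) (a k ω) (b k ω))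
    (by filter_upwards [hab] with k hk ω hω using csum_Cpd (hk ω hω).1) (by
      intro η hη
      have hη4 : 0 < η / 4 := by linarith
      have hnk : ∀ᶠ k in UF, (4 / η : ℝ) ≤ (S.F k).n := S.lim.eventually (eventually_ge_atTop _)
      filter_upwards [ha _ hη4, hb _ hη4, hab, hnk] with k h1 h2 h3 hnk
      have hn := (S.F k).pos
      refine le_trans (le_trans (FSp.pb_mono _ (E' := fun ω =>
        (¬ Φ.φ k ((l k).p.π ω) (a k ω) ≤ 2 ^ (η / 4 * (S.F k).n)) ∨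
        (¬ Φ.φ k ((l k).p.π ω) (b k ω) ≤ 2 ^ (η / 4 * (S.F k).n))) ?_) (pb_or _ _ _)) (by linarith)
      intro ω h0 h4
      by_contra hc
      push Not at hc
      apply h4
      have e1 : (2 : ℝ) ^ (η / 4 * (S.F k).n) * 2 ≤ 2 ^ (η * (S.F k).n) := by
        rw [← Real.rpow_add_one (by norm_num)]
        apply Real.rpow_le_rpow_of_exponent_le (by norm_num)
        have : 1 ≤ η / 4 * (S.F k).n := by
          rw [div_le_iff₀ hη] at hnk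
          linarith
        nlinarith
      have hpos : (0 : ℝ) < 2 ^ (η / 4 * (S.F k).n) := by positivity
      unfold csum
      split_ifs
      · rw [Φ.add]
        linarith [hc.1, hc.2]
      · linarith [hc.1])
    (e * 2) (by linarith) (p := p - 2 * ε) (q := q - 2 * ε) (by rw [hε]; linarith) (hnear DA p hp) (hnear DB q hq)
  refine ⟨p - 2 * ε + (q - 2 * ε) - 1, by rw [hε]; linarith, E, M, c, ?_⟩
  have e2 : Cc * 2 * e = Cc * (e * 2) := by ring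
  rw [e2]
  exact hag

/-- the same with the lower bound of a monotone functional of `a + b` -/
theorem lab_modGL (ι : Type) [Fintype ι] [DecidableEq ι] : ∃ Cc : ℝ, 0 ≤ Cc ∧ ∀ {S : Sp} (Φ : Gau S ι) (_ : MonG Φ.φ)
    {A B : Part S} {l : Lab S} (_ : l.IsMax A B) (_ : A.Bd)
    (_ : ∀ E : ∀ k, (l.sp.F k).Ω → Prop, (A.im l.pj E).Bd)
    (LB : ∀ k, Setoid (l k).T.Ω) (_ : ∀ k, LB k ≤ (l k).V) (_ : Nul S (fun k => ((l k).wV (LB k)).leak (B k)))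
    (DA DB : ∀ k, FAm (l k).T (l k).T) (_ : ∀ k, (DA k).f = (DA k).g)
    (_ : ∀ k, (fc (Setoid.ker (DA k).f) : FL (l k).T) ≤ (l k).v ⊔ (l k).p.map (A k))
    (_ : ∀ k, (fc (Setoid.ker (DB k).f) : FL (l k).T) ≤ fc (LB k) ⊔ (l k).p.map (B k))
    (a b : ∀ k, (l k).T.Ω → Matrix ι ι ℝ)
    (_ : ∀ᶠ k in UF, ∀ ω, (l k).T.μ ω ≠ 0 → Cpd (Φ.cp k) (a k ω) ∧ Psd (b k ω))
    (_ : ∀ η : ℝ, 0 < η → ∀ᶠ k in UF, (l k).T.pb (fun ω => ¬ Φ.φ k ((l k).p.π ω) (a k ω) ≤ 2 ^ (η * (S.F k).n)) ≤ η)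
    (_ : ∀ η : ℝ, 0 < η → ∀ᶠ k in UF, (l k).T.pb (fun ω => ¬ Φ.φ k ((l k).p.π ω) (b k ω) ≤ 2 ^ (η * (S.F k).n)) ≤ η)
    (e : ℝ) (_ : 0 < e) {p q : ℝ} (_ : 1 < p + q)
    (_ : ∀ᶠ k in UF, p ≤ (DA k).sp.pb (fun w => NrM (e * (S.F k).n) (a k w.1) (b k w.1) (a k w.2) (b k w.2)))
    (_ : ∀ᶠ k in UF, q ≤ (DB k).sp.pb (fun w => NrM (e * (S.F k).n) (a k w.1) (b k w.1) (a k w.2) (b k w.2))),
    ∃ (p0 : ℝ) (E : ∀ k, (l.sp.F k).Ω → Prop), 0 < p0 ∧ p0 ≤ ul (l.sp.pr E) ∧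
      ∃ y : ∀ k, FD ((Sp.im l.pj E).F k) ι, (Φ.im l.pj E).Ad (A.im l.pj E) (B.im l.pj E) y ∧
      ∀ (G : ∀ k, (S.F k).Ω → Matrix ι ι ℝ → ℝ), MonG G → ∀ σ : ℝ,
        (∀ e' : ℝ, 0 < e' → Tendsto (fun k => (l k).T.pb (fun ω =>
          ¬ 2 ^ ((σ - e') * (S.F k).n) ≤ G k ((l k).p.π ω) (a k ω + b k ω))) UF (𝓝 0)) →
        ∀ e' : ℝ, 0 < e' → Tendsto (fun k => (y k).l.T.pb (fun ω =>
          ¬ 2 ^ ((σ - Cc * e - e') * (S.F k).n) ≤ G k ((y k).l.p.π ω) ((y k).g ω))) UF (𝓝 0) := by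
  classical
  obtain ⟨Cc, hCc, h⟩ := lab_modL ι
  refine ⟨Cc, hCc, ?_⟩
  intro S Φ hφ A B l hl hA hA2 LB hLB hLl DA DB hD hYA hYB a b hab ha hb e he p q hpq hp hq
  obtain ⟨p0, hp0, E, M, c, hag⟩ := h Φ hφ hl hA hA2 LB hLB hLl DA DB hD hYA hYB a b hab ha hb e he hpq hp hq
  refine ⟨p0, E, hp0, hag.pr, _, hag.ad2, fun G hG σ hσ e' he' => ?_⟩
  apply hag.low G hG σ e'
  have htyp : Tendsto (fun k => (l k).T.pb (fun ω => ¬ Cpd (Φ.cp k) (a k ω + b k ω))) UF (𝓝 0) := by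
    rw [Metric.tendsto_nhds]
    intro ε hε
    have hε2 : 0 < ε / 2 := by linarith
    filter_upwards [Φ.csum_typ (T := fun k => (l k).T) (π := fun k => (l k).p.π) (fun k ω h => (l k).p.supp ω h)
      hab ha hb hε2] with k hk
    rw [Real.dist_eq, sub_zero, abs_of_nonneg ((l k).T.pb_nonneg _)]
    linarith
  have h1 := (hσ e' he').add htyp
  rw [add_zero] at h1
  refine tendsto_of_tendsto_of_tendsto_of_le_of_le tendsto_const_nhds h1 (fun k => (l k).T.pb_nonneg _) (fun k => ?_)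
  refine le_trans (FSp.pb_mono _ (E' := fun ω => (¬ 2 ^ ((σ - e') * (S.F k).n) ≤
    G k ((l k).p.π ω) (a k ω + b k ω)) ∨ ¬ Cpd (Φ.cp k) (a k ω + b k ω)) ?_) (pb_or _ _ _)
  intro ω _ h2
  by_cases h3 : Cpd (Φ.cp k) (a k ω + b k ω)
  · left
    intro h4
    apply h2
    show _ ≤ G k ((l k).p.π ω) (csum (Φ.cp k) (a k ω) (b k ω))
    unfold csum
    rw [if_pos h3]
    exact h4
  · exact Or.inr h3

end

end Pool.Agent.Helper89.LX
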