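import Pool.Agent.Helper89.MG.Rnd
import Pool.Agent.Helper89.LX.Njc
import Pool.Agent.Helper49.MT.Agr

/-! AGREEMENT OF FORMS over a family of conditions: forms on the space of a maximal label which agree for copies given
every condition give an exact label on an event which carries a form of the same size. -/

set_option autoImplicit false

namespace Pool.Agent.Helper89.LX

open Finset Filter Topology Matrix Pool.Agent.Helper69.RK Pool.Agent.Helper31.EC Pool.Agent.Helper40.EL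
open Pool.Agent.Helper95.LF (PdM NearM round_mat values_card)

noncomputable section

variable {ι : Type} [Fintype ι] [DecidableEq ι] {κ : Type} [Finite κ] {S : Sp} (Φ : Gau S ι)

section av

variable {l : Lab S} {E : ∀ k, (l.sp.F k).Ω → Prop} {p0 : ℝ} (hp0 : 0 < p0) (hE : ∀ᶠ k in UF, p0 ≤ (l k).T.pb (E k))
  {g M : ∀ k, (l k).T.Ω → Matrix ι ι ℝ} {c : ℕ → ℝ}
  (hpt : ∀ᶠ k in UF, ∀ ω, (l k).T.μ ω ≠ 0 → E k ω →
    (∀ v, qf (c k • M k ω) v ≤ 1 * qf (g k ω) v) ∧ Cpd (Φ.cp k) (1 + c k • M k ω))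

include hp0 hE hpt

/-- the forms of the restricted label -/
theorem Gau.av_eq : ∀ᶠ k in UF, ∀ ω, ((l k).T.rest (E k)).μ ω ≠ 0 → ((l k).T.μ ω ≠ 0 ∧ E k ω) ∧
    (avFD (l k) (E k) (c k) (Φ.cp k) (M k)).g ω = 1 + c k • M k ω ∧
    (avFD (l k) (E k) (c k) (Φ.cp k) (M k)).g' ω = 1 + c k • M k ω := by
  classical
  filter_upwards [hpt, hE] with k h1 h2 ω hω
  have h0 : (l k).T.pb (E k) ≠ 0 := (hp0.trans_le h2).ne'
  have h3 := (l k).T.rest_supp (E k) ω hω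
  have h4 := h3.2 h0
  have h5 := (h1 ω h3.1 h4).2
  refine ⟨⟨h3.1, h4⟩, ?_, ?_⟩
  · show (if Cpd (Φ.cp k) (1 + c k • M k ω) then 1 + c k • M k ω else 1) = _
    rw [if_pos h5]
  · show (if Cpd (Φ.cp k) (1 + c k • M k ω) then 1 + c k • M k ω else 1) = _
    rw [if_pos h5]

/-- the restricted label with the averaged form is admissible -/
theorem Gau.av_Adf {A : κ → Part S} (hφ : MonG Φ.φ)
    (hg : ∀ η : ℝ, 0 < η → ∀ᶠ k in UF,
      (l k).T.pb (fun ω => ¬ Φ.φ k ((l k).p.π ω) (g k ω) ≤ 2 ^ (η * (S.F k).n)) ≤ η)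
    (hD : ((l.im E).addW fun k => Setoid.ker (M k)).DMf (fun i => (A i).im l.pj E)) :
    (Φ.im l.pj E).Adf (fun i => (A i).im l.pj E) (fun k => avFD (l k) (E k) (c k) (Φ.cp k) (M k)) := by
  refine (Gau.Adf_iff_fm (S := Sp.im l.pj E) (Φ.im l.pj E)).mpr ⟨hD, fun η hη => ?_⟩
  obtain ⟨K, hK, hK1⟩ := Φ.one
  have hη2 : 0 < η / 2 := by linarith
  have hη8 : 0 < min (η / 2) (η * p0 / 2) := lt_min hη2 (by positivity)
  filter_upwards [hg _ hη8, Φ.av_eq hp0 hE hpt, hpt, hK1, hK.eventually_le hη2, hE] with k h1 h4 h5 h6 h7 h8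
  have hn := (S.F k).pos
  have hphi : ∀ ω, ((l k).T.rest (E k)).μ ω ≠ 0 →
      Φ.φ k ((l k).p.π ω) (g k ω) ≤ 2 ^ (min (η / 2) (η * p0 / 2) * (S.F k).n) →
      Φ.φ k ((l k).p.π ω) (1 + c k • M k ω) ≤ 2 ^ (η * (S.F k).n) := by
    intro ω hω hb
    obtain ⟨⟨a1, a2⟩, a3, a4⟩ := h4 ω hω
    have a5 := (h5 ω a1 a2).1
    have a6 := hφ k ((l k).p.π ω) _ _ 1 zero_le_one a5
    have a7 := h6 ((l k).p.π ω) ((l k).p.supp ω a1)
    rw [Φ.add]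
    have a8 : (2 : ℝ) ^ (min (η / 2) (η * p0 / 2) * (S.F k).n) ≤ 2 ^ (η / 2 * (S.F k).n) := by
      apply Real.rpow_le_rpow_of_exponent_le (by norm_num)
      exact mul_le_mul_of_nonneg_right (min_le_left _ _) hn.le
    have a9 : (2 : ℝ) ^ (η * (S.F k).n) = 2 ^ (η / 2 * (S.F k).n) * 2 ^ (η / 2 * (S.F k).n) := by
      rw [← Real.rpow_add (by norm_num)]; congr 1; ring
    have a10 : (0 : ℝ) ≤ K k := by
      have := Φ.nn k ((l k).p.π ω) 1 ⟨Matrix.isSymm_one, fun x => by rw [qf_one']; exact dot_self_nonneg x⟩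
      linarith
    rw [a9]
    nlinarith
  have hprob : ((l k).T.rest (E k)).pb (fun ω => ¬ Φ.φ k ((l k).p.π ω) (1 + c k • M k ω) ≤ 2 ^ (η * (S.F k).n)) ≤
      η := by
    have b1 : ((l k).T.rest (E k)).pb (fun ω => ¬ Φ.φ k ((l k).p.π ω) (1 + c k • M k ω) ≤ 2 ^ (η * (S.F k).n)) ≤
        ((l k).T.rest (E k)).pb (fun ω => ¬ Φ.φ k ((l k).p.π ω) (g k ω) ≤
          2 ^ (min (η / 2) (η * p0 / 2) * (S.F k).n)) := by
      apply FSp.pb_mono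
      intro ω hω hb hb'
      exact hb (hphi ω hω hb')
    have b2 := pb_rest_le (l k).T (E k) (fun ω => ¬ Φ.φ k ((l k).p.π ω) (g k ω) ≤
          2 ^ (min (η / 2) (η * p0 / 2) * (S.F k).n)) p0 hp0 h8
    have b4 : min (η / 2) (η * p0 / 2) ≤ η * p0 / 2 := min_le_right _ _
    refine (b1.trans b2).trans ?_
    rw [div_le_iff₀ hp0]
    have b5 := h1.trans b4
    have b6 : 0 < η * p0 := by positivity
    linarith
  refine ⟨fun ω hω => ?_, ?_, ?_⟩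
  · obtain ⟨⟨a1, a2⟩, a3, a4⟩ := h4 ω hω
    rw [a3, a4]
    exact ⟨(h5 ω a1 a2).2, (h5 ω a1 a2).2⟩
  · refine le_trans (FSp.pb_mono _ ?_) hprob
    intro ω hω hb
    have a3 := (h4 ω hω).2.1
    rw [a3] at hb
    exact hb
  · refine le_trans (FSp.pb_mono _ ?_) hprob
    intro ω hω hb
    have a3 := (h4 ω hω).2.2
    rw [a3] at hb
    exact hb

/-- lower bounds of monotone functionals on the restricted label -/
theorem Gau.av_lower {G : ∀ k, (S.F k).Ω → Matrix ι ι ℝ → ℝ} (hG : MonG G) {lam σ : ℝ}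
    (hlow : ∀ᶠ k in UF, ∀ ω, (l k).T.μ ω ≠ 0 → E k ω →
      ∀ v, qf (g k ω) v ≤ 2 ^ (lam * (S.F k).n) * qf (1 + c k • M k ω) v) {e' : ℝ}
    (hσ : Tendsto (fun k => (l k).T.pb (fun ω =>
      ¬ 2 ^ ((σ - e') * (S.F k).n) ≤ G k ((l k).p.π ω) (g k ω))) UF (𝓝 0)) :
    Tendsto (fun k => (avFD (l k) (E k) (c k) (Φ.cp k) (M k)).l.T.pb (fun ω => ¬ 2 ^ ((σ - lam - e') * (S.F k).n) ≤
      G k ((avFD (l k) (E k) (c k) (Φ.cp k) (M k)).l.p.π ω) ((avFD (l k) (E k) (c k) (Φ.cp k) (M k)).g ω)))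
      UF (𝓝 0) := by
  have h1 := hσ.const_mul (1 / p0)
  rw [mul_zero] at h1
  refine tendsto_of_tendsto_of_tendsto_of_le_of_le' tendsto_const_nhds h1
    (Eventually.of_forall fun k => FSp.pb_nonneg _ _) ?_
  filter_upwards [Φ.av_eq hp0 hE hpt, hlow, hE] with k h4 h5 h8
  have b2 := pb_rest_le (l k).T (E k) (fun ω => ¬ 2 ^ ((σ - e') * (S.F k).n) ≤
    G k ((l k).p.π ω) (g k ω)) p0 hp0 h8
  have b3 : ((l k).T.rest (E k)).pb (fun ω => ¬ 2 ^ ((σ - e') * (S.F k).n) ≤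
    G k ((l k).p.π ω) (g k ω)) ≤ 1 / p0 * (l k).T.pb (fun ω => ¬ 2 ^ ((σ - e') * (S.F k).n) ≤
    G k ((l k).p.π ω) (g k ω)) := by
    refine b2.trans (le_of_eq ?_)
    ring
  refine le_trans (FSp.pb_mono _ ?_) b3
  intro ω hω hb hb'
  obtain ⟨⟨a1, a2⟩, a3, a4⟩ := h4 ω hω
  rw [a3] at hb
  apply hb
  have a5 := hG k ((l k).p.π ω) _ _ _ (by positivity) (h5 ω a1 a2)
  have a8 := hb'.trans a5
  have a9 : (2 : ℝ) ^ ((σ - e') * (S.F k).n) = 2 ^ (lam * (S.F k).n) *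
      2 ^ ((σ - lam - e') * (S.F k).n) := by
    rw [← Real.rpow_add (by norm_num)]; congr 1; ring
  rw [a9] at a8
  exact le_of_mul_le_mul_left a8 (by positivity)

end av

/-- the conclusions of the agreement theorems: on an event `E` of the space of the label `l` the form `1 + c M` is
comparable to `g` up to `2^(λ n)`, it is known to a maximal label of the restricted family, and it is admissible -/
structure AgOut (A : κ → Part S) (l : Lab S) (g : ∀ k, (l k).T.Ω → Matrix ι ι ℝ)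
    (p0 lam : ℝ) (E : ∀ k, (l.sp.F k).Ω → Prop) (M : ∀ k, (l k).T.Ω → Matrix ι ι ℝ) (c : ℕ → ℝ) : Prop where
  pr : p0 ≤ ul (l.sp.pr E)
  ad : (Φ.im l.pj E).Adf (fun i => (A i).im l.pj E) (fun k => avFD (l k) (E k) (c k) (Φ.cp k) (M k))
  mx : ((l.im E).addW fun k => Setoid.ker (M k)).IsMaxf (fun i => (A i).im l.pj E)
  le : ∀ᶠ k in UF, ∀ ω, (l k).T.μ ω ≠ 0 → E k ω → ∀ v, qf (1 + c k • M k ω) v ≤ 2 * qf (g k ω) v
  ge : ∀ᶠ k in UF, ∀ ω, (l k).T.μ ω ≠ 0 → E k ω → ∀ v, qf (g k ω) v ≤ 2 ^ (lam * (S.F k).n) * qf (1 + c k • M k ω) v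
  eq : ∀ᶠ k in UF, ∀ ω, ((l k).T.rest (E k)).μ ω ≠ 0 → ((l k).T.μ ω ≠ 0 ∧ E k ω) ∧
    (avFD (l k) (E k) (c k) (Φ.cp k) (M k)).g ω = 1 + c k • M k ω ∧
    (avFD (l k) (E k) (c k) (Φ.cp k) (M k)).g' ω = 1 + c k • M k ω
  low : ∀ (G : ∀ k, (S.F k).Ω → Matrix ι ι ℝ → ℝ), MonG G → ∀ σ e' : ℝ,
    Tendsto (fun k => (l k).T.pb (fun ω => ¬ 2 ^ ((σ - e') * (S.F k).n) ≤ G k ((l k).p.π ω) (g k ω))) UF (𝓝 0) →
    Tendsto (fun k => (avFD (l k) (E k) (c k) (Φ.cp k) (M k)).l.T.pb (fun ω => ¬ 2 ^ ((σ - lam - e') * (S.F k).n) ≤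
      G k ((avFD (l k) (E k) (c k) (Φ.cp k) (M k)).l.p.π ω) ((avFD (l k) (E k) (c k) (Φ.cp k) (M k)).g ω)))
      UF (𝓝 0)

/-- assembly of the conclusions -/
theorem AgOut.mk' {A : κ → Part S} (hφ : MonG Φ.φ) {l : Lab S}
    {g ub M : ∀ k, (l k).T.Ω → Matrix ι ι ℝ} {E : ∀ k, (l.sp.F k).Ω → Prop} {p0 e C B : ℝ} (hp0 : 0 < p0)
    (hE : p0 ≤ ul (l.sp.pr E)) (he : 0 < e) (L1 L2 : ℕ → ℝ) (hL1a : ∀ k, 1 ≤ L1 k)
    (hL1b : ∀ k, L1 k = max 1 (e * (S.F k).n * Real.log 2)) (hL2 : ∀ k, L2 k = B * L1 k)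
    (hcpd : ∀ᶠ k in UF, ∀ ω, (l k).T.μ ω ≠ 0 → Cpd (Φ.cp k) (g k ω))
    (hub : ∀ᶠ k in UF, ∀ ω, (l k).T.μ ω ≠ 0 → PdM (ub k ω) ∧ (∀ x, qf (ub k ω) x ≤ Φ.cp k * (x ⬝ᵥ x)))
    (hR : ∀ k ω, E k ω → Nr (e * (S.F k).n) (g k ω) (ub k ω))
    (hM : ∀ k ω, PdM (ub k ω) → PdM (M k ω) ∧ NearM (C * L2 k) (ub k ω) (M k ω))
    (hg : ∀ η : ℝ, 0 < η → ∀ᶠ k in UF,
      (l k).T.pb (fun ω => ¬ Φ.φ k ((l k).p.π ω) (g k ω) ≤ 2 ^ (η * (S.F k).n)) ≤ η)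
    (hmax : ((l.im E).addW fun k => Setoid.ker (M k)).IsMaxf (fun i => (A i).im l.pj E)) :
    AgOut Φ A l g p0 (2 * (1 + C * B) * e) E M (fun k => Real.exp (-(C * L2 k + L1 k))) := by
  have hcp2 : ∀ᶠ k in UF, 2 ≤ Φ.cp k := by
    filter_upwards [S.lim.eventually (eventually_ge_atTop 1)] with k hk
    unfold Gau.cp
    have h1 : (1 : ℝ) ≤ (Φ.C + 1) * (S.F k).n := by
      have := Φ.C0
      nlinarith
    calc (2 : ℝ) = 2 ^ (1 : ℝ) := (Real.rpow_one 2).symm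
      _ ≤ _ := Real.rpow_le_rpow_of_exponent_le (by norm_num) h1
  have hpt3 : ∀ᶠ k in UF, ∀ ω, (l k).T.μ ω ≠ 0 → E k ω →
      (∀ v, qf (Real.exp (-(C * L2 k + L1 k)) • M k ω) v ≤ 1 * qf (g k ω) v) ∧
      Cpd (Φ.cp k) (1 + Real.exp (-(C * L2 k + L1 k)) • M k ω) ∧
      ∀ v, qf (g k ω) v ≤ Real.exp (2 * (L1 k + C * L2 k)) *
        qf (1 + Real.exp (-(C * L2 k + L1 k)) • M k ω) v := by
    filter_upwards [hcpd, hcp2, hub] with k h1 h2 h3 ω hω hEω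
    obtain ⟨h4, h5⟩ := h3 ω hω
    have h9 := hM k ω h4
    exact av_facts (hL1a k) (by rw [hL1b]; exact le_max_right _ _) (h1 ω hω).pdM h4 h5 (hR k ω hEω) h9.1 h9.2 h2
  have hpt : ∀ᶠ k in UF, ∀ ω, (l k).T.μ ω ≠ 0 → E k ω →
      (∀ v, qf (Real.exp (-(C * L2 k + L1 k)) • M k ω) v ≤ 1 * qf (g k ω) v) ∧
      Cpd (Φ.cp k) (1 + Real.exp (-(C * L2 k + L1 k)) • M k ω) := by
    filter_upwards [hpt3] with k h1 ω hω hEω
    exact ⟨(h1 ω hω hEω).1, (h1 ω hω hEω).2.1⟩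
  have hp2 : 0 < p0 / 2 := by linarith
  have hE2 : ∀ᶠ k in UF, p0 / 2 ≤ (l k).T.pb (E k) := by
    have h1 := eventually_gt_of_lt_ul (Sp.UB_pr E) (show p0 / 2 < ul (l.sp.pr E) by linarith)
    filter_upwards [h1] with k hk using hk.le
  have hlarge : ∀ᶠ k in UF, 1 ≤ e * (S.F k).n * Real.log 2 := by
    have h2 : 0 < e * Real.log 2 := mul_pos he (Real.log_pos (by norm_num))
    filter_upwards [S.lim.eventually (eventually_ge_atTop (1 / (e * Real.log 2)))] with k hk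
    rw [div_le_iff₀ h2] at hk
    linarith
  have hge : ∀ᶠ k in UF, ∀ ω, (l k).T.μ ω ≠ 0 → E k ω → ∀ v, qf (g k ω) v ≤
      2 ^ (2 * (1 + C * B) * e * (S.F k).n) * qf (1 + Real.exp (-(C * L2 k + L1 k)) • M k ω) v := by
    filter_upwards [hpt3, hlarge] with k h1 hlg ω hω hEω v
    have a5 := (h1 ω hω hEω).2.2 v
    have a6 : L1 k = e * (S.F k).n * Real.log 2 := by
      rw [hL1b]
      exact max_eq_right hlg
    have a7 : 2 * (L1 k + C * L2 k) = (2 * (1 + C * B) * e * (S.F k).n) * Real.log 2 := by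
      rw [hL2, a6]; ring
    rw [a7, ← two_rpow_exp] at a5
    exact a5
  refine ⟨hE, Φ.av_Adf hp2 hE2 hpt hφ hg hmax.1, hmax, ?_, hge, Φ.av_eq hp2 hE2 hpt,
    fun G hG σ e' hσ => Φ.av_lower hp2 hE2 hpt hG hge hσ⟩
  filter_upwards [hpt, hcpd] with k h1 h2 ω hω hEω v
  have a1 := (h1 ω hω hEω).1 v
  have a2 := (h2 ω hω).2.1 v
  rw [qf_add, qf_one']
  linarith

/-- AGREEMENT PRINCIPLE FOR FORMS, finite families: copies given each condition have close forms, with total failure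
probability below one -/
theorem agf2 (ι : Type) [Fintype ι] [DecidableEq ι] : ∃ Cc : ℝ, 0 ≤ Cc ∧ ∀ {S : Sp} (Φ : Gau S ι) (_ : MonG Φ.φ)
    {κ : Type} [Fintype κ] {A : κ → Part S} {l : Lab S} (_ : l.IsMaxf A) {i₁ : κ} (_ : (A i₁).Bd)
    (_ : ∀ E : ∀ k, (l.sp.F k).Ω → Prop, ((A i₁).im l.pj E).Bd) (i₀ : κ)
    (D : κ → ∀ k, FAm (l k).T (l k).T) (_ : ∀ k, (D i₀ k).f = (D i₀ k).g)
    (_ : ∀ i k, (fc (Setoid.ker (D i k).f) : FL (l k).T) ≤ (l k).v ⊔ (l k).p.map (A i k))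
    (g : ∀ k, (l k).T.Ω → Matrix ι ι ℝ) (_ : ∀ᶠ k in UF, ∀ ω, (l k).T.μ ω ≠ 0 → Cpd (Φ.cp k) (g k ω))
    (_ : ∀ η : ℝ, 0 < η → ∀ᶠ k in UF,
      (l k).T.pb (fun ω => ¬ Φ.φ k ((l k).p.π ω) (g k ω) ≤ 2 ^ (η * (S.F k).n)) ≤ η)
    (e : ℝ) (_ : 0 < e) {p : κ → ℝ} (_ : 0 < 1 - ∑ i, (1 - p i))
    (_ : ∀ i, ∀ᶠ k in UF, p i ≤ (D i k).sp.pb (fun w => Nr (e * (S.F k).n) (g k w.1) (g k w.2))),
    ∃ E M c, AgOut Φ A l g (1 - ∑ i, (1 - p i)) (Cc * e) E M c := by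
  classical
  obtain ⟨C, N, hC, hN, hround⟩ := exists_round ι
  refine ⟨2 * (1 + C * 2), by positivity, ?_⟩
  intro S Φ hφ κ _ A l hl i₁ hA hA₂ i₀ D hD hY g hcpd hg e he p hpp hp
  set L1 : ℕ → ℝ := fun k => max 1 (e * (S.F k).n * Real.log 2) with hL1
  set L2 : ℕ → ℝ := fun k => 2 * L1 k with hL2
  have hL1a : ∀ k, 1 ≤ L1 k := fun k => le_max_left _ _
  have hL1b : ∀ k, e * (S.F k).n * Real.log 2 ≤ L1 k := fun k => le_max_right _ _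
  have hL2a : ∀ k, 1 ≤ L2 k := fun k => by
    have := hL1a k
    show 1 ≤ 2 * L1 k
    linarith
  choose Q hQa hQb using fun k => hround (L2 k) (hL2a k)
  have henum : ∀ k (z : Matrix ι ι ℝ), ∃ f : Fin N → Matrix ι ι ℝ, PdM z →
      ∀ A', PdM A' → NearM (L2 k) z A' → ∃ i, Q k A' = f i := by
    intro k z
    by_cases hp : PdM z
    · obtain ⟨Z, hZ, hZ'⟩ := hQb k _ hp
      obtain ⟨f, hf⟩ := enum_fin Z N hZ
      exact ⟨f, fun _ A' h1 h2 => hf _ (hZ' A' h1 h2)⟩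
    · exact ⟨fun _ => 1, fun h => absurd h hp⟩
  choose en hen using henum
  obtain ⟨E, ub, hpE, hR, -, hub', -, hmax⟩ := Lab.IsMaxf.agree2 (l := l) hl hA hA₂ i₀ D hD hY
    (fun _ => Matrix ι ι ℝ) (fun _ => Matrix ι ι ℝ) g
    (fun _ k a b => PdM a ∧ PdM b ∧ Nr (e * (S.F k).n) a b) (fun k => Q k) N (fun k => en k)
    (fun _ k x y z hxy hxz => by
      obtain ⟨h1, h2, h3⟩ := hxy
      obtain ⟨-, h4, h5⟩ := hxz
      refine hen k z h4 y h2 ?_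
      have h6 : NearM (L1 k) z x := Nr.near ⟨h4.1, fun x => h4.nonneg x⟩ ⟨h1.1, fun x => h1.nonneg x⟩ h5.symm (hL1b k)
      have h7 : NearM (L1 k) x y := Nr.near ⟨h1.1, fun x => h1.nonneg x⟩ ⟨h2.1, fun x => h2.nonneg x⟩ h3 (hL1b k)
      have h8 := nearM_trans h6 h7
      have h9 : L1 k + L1 k = L2 k := by rw [hL2]; ring
      rwa [h9] at h8) hpp (fun i => by
      filter_upwards [hp i, hcpd] with k hk hc
      refine hk.trans (FSp.pb_mono _ ?_)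
      intro w hw hN
      have h1 := (D i k).p1.supp w hw
      have h2 := (D i k).p2.supp w hw
      exact ⟨(hc _ h1).pdM, (hc _ h2).pdM, hN⟩)
  refine ⟨E, fun k ω => Q k (ub k ω), _, AgOut.mk' Φ hφ hpp hpE he L1 L2 hL1a (fun _ => rfl) (fun _ => rfl) hcpd ?_
    (fun k ω hω => (hR k ω hω).2.2) (fun k ω h => hQa k _ h) hg hmax⟩
  filter_upwards [hcpd] with k hk ω hω
  obtain ⟨ω', h6, -, h7⟩ := hub' k ω hω
  rw [h7]
  exact ⟨(hk ω' h6).pdM, (hk ω' h6).2.2⟩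

/-- AGREEMENT OF FORMS, one condition: copies given `(A i₀, l)` have close forms with positive probability and the
roundings of the form are functions of `(A i, l)` for all other `i` -/
theorem agf (ι : Type) [Fintype ι] [DecidableEq ι] : ∃ Cc : ℝ, 0 ≤ Cc ∧ ∀ {S : Sp} (Φ : Gau S ι) (_ : MonG Φ.φ)
    {κ : Type} [Finite κ] {A : κ → Part S} {l : Lab S} (_ : l.IsMaxf A) {i₁ : κ} (_ : (A i₁).Bd)
    (_ : ∀ E : ∀ k, (l.sp.F k).Ω → Prop, ((A i₁).im l.pj E).Bd) (i₀ : κ)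
    (D : ∀ k, FAm (l k).T (l k).T) (_ : ∀ k, (D k).f = (D k).g)
    (_ : ∀ k, (fc (Setoid.ker (D k).f) : FL (l k).T) ≤ (l k).v ⊔ (l k).p.map (A i₀ k))
    (g : ∀ k, (l k).T.Ω → Matrix ι ι ℝ) (_ : ∀ᶠ k in UF, ∀ ω, (l k).T.μ ω ≠ 0 → Cpd (Φ.cp k) (g k ω))
    (_ : ∀ η : ℝ, 0 < η → ∀ᶠ k in UF,
      (l k).T.pb (fun ω => ¬ Φ.φ k ((l k).p.π ω) (g k ω) ≤ 2 ^ (η * (S.F k).n)) ≤ η)
    (e : ℝ) (_ : 0 < e)
    (_ : ∀ i, i ≠ i₀ → ∀ (N : ℕ), 1 ≤ N → ∀ L : ℕ → ℝ, (∀ k, 1 ≤ L k) → (∀ k, e * (S.F k).n * Real.log 2 ≤ L k) →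
      ∀ Q : ℕ → Matrix ι ι ℝ → Matrix ι ι ℝ, (∀ k, ∀ A, PdM A → ∃ X : Finset (Matrix ι ι ℝ), X.card ≤ N ∧
        ∀ A', PdM A' → NearM (L k) A A' → Q k A' ∈ X) →
      Nul S (fun k => h (fc (Setoid.ker fun ω => Q k (g k ω)) : FL (l k).T) ((l k).v ⊔ (l k).p.map (A i k))))
    {p0 : ℝ} (_ : 0 < p0) (_ : ∀ᶠ k in UF, p0 ≤ (D k).sp.pb (fun w => Nr (e * (S.F k).n) (g k w.1) (g k w.2))),
    ∃ E M c, AgOut Φ A l g p0 (Cc * e) E M c := by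
  classical
  obtain ⟨C, N, hC, hN, hround⟩ := exists_round ι
  refine ⟨2 * (1 + C * (C + 1)), by positivity, ?_⟩
  intro S Φ hφ κ _ A l hl i₁ hA hA₂ i₀ D hD hY g hcpd hg e he hB p0 hp0 hp
  set L1 : ℕ → ℝ := fun k => max 1 (e * (S.F k).n * Real.log 2) with hL1
  set L2 : ℕ → ℝ := fun k => (C + 1) * L1 k with hL2
  have hL1a : ∀ k, 1 ≤ L1 k := fun k => le_max_left _ _
  have hL1b : ∀ k, e * (S.F k).n * Real.log 2 ≤ L1 k := fun k => le_max_right _ _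
  have hL2a : ∀ k, 1 ≤ L2 k := fun k => by
    have := hL1a k
    show 1 ≤ (C + 1) * L1 k
    nlinarith
  choose Q1 hQ1a hQ1b using fun k => hround (L1 k) (hL1a k)
  choose Q2 hQ2a hQ2b using fun k => hround (L2 k) (hL2a k)
  have henum : ∀ k (z : Matrix ι ι ℝ), ∃ f : Fin N → Matrix ι ι ℝ, PdM z →
      ∀ A', PdM A' → NearM (L2 k) z A' → ∃ i, Q2 k A' = f i := by
    intro k z
    by_cases hp : PdM z
    · obtain ⟨Z, hZ, hZ'⟩ := hQ2b k _ hp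
      obtain ⟨f, hf⟩ := enum_fin Z N hZ
      exact ⟨f, fun _ A' h1 h2 => hf _ (hZ' A' h1 h2)⟩
    · exact ⟨fun _ => 1, fun h => absurd h hp⟩
  choose en hen using henum
  obtain ⟨E, ub, hpE, hR, -, hub', -, hmax⟩ := Lab.IsMaxf.agree (l := l) hl hA hA₂ i₀ D hD hY
    (fun _ => Matrix ι ι ℝ) (fun _ => Matrix ι ι ℝ) (fun _ => Matrix ι ι ℝ) g
    (fun k a b => PdM a ∧ PdM b ∧ Nr (e * (S.F k).n) a b) (fun k => Q1 k) (fun k => Q2 k) N (fun k => en k)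
    (fun k a b hab => by
      obtain ⟨h1, h2, h3⟩ := hab
      have h4 := hQ1a k a h1
      refine hen k (Q1 k a) h4.1 b h2 ?_
      have h5 : NearM (L1 k) a b := Nr.near ⟨h1.1, fun x => h1.nonneg x⟩ ⟨h2.1, fun x => h2.nonneg x⟩ h3 (hL1b k)
      have h6 := nearM_trans (nearM_symm h4.2) h5
      have h7 : C * L1 k + L1 k = L2 k := by rw [hL2]; ring
      rwa [h7] at h6) (fun i hi => hB i hi N hN L1 hL1a hL1b Q1 hQ1b) hp0 (by
      filter_upwards [hp, hcpd] with k hk hc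
      refine hk.trans (FSp.pb_mono _ ?_)
      intro w hw hN
      have h1 := (D k).p1.supp w hw
      have h2 := (D k).p2.supp w hw
      exact ⟨(hc _ h1).pdM, (hc _ h2).pdM, hN⟩)
  refine ⟨E, fun k ω => Q2 k (ub k ω), _, AgOut.mk' Φ hφ hp0 hpE he L1 L2 hL1a (fun _ => rfl) (fun _ => rfl) hcpd ?_
    (fun k ω hω => (hR k ω hω).2.2) (fun k ω h => hQ2a k _ h) hg hmax⟩
  filter_upwards [hcpd] with k hk ω hω
  obtain ⟨ω', h6, -, h7⟩ := hub' k ω hω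
  rw [h7]
  exact ⟨(hk ω' h6).pdM, (hk ω' h6).2.2⟩

end

end Pool.Agent.Helper89.LX
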