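import Pool.Agent.Helper89.LIP.Lab

/-! AGREEMENT with per-condition partitions: the copies for the condition `i` are given `(L i, A i)`, where `L i` is a
partition finer than the maximal label whose leak at `A i` is zero (helper55's AGF2L). -/

set_option autoImplicit false

namespace Pool.Agent.Helper40.EL

open Finset Filter Topology Pool.Agent.Helper69.RK Pool.Agent.Helper31.EC

noncomputable section

namespace FLab

variable {F : FSp} (l : FLab F)

/-- the label with another partition of the same space -/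
def wV (L : Setoid l.T.Ω) : FLab F := ⟨l.T, l.p, l.hn, L⟩

/-- the leak on an event of a partition added to the label -/
theorem addW_im_leak (L W : Setoid l.T.Ω) (hL : L ≤ l.V) (E : l.T.Ω → Prop) (x : FL F) :
    l.T.pb E * (((l.im E).addW W).leak (FSp.imap l.p E x) -
      h (fc W : FL (l.T.rest E)) (l.T.rmap E ((fc L : FL l.T) ⊔ l.p.map x))) ≤ (l.wV L).leak x + 1 := by
  have h1 := ((l.wV L).im E).addW_leak_le W (FSp.imap l.p E x)
  have h2 : ((l.wV L).im E).v ⊔ ((l.wV L).im E).p.map (FSp.imap l.p E x) =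
      l.T.rmap E ((fc L : FL l.T) ⊔ l.p.map x) := by
    have e1 : ((l.wV L).im E).p.map (FSp.imap l.p E x) = l.T.rmap E (l.p.map x) := FSp.imp_imap l.p E x
    rw [e1]
    exact (l.T.rmap_sup E (fc L) (l.p.map x)).symm
  rw [h2] at h1
  have h3 : ((l.im E).addW W).leak (FSp.imap l.p E x) ≤ (((l.wV L).im E).addW W).leak (FSp.imap l.p E x) := by
    apply I_mono_left
    refine le_trans ?_ le_sup_left
    apply fc_mono
    exact inf_le_inf_right W hL
  have h4 := (l.wV L).im_leak E x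
  have h5 : ((l.im E).addW W).leak (FSp.imap l.p E x) -
      h (fc W : FL (l.T.rest E)) (l.T.rmap E ((fc L : FL l.T) ⊔ l.p.map x)) ≤
      ((l.wV L).im E).leak (FSp.imap l.p E x) := sub_le_iff_le_add.mpr (h3.trans h1)
  have h6 : (l.wV L).T.pb E = l.T.pb E := rfl
  rw [h6] at h4
  exact (mul_le_mul_of_nonneg_left h5 (l.T.pb_nonneg E)).trans h4

end FLab

namespace Lab

variable {S : Sp} {ι : Type} {l : Lab S} {A : ι → Part S}

/-- a partition which is a function of `(A i₀, l)` and can be added to the maximal label `l` -/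
theorem IsMaxf.fun_smallD (hl : l.IsMaxf A) {i₀ : ι} (hA : (A i₀).Bd) (W : ∀ k, Setoid (l k).T.Ω)
    (h0 : Nul S (fun k => h (fc (W k) : FL (l k).T) ((l k).v ⊔ (l k).p.map (A i₀ k)))) (hd : (l.addW W).DMf A) :
    Nul S (fun k => h (fc (W k) : FL (l k).T) (l k).v) ∧ (l.addW W).IsMaxf A := by
  have hle := hl.2 _ hd
  have t1 := ul_tendsto (hd.ub hA)
  have t2 := ul_tendsto (hl.1.ub hA)
  have t3 : Tendsto (fun k => ((l.addW W) k).info / (S.F k).n - (l k).info / (S.F k).n +
      h (fc (W k) : FL (l k).T) ((l k).v ⊔ (l k).p.map (A i₀ k)) / (S.F k).n) UF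
      (𝓝 ((l.addW W).info - l.info + 0)) := (t1.sub t2).add h0
  have hb : ∀ k, h (fc (W k) : FL (l k).T) (l k).v / (S.F k).n ≤ ((l.addW W) k).info / (S.F k).n -
      (l k).info / (S.F k).n + h (fc (W k) : FL (l k).T) ((l k).v ⊔ (l k).p.map (A i₀ k)) / (S.F k).n := by
    intro k
    have h3 := (l k).addW_info_ge (W k) (A i₀ k)
    rw [← sub_div, ← add_div]
    apply div_le_div_of_nonneg_right _ (S.F k).pos.le
    have h4 : ((l.addW W) k).info = ((l k).addW (W k)).info := rfl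
    rw [h4]
    linarith
  have h0' : ∀ k, 0 ≤ h (fc (W k) : FL (l k).T) (l k).v / (S.F k).n := fun k =>
    div_nonneg (h_nonneg _ _) (S.F k).pos.le
  have hL : 0 ≤ (l.addW W).info - l.info + 0 :=
    ge_of_tendsto t3 (Eventually.of_forall fun k => (h0' k).trans (hb k))
  have hE : (l.addW W).info = l.info := by linarith
  rw [hE, sub_self, add_zero] at t3
  refine ⟨tendsto_of_tendsto_of_tendsto_of_le_of_le tendsto_const_nhds t3 h0' hb, hd, fun l' hl' => ?_⟩
  rw [hE]
  exact hl.2 l' hl'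

/-- AGREEMENT PRINCIPLE with per-condition partitions -/
theorem IsMaxf.agree2L [Fintype ι] (hl : l.IsMaxf A) (i₀ : ι) (hA : (A i₀).Bd)
    (hA₂ : ∀ E : ∀ k, (l.sp.F k).Ω → Prop, ((A i₀).im l.pj E).Bd)
    (L : ι → ∀ k, Setoid (l k).T.Ω) (hLV : ∀ i k, L i k ≤ (l k).V) (hL₀ : ∀ k, (l k).V ≤ L i₀ k)
    (hLl : ∀ i, Nul S (fun k => ((l k).wV (L i k)).leak (A i k)))
    (D : ι → ∀ k, FAm (l k).T (l k).T) (hD : ∀ k, (D i₀ k).f = (D i₀ k).g)
    (hY : ∀ i k, (fc (Setoid.ker (D i k).f) : FL (l k).T) ≤ fc (L i k) ⊔ (l k).p.map (A i k))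
    (X V : ℕ → Type) (u : ∀ k, (l k).T.Ω → X k) (R : ι → ∀ k, X k → X k → Prop)
    (rd : ∀ k, X k → V k) (N : ℕ) (e : ∀ k, X k → Fin N → V k)
    (he : ∀ i k x y z, R i₀ k x y → R i k x z → ∃ j, rd k y = e k z j)
    {p : ι → ℝ} (hpp : 0 < 1 - ∑ i, (1 - p i))
    (hp : ∀ i, ∀ᶠ k in UF, p i ≤ (D i k).sp.pb (fun w => R i k (u k w.1) (u k w.2))) :
    ∃ (E : ∀ k, (l.sp.F k).Ω → Prop) (ub : ∀ k, (l k).T.Ω → X k), 1 - ∑ i, (1 - p i) ≤ ul (l.sp.pr E) ∧
      (∀ k ω, E k ω → R i₀ k (u k ω) (ub k ω)) ∧ (∀ k ω ω', (D i₀ k).f ω = (D i₀ k).f ω' → ub k ω = ub k ω') ∧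
      (∀ k ω, (l k).T.μ ω ≠ 0 → ∃ ω', (l k).T.μ ω' ≠ 0 ∧ (D i₀ k).f ω' = (D i₀ k).f ω ∧ ub k ω = u k ω') ∧
      Nul S (fun k => h (fc (Setoid.ker fun ω => rd k (ub k ω)) : FL ((l k).T.rest (E k)))
        ((l k).T.rmap (E k) (l k).v)) ∧
      ((l.im E).addW fun k => Setoid.ker fun ω => rd k (ub k ω)).IsMaxf (fun i => (A i).im l.pj E) := by
  classical
  choose c hc1 hc2 using fun i k => (D i k).agree (fun ω ω' => R i k (u k ω) (u k ω'))
  set ub : ∀ k, (l k).T.Ω → X k := fun k ω => u k (c i₀ k ((D i₀ k).f ω)) with hub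
  set E : ∀ k, (l.sp.F k).Ω → Prop := fun k ω => ∀ i ∈ (Finset.univ : Finset ι),
    R i k (u k ω) (u k (c i k ((D i k).f ω))) with hE
  have hge : ∀ᶠ k in UF, 1 - ∑ i, (1 - p i) ≤ (l k).T.pb (E k) := by
    have h0 : ∀ᶠ k in UF, ∀ i, p i ≤ (D i k).sp.pb (fun w => R i k (u k w.1) (u k w.2)) :=
      Filter.eventually_all.mpr hp
    filter_upwards [h0] with k hk
    have h3 := (l k).T.pb_all_ge Finset.univ (fun i ω => R i k (u k ω) (u k (c i k ((D i k).f ω))))
    refine le_trans ?_ h3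
    have h4 : ∑ i, (1 - (l k).T.pb (fun ω => R i k (u k ω) (u k (c i k ((D i k).f ω))))) ≤ ∑ i, (1 - p i) := by
      apply Finset.sum_le_sum
      intro i _
      have := (hk i).trans (hc2 i k)
      linarith
    linarith
  have hpE : 1 - ∑ i, (1 - p i) ≤ ul (l.sp.pr E) := pr_ge_of hge
  have hpos : 0 < ul (l.sp.pr E) := by linarith
  have hev : ∀ᶠ k in UF, (l k).T.pb (E k) ≠ 0 := by
    filter_upwards [hge] with k hk
    have : 0 < (l k).T.pb (E k) := by linarith
    exact this.ne'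
  have hfun' : ∀ i k, (fc (Setoid.ker (fun ω => u k (c i k ((D i k).f ω)))) : FL (l k).T) ≤
      fc (L i k) ⊔ (l k).p.map (A i k) := by
    intro i k
    refine le_trans (fc_mono ?_) (hY i k)
    intro ω ω' h
    have h' : (D i k).f ω = (D i k).f ω' := h
    show u k (c i k ((D i k).f ω)) = u k (c i k ((D i k).f ω'))
    rw [h']
  set W : ∀ k, Setoid (l k).T.Ω := fun k => Setoid.ker fun ω => rd k (ub k ω) with hW
  have hN : ∀ i, ∀ᶠ k in UF, h (fc (W k) : FL ((l k).T.rest (E k)))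
      ((l k).T.rmap (E k) ((fc (L i k) : FL (l k).T) ⊔ (l k).p.map (A i k))) ≤ Real.logb 2 N := by
    intro i
    filter_upwards [hev] with k hk
    have h3 := h_few (F := (l k).T) (E k) (fun ω => rd k (ub k ω)) (fun ω => u k (c i k ((D i k).f ω))) N (e k)
      (fun ω _ hω => he i k _ _ _ (hω i₀ (Finset.mem_univ _)) (hω i (Finset.mem_univ _))) hk
    refine le_trans (h_anti ?_) h3
    exact (l k).T.rmap_mono (E k) (hfun' i k)
  have hm := hl.im_max E hpos hA (hA₂ _)
  -- the partition can be added on the event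
  have hd : ((l.im E).addW W).DMf (fun i => (A i).im l.pj E) := by
    intro i
    have hn : ∀ k, (l.sp.F k).n = (S.F k).n := fun k => (l k).hn
    have h1 : Nul l.sp (fun k => max 0 ((((l.im E) k).addW (W k)).leak (((A i).im l.pj E) k) -
        h (fc (W k) : FL ((l k).T.rest (E k)))
          ((l k).T.rmap (E k) ((fc (L i k) : FL (l k).T) ⊔ (l k).p.map (A i k))))) := by
      have h2 : Nul l.sp (fun k => ((l k).wV (L i k)).leak (A i k)) := (nul_n hn).mpr (hLl i)
      refine Nul.div_pr hpos h2 (fun k => le_max_left _ _) (fun k => ?_)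
      have h3 := (l k).addW_im_leak (L i k) (W k) (hLV i k) (E k) (A i k)
      have h4 : 0 ≤ ((l k).wV (L i k)).leak (A i k) + 1 := by
        have := FLab.leak_nonneg ((l k).wV (L i k)) (A i k)
        linarith
      rcases le_total 0 ((((l.im E) k).addW (W k)).leak (((A i).im l.pj E) k) -
        h (fc (W k) : FL ((l k).T.rest (E k)))
          ((l k).T.rmap (E k) ((fc (L i k) : FL (l k).T) ⊔ (l k).p.map (A i k)))) with h5 | h5
      · rw [max_eq_right h5]
        exact h3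
      · rw [max_eq_left h5, mul_zero]
        exact h4
    have h1' : Nul S (fun k => max 0 ((((l.im E) k).addW (W k)).leak (((A i).im l.pj E) k) -
        h (fc (W k) : FL ((l k).T.rest (E k)))
          ((l k).T.rmap (E k) ((fc (L i k) : FL (l k).T) ⊔ (l k).p.map (A i k))))) := (nul_n hn).mp h1
    have h6 : Nul S (fun k => (((l.im E) k).addW (W k)).leak (((A i).im l.pj E) k)) := by
      refine (h1'.add (Nul.const S (Real.logb 2 N))).of_le (Eventually.of_forall fun k => FLab.leak_nonneg _ _) ?_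
      filter_upwards [hN i] with k hk
      have := le_max_right 0 ((((l.im E) k).addW (W k)).leak (((A i).im l.pj E) k) -
        h (fc (W k) : FL ((l k).T.rest (E k)))
          ((l k).T.rmap (E k) ((fc (L i k) : FL (l k).T) ⊔ (l k).p.map (A i k))))
      linarith
    exact h6
  have e0 : ∀ k, ((l.im E) k).v ⊔ ((l.im E) k).p.map (((A i₀).im l.pj E) k) =
      (l k).T.rmap (E k) ((l k).v ⊔ (l k).p.map (A i₀ k)) := by
    intro k
    have e1 : ((l.im E) k).p.map (((A i₀).im l.pj E) k) = (l k).T.rmap (E k) ((l k).p.map (A i₀ k)) :=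
      FSp.imp_imap (l k).p (E k) (A i₀ k)
    rw [e1]
    exact ((l k).T.rmap_sup (E k) (l k).v ((l k).p.map (A i₀ k))).symm
  have h00 : Nul (Sp.im l.pj E) (fun k => h (fc (W k) : FL ((l.im E) k).T)
      (((l.im E) k).v ⊔ ((l.im E) k).p.map (((A i₀).im l.pj E) k))) := by
    have h1 : Nul S (fun k => h (fc (W k) : FL ((l.im E) k).T)
        (((l.im E) k).v ⊔ ((l.im E) k).p.map (((A i₀).im l.pj E) k))) := by
      refine (Nul.const S (Real.logb 2 N)).of_le (Eventually.of_forall fun k => h_nonneg _ _) ?_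
      filter_upwards [hN i₀] with k hk
      rw [e0]
      refine le_trans (h_anti ?_) hk
      exact (l k).T.rmap_mono (E k) (sup_le_sup_right (fc_mono (hL₀ k)) _)
    exact h1
  obtain ⟨r1, r2⟩ := IsMaxf.fun_smallD hm (i₀ := i₀) (hA.im l.pj hpos) W h00 hd
  refine ⟨E, ub, hpE, fun k ω h => h i₀ (Finset.mem_univ _), fun k ω ω' h => ?_, fun k ω hω => ?_, r1, r2⟩
  · show u k (c i₀ k ((D i₀ k).f ω)) = u k (c i₀ k ((D i₀ k).f ω'))
    rw [h]
  · refine ⟨c i₀ k ((D i₀ k).f ω), (hc1 i₀ k ω hω).2, ?_, rfl⟩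
    rw [hD k]
    have := (hc1 i₀ k ω hω).1
    rw [hD k] at this
    exact this

end Lab

end

end Pool.Agent.Helper40.EL
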