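import Pool.Agent.Helper66.MT.Rc
import Pool.Agent.Helper40.EL.D2

/-! Leaks at a window of a cube are controlled by the leaks at the windows of single coordinates given the others. -/

set_option autoImplicit false

namespace Pool.Agent.Helper89.LX

open Finset Filter Topology Pool.Agent.Helper69.RK Pool.Agent.Helper31.EC Pool.Agent.Helper40.EL
open Pool.Agent.Helper66.MT

noncomputable section

/-- the information about all coordinates is at most the sum of the informations about single coordinates given the
others, up to the dependence of the coordinates -/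
theorem cube_pm {L : Type*} [PM L] {κ : Type*} [DecidableEq κ] (v A : L) (y R : κ → L) (s : Finset κ)
    (hR : ∀ i ∈ s, ∀ j ∈ s, i ≠ j → y i ≤ R j) :
    I v (s.sup y) A ≤ ∑ j ∈ s, (I v (y j) (R j ⊔ A) + I (R j) (y j) A) := by
  induction s using Finset.induction_on with
  | empty =>
    rw [Finset.sup_empty, Finset.sum_empty, I_zero_of_le_right bot_le]
  | insert j s hj ih =>
    have h1 := ih (fun i hi i' hi' => hR i (Finset.mem_insert_of_mem hi) i' (Finset.mem_insert_of_mem hi'))
    rw [Finset.sum_insert hj, Finset.sup_insert, sup_comm, I_chain_right]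
    set P := s.sup y with hP
    have hPR : P ≤ R j := by
      apply Finset.sup_le
      intro i hi
      exact hR i (Finset.mem_insert_of_mem hi) j (Finset.mem_insert_self j s) (fun h => hj (h ▸ hi))
    have h2 : I v (y j) (P ⊔ A) ≤ I (R j) (y j) (P ⊔ A) + I v (y j) (R j ⊔ (P ⊔ A)) := by
      rw [← I_chain]
      exact I_mono_left (le_sup_right.trans le_sup_left)
    have h3 : R j ⊔ (P ⊔ A) = R j ⊔ A := by rw [← sup_assoc, sup_eq_left.mpr hPR]
    have h4 : I (R j) (y j) (P ⊔ A) ≤ I (R j) (y j) A := by
      have h5 := I_chain P (R j) (y j) A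
      rw [sup_eq_right.mpr hPR] at h5
      have h6 := I_nonneg P (y j) A
      linarith
    rw [h3] at h2
    linarith

/-- the coordinates in `s` -/
def oths {Ω : Type} {e : ℕ} {β : Type} (Y : Ω → Fin e → β) (s : Finset (Fin e)) : Setoid Ω :=
  Setoid.ker (fun ω (i : s) => Y ω i)

theorem oths_rel {Ω : Type} {e : ℕ} {β : Type} (Y : Ω → Fin e → β) (s : Finset (Fin e)) (ω ω' : Ω) :
    oths Y s ω ω' ↔ ∀ i ∈ s, Y ω i = Y ω' i := by
  constructor
  · intro h i hi
    exact congrFun h ⟨i, hi⟩
  · intro h
    show (fun (i : s) => Y ω i) = fun (i : s) => Y ω' i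
    funext i
    exact h i.1 i.2

/-- leak at a window of a cube -/
theorem leak_cube {F : FSp} (l : FLab F) {e : ℕ} {β : Type} (A : Setoid F.Ω) (Y : F.Ω → Fin e → β) :
    l.leak (fc A) ≤ l.leak (fc (A ⊓ Setoid.ker Y)) +
      ∑ j, (l.leak (fc (oths Y (univ.erase j) ⊓ A)) +
        (h (fc (Setoid.ker (fun ω => Y ω j))) (fc A) - h (fc (Setoid.ker (fun ω => Y ω j)))
          (fc (oths Y (univ.erase j) ⊓ A)))) := by
  classical
  set a : FL F := fc A with ha
  set y : Fin e → FL F := fun j => fc (Setoid.ker (fun ω => Y ω j)) with hy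
  set R : Fin e → FL F := fun j => fc (oths Y (univ.erase j)) with hRd
  have hR : ∀ i ∈ (univ : Finset (Fin e)), ∀ j ∈ (univ : Finset (Fin e)), i ≠ j → l.p.map (y i) ≤ l.p.map (R j) := by
    intro i _ j _ hij
    apply l.p.map_mono
    apply fc_mono
    intro ω ω' h
    exact (oths_rel Y _ ω ω').1 h i (Finset.mem_erase.2 ⟨hij, Finset.mem_univ i⟩)
  have h1 := cube_pm l.v (l.p.map a) (fun j => l.p.map (y j)) (fun j => l.p.map (R j)) univ hR
  -- all coordinates together
  have hall : fc (A ⊓ Setoid.ker Y) ≤ a ⊔ (univ : Finset (Fin e)).sup y := by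
    have h2 : (univ : Finset (Fin e)).sup y = fc (Setoid.ker Y) := by
      have h3 : ∀ s : Finset (Fin e), s.sup y = fc (oths Y s) := by
        intro s
        induction s using Finset.induction_on with
        | empty =>
          rw [Finset.sup_empty]
          apply le_antisymm bot_le
          rw [← fc_top]
          apply fc_mono
          intro ω ω' _
          exact (oths_rel Y _ ω ω').2 fun i hi => absurd hi (Finset.notMem_empty i)
        | insert j s hj ih =>
          rw [Finset.sup_insert, ih, ← fc_inf]
          apply le_antisymm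
          · apply fc_mono
            intro ω ω' h
            have h' := (oths_rel Y _ ω ω').1 h
            exact ⟨h' j (Finset.mem_insert_self j s),
              (oths_rel Y _ ω ω').2 fun i hi => h' i (Finset.mem_insert_of_mem hi)⟩
          · apply fc_mono
            rintro ω ω' ⟨h, h'⟩
            refine (oths_rel Y _ ω ω').2 fun i hi => ?_
            rcases Finset.mem_insert.1 hi with h3 | h3
            · have e1 : Y ω j = Y ω' j := h
              rw [h3]; exact e1
            · exact (oths_rel Y _ ω ω').1 h' i h3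
      rw [h3]
      apply le_antisymm
      · apply fc_mono
        intro ω ω' h
        have h' : Y ω = Y ω' := h
        exact (oths_rel Y _ ω ω').2 fun i _ => congrFun h' i
      · apply fc_mono
        intro ω ω' h
        show Y ω = Y ω'
        funext i
        exact (oths_rel Y _ ω ω').1 h i (Finset.mem_univ i)
    rw [h2, ← fc_inf]
  have hsupmap : (univ : Finset (Fin e)).sup (fun j => l.p.map (y j)) = l.p.map ((univ : Finset (Fin e)).sup y) := by
    have h3 : ∀ s : Finset (Fin e), s.sup (fun j => l.p.map (y j)) = l.p.map (s.sup y) := by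
      intro s
      induction s using Finset.induction_on with
      | empty => rw [Finset.sup_empty, Finset.sup_empty, l.p.map_bot]
      | insert j s hj ih => rw [Finset.sup_insert, Finset.sup_insert, ih, l.p.map_sup]
    exact h3 _
  rw [hsupmap] at h1
  -- leak of the window
  have h2 : l.leak a = I l.v (l.p.map ((univ : Finset (Fin e)).sup y)) (l.p.map a) +
      I l.v l.p.top (l.p.map ((univ : Finset (Fin e)).sup y) ⊔ l.p.map a) := by
    unfold FLab.leak
    rw [← I_chain_right, sup_eq_right.mpr (l.p.map_le_top _)]
  have h3 : I l.v l.p.top (l.p.map ((univ : Finset (Fin e)).sup y) ⊔ l.p.map a) ≤ l.leak (fc (A ⊓ Setoid.ker Y)) := by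
    rw [← l.p.map_sup]
    apply l.leak_anti
    rw [sup_comm]
    exact hall
  rw [h2]
  have h4 : ∀ j, I l.v (l.p.map (y j)) (l.p.map (R j) ⊔ l.p.map a) ≤
      l.leak (fc (oths Y (univ.erase j) ⊓ A)) := by
    intro j
    rw [← l.p.map_sup]
    unfold FLab.leak
    exact I_mono_right ((l.p.map_le_top _).trans le_sup_left)
  have h5 : ∀ j, I (l.p.map (R j)) (l.p.map (y j)) (l.p.map a) = h (fc (Setoid.ker (fun ω => Y ω j))) (fc A) -
      h (fc (Setoid.ker (fun ω => Y ω j)))
        (fc (oths Y (univ.erase j) ⊓ A)) := by
    intro j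
    rw [l.p.I_map, I_eq']
    rfl
  have h6 := Finset.sum_le_sum (s := univ) fun (j : Fin e) _ => add_le_add (h4 j) (h5 j).le
  linarith

end

end Pool.Agent.Helper89.LX
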