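import Pool.Agent.Helper84.MT.Canf

/-! Gauges over families (on top of helper84's Canf): change of the family, two conditions, the exponent of a monotone
functional of the forms. -/

set_option autoImplicit false

namespace Pool.Agent.Helper89.LX

open Finset Filter Topology Matrix Pool.Agent.Helper69.RK Pool.Agent.Helper31.EC Pool.Agent.Helper40.EL

noncomputable section

variable {ι : Type} [Fintype ι] [DecidableEq ι] {κ : Type} {S : Sp} (Φ : Gau S ι)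

/-- admissible sequences are labels without leak with forms which are small -/
theorem Gau.Adf_iff_fm [Finite κ] {A : κ → Part S} {x : ∀ k, FD (S.F k) ι} : Φ.Adf A x ↔ Lab.DMf (fun k => (x k).l) A ∧
    ∀ η : ℝ, 0 < η → ∀ᶠ k in UF, (∀ ω, (x k).l.T.μ ω ≠ 0 → Cpd (Φ.cp k) ((x k).g ω) ∧ Cpd (Φ.cp k) ((x k).g' ω)) ∧
      (x k).l.T.pb (fun ω => ¬ Φ.φ k ((x k).l.p.π ω) ((x k).g ω) ≤ 2 ^ (η * (S.F k).n)) ≤ η ∧
      (x k).l.T.pb (fun ω => ¬ Φ.φ k ((x k).l.p.π ω) ((x k).g' ω) ≤ 2 ^ (η * (S.F k).n)) ≤ η := by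
  constructor
  · intro hx
    refine ⟨Gau.Adf.dm Φ hx, fun η hη => ?_⟩
    filter_upwards [hx η hη] with k hk using hk.2
  · rintro ⟨h1, h2⟩ η hη
    filter_upwards [h2 η hη, leak_evf h1 hη] with k a b
    exact ⟨b, a⟩

/-- change of the family -/
theorem Gau.Adf.congr [Finite κ] {κ' : Type} [Finite κ'] {A : κ → Part S} {B : κ' → Part S} {x : ∀ k, FD (S.F k) ι}
    (hx : Φ.Adf A x) (h : Lab.DMf (fun k => (x k).l) B) : Φ.Adf B x := by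
  rw [Gau.Adf_iff_fm] at hx ⊢
  exact ⟨h, hx.2⟩

theorem Gau.Adf.mono [Finite κ] {κ' : Type} [Finite κ'] {A : κ → Part S} {B : κ' → Part S} {x : ∀ k, FD (S.F k) ι}
    (hx : Φ.Adf A x) (h : ∀ i, ∃ j, PLe (A j) (B i)) : Φ.Adf B x :=
  Gau.Adf.congr Φ hx ((Gau.Adf.dm Φ hx).mono h)

/-- two conditions -/
theorem Gau.Adf_pair {A B : Part S} {x : ∀ k, FD (S.F k) ι} : Φ.Adf ![A, B] x ↔ Φ.Ad A B x := by
  rw [Gau.Adf_iff_fm]
  have h0 : Lab.DMf (fun k => (x k).l) ![A, B] ↔ Lab.DM (fun k => (x k).l) A B := Lab.DMf_pair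
  constructor
  · rintro ⟨h1, h2⟩ η hη
    have h1 := h0.mp h1
    filter_upwards [h1.1.eventually (gt_mem_nhds hη), h1.2.eventually (gt_mem_nhds hη), h2 η hη] with k a b c
    rw [div_lt_iff₀ (S.F k).pos] at a b
    exact ⟨a.le, b.le, c⟩
  · intro hx
    refine ⟨h0.mpr (Gau.Ad.dm Φ hx), fun η hη => ?_⟩
    filter_upwards [hx η hη] with k hk using hk.2.2

/-- the join of an optimal form with a maximal label -/
theorem Gau.Optf.jn_max [Finite κ] {A : κ → Part S} {i₀ : κ} (hA : (A i₀).Bd) {x : ∀ k, FD (S.F k) ι} (hx : Φ.Optf A x)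
    {l : Lab S} (hl : l.IsMaxf A) : Lab.IsMaxf (fun k => ((x k).jn (l k)).l) A := by
  have h1 := Gau.Adf.dm Φ (Gau.Adf.jn Φ hx.1 hl.1)
  refine ⟨h1, fun l' hl' => ?_⟩
  refine (hl.2 l' hl').trans ?_
  apply ul_mono (hl.1.ub hA) (h1.ub hA)
  refine Eventually.of_forall fun k => div_le_div_of_nonneg_right ?_ (S.F k).pos.le
  exact (x k).l.join_info_ge_right (l k)

/-! ### the exponent of a monotone functional -/

/-- a monotone functional of forms -/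
def MonG (G : ∀ k, (S.F k).Ω → Matrix ι ι ℝ → ℝ) : Prop :=
  ∀ k ω M N (c : ℝ), 0 ≤ c → (∀ v, qf M v ≤ c * qf N v) → G k ω M ≤ c * G k ω N

/-- a label of the family carries an admissible form with `G ≥ 2^(σ n - o(n))` typically -/
def Gau.Hg (A : κ → Part S) (G : ∀ k, (S.F k).Ω → Matrix ι ι ℝ → ℝ) (σ : ℝ) : Prop :=
  ∃ x : ∀ k, FD (S.F k) ι, Φ.Adf A x ∧ ∀ e : ℝ, 0 < e → Tendsto (fun k => (x k).l.T.pb (fun ω =>
    ¬ 2 ^ ((σ - e) * (S.F k).n) ≤ G k ((x k).l.p.π ω) ((x k).g ω))) UF (𝓝 0)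

variable {A : κ → Part S} {G : ∀ k, (S.F k).Ω → Matrix ι ι ℝ → ℝ} {σ : ℝ}

theorem Gau.Hg.opt (h : Φ.Hg A G σ) (hG : MonG G) {x : ∀ k, FD (S.F k) ι} (hx : Φ.Optf A x) (e : ℝ) (he : 0 < e) :
    Tendsto (fun k => (x k).l.T.pb (fun ω => ¬ 2 ^ ((σ - e) * (S.F k).n) ≤ G k ((x k).l.p.π ω) ((x k).g ω)))
      UF (𝓝 0) := by
  obtain ⟨y, hy, hσ⟩ := h
  exact Gau.Optf.lower Φ hx hy G hG σ hσ e he

theorem Gau.Hg_iff_opt (hG : MonG G) {x : ∀ k, FD (S.F k) ι} (hx : Φ.Optf A x) : Φ.Hg A G σ ↔ ∀ e : ℝ, 0 < e →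
    Tendsto (fun k => (x k).l.T.pb (fun ω => ¬ 2 ^ ((σ - e) * (S.F k).n) ≤ G k ((x k).l.p.π ω) ((x k).g ω)))
      UF (𝓝 0) :=
  ⟨fun h e he => Gau.Hg.opt Φ h hG hx e he, fun h => ⟨x, hx.1, h⟩⟩

theorem Gau.Hg.mono_s {σ' : ℝ} (h : Φ.Hg A G σ) (hσ : σ' ≤ σ) : Φ.Hg A G σ' := by
  obtain ⟨x, hx, h1⟩ := h
  refine ⟨x, hx, fun e he => ?_⟩
  refine tendsto_of_tendsto_of_tendsto_of_le_of_le tendsto_const_nhds (h1 e he)
    (fun k => (x k).l.T.pb_nonneg _) (fun k => FSp.pb_mono _ ?_)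
  intro ω _ h2 h3
  apply h2
  refine le_trans ?_ h3
  apply Real.rpow_le_rpow_of_exponent_le (by norm_num)
  have := (S.F k).pos
  nlinarith

theorem Gau.Hg.of_lt (hG : MonG G) (h : ∀ σ' < σ, Φ.Hg A G σ') : Φ.Hg A G σ := by
  obtain ⟨x, hx⟩ := Φ.exists_optf A
  rw [Gau.Hg_iff_opt Φ hG hx]
  intro e he
  have h1 := Gau.Hg.opt Φ (h (σ - e / 2) (by linarith)) hG hx (e / 2) (by linarith)
  refine h1.congr fun k => ?_
  congr 1
  funext ω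
  congr 2
  ring_nf

/-- monotonicity in the family -/
theorem Gau.Hg.mono [Finite κ] {κ' : Type} [Finite κ'] {B : κ' → Part S} (h : Φ.Hg A G σ)
    (hAB : ∀ i, ∃ j, PLe (A j) (B i)) : Φ.Hg B G σ := by
  obtain ⟨x, hx, h1⟩ := h
  exact ⟨x, Gau.Adf.mono Φ hx hAB, h1⟩

theorem Gau.Hg_pair {B C : Part S} : Φ.Hg ![B, C] G σ ↔ ∃ x : ∀ k, FD (S.F k) ι, Φ.Ad B C x ∧
    ∀ e : ℝ, 0 < e → Tendsto (fun k => (x k).l.T.pb (fun ω =>
      ¬ 2 ^ ((σ - e) * (S.F k).n) ≤ G k ((x k).l.p.π ω) ((x k).g ω))) UF (𝓝 0) := by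
  constructor
  · rintro ⟨x, hx, h1⟩
    exact ⟨x, (Gau.Adf_pair Φ).mp hx, h1⟩
  · rintro ⟨x, hx, h1⟩
    exact ⟨x, (Gau.Adf_pair Φ).mpr hx, h1⟩

end

end Pool.Agent.Helper89.LX
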