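import Pool.Agent.Helper89.MG.Agf

/-! THE LABEL OF AN AGREEMENT OF OPTIMAL FORMS (LEAF sect. 4 (c)) for families of conditions and any positive
probability; the two forms of the agreement principle for two conditions. -/

set_option autoImplicit false

namespace Pool.Agent.Helper89.LX

open Finset Filter Topology Matrix Pool.Agent.Helper69.RK Pool.Agent.Helper31.EC Pool.Agent.Helper40.EL
open Pool.Agent.Helper95.LF (PdM NearM round_mat values_card)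

noncomputable section

section
variable {ι : Type} [Fintype ι] [DecidableEq ι] {κ : Type} {S : Sp}

/-- the restructured join stays maximal -/
theorem jlab_IsMaxf {A : κ → Part S} {i₀ : κ} (x : ∀ k, FD (S.F k) ι) {l' : Lab S} (h : l'.IsMaxf A) :
    Lab.IsMaxf (fun k => jlab (x k) (l' k)) A := by
  have h1 : ∀ i j, Lab.DM (fun k => jlab (x k) (l' k)) (A i) (A j) := fun i j => by
    constructor
    · have : (fun k => (jlab (x k) (l' k)).leak (A i k)) = fun k => (l' k).leak (A i k) := by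
        funext k; exact jlab_leak _ _ _
      show Nul S _
      rw [this]; exact h.1 i
    · have : (fun k => (jlab (x k) (l' k)).leak (A j k)) = fun k => (l' k).leak (A j k) := by
        funext k; exact jlab_leak _ _ _
      show Nul S _
      rw [this]; exact h.1 j
  have hi : Lab.info (fun k => jlab (x k) (l' k)) = l'.info := by
    unfold Lab.info
    congr 1
    funext k
    rw [jlab_info]
  refine ⟨fun i => (h1 i i₀).1, fun l'' hl'' => ?_⟩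
  rw [hi]
  exact h.2 l'' hl''

theorem Gau.Optf_pair (Φ : Gau S ι) {A B : Part S} {x : ∀ k, FD (S.F k) ι} : Φ.Optf ![A, B] x ↔ Φ.Opt A B x := by
  constructor
  · rintro ⟨h1, h2⟩
    exact ⟨(Gau.Adf_pair Φ).mp h1, fun y hy => h2 y ((Gau.Adf_pair Φ).mpr hy)⟩
  · rintro ⟨h1, h2⟩
    exact ⟨(Gau.Adf_pair Φ).mpr h1, fun y hy => h2 y ((Gau.Adf_pair Φ).mp hy)⟩

theorem pair_im {T : Sp} (p : Pj T S) (E : ∀ k, (T.F k).Ω → Prop) (A B : Part S) :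
    (fun i => ((![A, B] : Fin 2 → Part S) i).im p E) = ![A.im p E, B.im p E] := by
  funext i
  fin_cases i <;> rfl

/-- the conclusions for two conditions -/
theorem AgOut.ad2 {Φ : Gau S ι} {A B : Part S} {l : Lab S} {g : ∀ k, (l k).T.Ω → Matrix ι ι ℝ} {p0 lam : ℝ}
    {E : ∀ k, (l.sp.F k).Ω → Prop} {M : ∀ k, (l k).T.Ω → Matrix ι ι ℝ} {c : ℕ → ℝ}
    (h : AgOut Φ ![A, B] l g p0 lam E M c) :
    (Φ.im l.pj E).Ad (A.im l.pj E) (B.im l.pj E) (fun k => avFD (l k) (E k) (c k) (Φ.cp k) (M k)) := by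
  have h1 := h.ad
  rw [pair_im] at h1
  exact (Gau.Adf_pair (S := Sp.im l.pj E) (Φ.im l.pj E)).mp h1

theorem AgOut.mx2 {Φ : Gau S ι} {A B : Part S} {l : Lab S} {g : ∀ k, (l k).T.Ω → Matrix ι ι ℝ} {p0 lam : ℝ}
    {E : ∀ k, (l.sp.F k).Ω → Prop} {M : ∀ k, (l k).T.Ω → Matrix ι ι ℝ} {c : ℕ → ℝ}
    (h : AgOut Φ ![A, B] l g p0 lam E M c) :
    ((l.im E).addW fun k => Setoid.ker (M k)).IsMax (A.im l.pj E) (B.im l.pj E) := by
  have h1 := h.mx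
  rw [pair_im] at h1
  exact Lab.IsMaxf_pair.mp h1

end

/-- THE LABEL OF AN AGREEMENT, families: `x₀` optimal for `A`, `l'` maximal for `A'`, where `A'` differs from `A` only
at the index `i₀`; copies given `(l', A' i₀)` have close forms with positive probability -/
theorem nj_labelf (ι : Type) [Fintype ι] [DecidableEq ι] : ∃ Cc : ℝ, 0 ≤ Cc ∧ ∀ {S : Sp} (Φ : Gau S ι)
    (_ : MonG Φ.φ) {κ : Type} [Finite κ] {A A' : κ → Part S} (i₀ : κ) (_ : ∀ i, i ≠ i₀ → A' i = A i)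
    {i₁ : κ} (_ : (A' i₁).Bd) (_ : ∀ {T : Sp} (p : Pj T S) (E : ∀ k, (T.F k).Ω → Prop), ((A' i₁).im p E).Bd)
    (As : ∀ k, Setoid (S.F k).Ω) (_ : ∀ k, A' i₀ k = fc (As k)) {x₀ : ∀ k, FD (S.F k) ι} (_ : Φ.Optf A x₀)
    {l' : Lab S} (_ : l'.IsMaxf A') (_ : l'.DMf A) (e : ℝ) (_ : 0 < e) {p0 : ℝ} (_ : 0 < p0)
    (_ : ∀ᶠ k in UF, p0 ≤ (pam ((x₀ k).jn (l' k)).l (jK (x₀ k) (l' k)) (As k)).sp.pb
        (fun w => Nr (e * (S.F k).n) (((x₀ k).jn (l' k)).g w.1) (((x₀ k).jn (l' k)).g w.2))),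
    ∃ E M c, AgOut Φ A' (fun k => jlab (x₀ k) (l' k)) (fun k => ((x₀ k).jn (l' k)).g) p0 (Cc * e) E M c := by
  classical
  obtain ⟨Cc, hCc, hag⟩ := agf ι
  refine ⟨Cc, hCc, ?_⟩
  intro S Φ hφ κ _ A A' i₀ hAA i₁ hA' hA'im As hAs x₀ h₀ l' hl' hl'A e he p0 hp0 hnear
  have hX : Φ.Optf A (fun k => (x₀ k).jn (l' k)) := Gau.Optf.jn Φ h₀ hl'A
  refine hag Φ hφ (l := fun k => jlab (x₀ k) (l' k)) (jlab_IsMaxf (i₀ := i₀) x₀ hl') hA' (fun E => hA'im _ E) i₀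
    (fun k => pam ((x₀ k).jn (l' k)).l (jK (x₀ k) (l' k)) (As k)) (fun _ => rfl) (fun k => ?_)
    (fun k => ((x₀ k).jn (l' k)).g) ?_ ?_ e he ?_ hp0 hnear
  · rw [hAs k]
    exact pam_ker ((x₀ k).jn (l' k)).l (jK (x₀ k) (l' k)) (As k)
  · filter_upwards [hX.1 1 one_pos] with k hk ω hω
    exact (hk.2.1 ω hω).1
  · intro η hη
    filter_upwards [hX.1 η hη] with k hk using hk.2.2.1
  · intro i hi N hN L hL1 hL Q hQ
    have h1 := Gau.Optf.round Φ hX e he N hN L hL1 hL Q hQ (A i) (Gau.Adf.dm Φ hX.1 i)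
    refine h1.of_le (Eventually.of_forall fun k => h_nonneg _ _) (Eventually.of_forall fun k => ?_)
    rw [hAA i hi]
    exact h_anti le_sup_right

/-- THE LABEL OF AN AGREEMENT, two conditions, any positive probability `p0` (helper55's (2.2)) -/
theorem nj_labelp (ι : Type) [Fintype ι] [DecidableEq ι] : ∃ Cc : ℝ, 0 ≤ Cc ∧ ∀ {S : Sp} (Φ : Gau S ι)
    (_ : ∀ k ω M N (c : ℝ), 0 ≤ c → (∀ v, qf M v ≤ c * qf N v) → Φ.φ k ω M ≤ c * Φ.φ k ω N)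
    {A B A' : Part S} (_ : A'.Bd) (_ : ∀ {T : Sp} (p : Pj T S) (E : ∀ k, (T.F k).Ω → Prop), (A'.im p E).Bd)
    (As : ∀ k, Setoid (S.F k).Ω) (_ : ∀ k, A' k = fc (As k)) {x₀ : ∀ k, FD (S.F k) ι} (_ : Φ.Opt A B x₀)
    {l' : Lab S} (_ : l'.IsMax A' B) (_ : l'.DM A B) (e : ℝ) (_ : 0 < e) {p0 : ℝ} (_ : 0 < p0)
    (_ : ∀ᶠ k in UF, p0 ≤ (pam ((x₀ k).jn (l' k)).l (jK (x₀ k) (l' k)) (As k)).sp.pb
        (fun w => Nr (e * (S.F k).n) (((x₀ k).jn (l' k)).g w.1) (((x₀ k).jn (l' k)).g w.2))),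
    ∃ E M c, AgOut Φ ![A', B] (fun k => jlab (x₀ k) (l' k)) (fun k => ((x₀ k).jn (l' k)).g) p0 (Cc * e) E M c := by
  obtain ⟨Cc, hCc, h⟩ := nj_labelf ι
  refine ⟨Cc, hCc, ?_⟩
  intro S Φ hφ A B A' hA' hA'im As hAs x₀ h₀ l' hl' hl'A e he p0 hp0 hnear
  refine h Φ hφ (A := ![A, B]) (A' := ![A', B]) 0 ?_ (i₁ := 0) hA' (fun p E => hA'im p E) As hAs
    ((Gau.Optf_pair Φ).mpr h₀) (Lab.IsMaxf_pair.mpr hl') (Lab.DMf_pair.mpr hl'A) e he hp0 hnear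
  intro i hi
  fin_cases i
  · exact absurd rfl hi
  · rfl

/-- the same with a lower bound of a monotone functional: the conclusion of `nj_label` with `p0` -/
theorem nj_labelq (ι : Type) [Fintype ι] [DecidableEq ι] : ∃ Cc : ℝ, 0 ≤ Cc ∧ ∀ {S : Sp} (Φ : Gau S ι)
    (_ : ∀ k ω M N (c : ℝ), 0 ≤ c → (∀ v, qf M v ≤ c * qf N v) → Φ.φ k ω M ≤ c * Φ.φ k ω N)
    (G : ∀ k, (S.F k).Ω → Matrix ι ι ℝ → ℝ)
    (_ : ∀ k ω M N (c : ℝ), 0 ≤ c → (∀ v, qf M v ≤ c * qf N v) → G k ω M ≤ c * G k ω N)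
    {A B A' : Part S} (_ : A'.Bd) (_ : ∀ {T : Sp} (p : Pj T S) (E : ∀ k, (T.F k).Ω → Prop), (A'.im p E).Bd)
    (As : ∀ k, Setoid (S.F k).Ω) (_ : ∀ k, A' k = fc (As k)) {x₀ : ∀ k, FD (S.F k) ι} (_ : Φ.Opt A B x₀)
    {l' : Lab S} (_ : l'.IsMax A' B) (_ : l'.DM A B) (σ : ℝ)
    (_ : ∀ e : ℝ, 0 < e → Tendsto (fun k => (x₀ k).l.T.pb (fun ω =>
      ¬ 2 ^ ((σ - e) * (S.F k).n) ≤ G k ((x₀ k).l.p.π ω) ((x₀ k).g ω))) UF (𝓝 0))
    (e : ℝ) (_ : 0 < e) {p0 : ℝ} (_ : 0 < p0)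
    (_ : ∀ᶠ k in UF, p0 ≤ (pam ((x₀ k).jn (l' k)).l (jK (x₀ k) (l' k)) (As k)).sp.pb
        (fun w => Nr (e * (S.F k).n) (((x₀ k).jn (l' k)).g w.1) (((x₀ k).jn (l' k)).g w.2))),
    ∃ (l : Lab S) (E : ∀ k, (l.sp.F k).Ω → Prop), p0 ≤ ul (l.sp.pr E) ∧
      ∃ y : ∀ k, FD ((Sp.im l.pj E).F k) ι, (Φ.im l.pj E).Ad (A'.im l.pj E) (B.im l.pj E) y ∧
      ∀ e' : ℝ, 0 < e' → Tendsto (fun k => (y k).l.T.pb (fun ω =>
        ¬ 2 ^ ((σ - Cc * e - e') * (S.F k).n) ≤ G k ((y k).l.p.π ω) ((y k).g ω))) UF (𝓝 0) := by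
  obtain ⟨Cc, hCc, h⟩ := nj_labelp ι
  refine ⟨Cc, hCc, ?_⟩
  intro S Φ hφ G hG A B A' hA' hA'im As hAs x₀ h₀ l' hl' hl'A σ hσ e he p0 hp0 hnear
  obtain ⟨E, M, c, hag⟩ := h Φ hφ hA' hA'im As hAs h₀ hl' hl'A e he hp0 hnear
  refine ⟨_, E, hag.pr, _, hag.ad2, fun e' he' => ?_⟩
  refine hag.low G hG σ e' ?_
  refine (hσ e' he').congr fun k => ?_
  exact (pb_push ((x₀ k).l.am (l' k)).p1 (fun ω =>
    ¬ 2 ^ ((σ - e') * (S.F k).n) ≤ G k ((x₀ k).l.p.π ω) ((x₀ k).g ω))).symm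

/-- AGREEMENT OF FORMS AT BOTH CONDITIONS: `l` maximal for `(A, B)`, `g` forms on the space of `l`; copies given `(l, A)`
agree with probability `≥ p`, copies given `(l, B)` agree with probability `≥ q`, `p + q > 1` -/
theorem agf_pair (ι : Type) [Fintype ι] [DecidableEq ι] : ∃ Cc : ℝ, 0 ≤ Cc ∧ ∀ {S : Sp} (Φ : Gau S ι) (_ : MonG Φ.φ)
    {A B : Part S} {l : Lab S} (_ : l.IsMax A B) (_ : A.Bd)
    (_ : ∀ E : ∀ k, (l.sp.F k).Ω → Prop, (A.im l.pj E).Bd)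
    (DA DB : ∀ k, FAm (l k).T (l k).T) (_ : ∀ k, (DA k).f = (DA k).g)
    (_ : ∀ k, (fc (Setoid.ker (DA k).f) : FL (l k).T) ≤ (l k).v ⊔ (l k).p.map (A k))
    (_ : ∀ k, (fc (Setoid.ker (DB k).f) : FL (l k).T) ≤ (l k).v ⊔ (l k).p.map (B k))
    (g : ∀ k, (l k).T.Ω → Matrix ι ι ℝ) (_ : ∀ᶠ k in UF, ∀ ω, (l k).T.μ ω ≠ 0 → Cpd (Φ.cp k) (g k ω))
    (_ : ∀ η : ℝ, 0 < η → ∀ᶠ k in UF,
      (l k).T.pb (fun ω => ¬ Φ.φ k ((l k).p.π ω) (g k ω) ≤ 2 ^ (η * (S.F k).n)) ≤ η)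
    (e : ℝ) (_ : 0 < e) {p q : ℝ} (_ : 1 < p + q)
    (_ : ∀ᶠ k in UF, p ≤ (DA k).sp.pb (fun w => Nr (e * (S.F k).n) (g k w.1) (g k w.2)))
    (_ : ∀ᶠ k in UF, q ≤ (DB k).sp.pb (fun w => Nr (e * (S.F k).n) (g k w.1) (g k w.2))),
    ∃ E M c, AgOut Φ ![A, B] l g (p + q - 1) (Cc * e) E M c := by
  obtain ⟨Cc, hCc, h⟩ := agf2 ι
  refine ⟨Cc, hCc, ?_⟩
  intro S Φ hφ A B l hl hA hA2 DA DB hD hYA hYB g hcpd hg e he p q hpq hp hq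
  have h1 : 1 - ∑ i : Fin 2, (1 - ![p, q] i) = p + q - 1 := by
    rw [Fin.sum_univ_two]
    show 1 - ((1 - p) + (1 - q)) = _
    ring
  have h2 := h Φ hφ (A := ![A, B]) (Lab.IsMaxf_pair.mpr hl) (i₁ := 0) hA hA2 0 ![DA, DB] hD (fun i k => by
    fin_cases i
    · exact hYA k
    · exact hYB k) g hcpd hg e he (p := ![p, q]) (by rw [h1]; linarith) (fun i => by
    fin_cases i
    · exact hp
    · exact hq)
  rw [h1] at h2
  exact h2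

end

end Pool.Agent.Helper89.LX
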