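import Pool.Agent.Helper89.MG.Hg
import Pool.Agent.Helper89.LX.Njr
import Pool.Agent.Helper89.LX.Njm

/-! Gauges over families: the rounding of an optimal form is a function of the space (LEAF (1.3)); right continuity of
the exponents for continuous families of conditions. -/

set_option autoImplicit false

namespace Pool.Agent.Helper89.LX

open Finset Filter Topology Matrix Pool.Agent.Helper69.RK Pool.Agent.Helper31.EC Pool.Agent.Helper40.EL
open Pool.Agent.Helper95.LF (PdM NearM round_mat values_card)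

noncomputable section

variable {ι : Type} [Fintype ι] [DecidableEq ι] {κ : Type} {S : Sp} (Φ : Gau S ι)

/-- an optimal form is determined by the point up to `2^o(n)` -/
theorem Gau.Optf.self_near {A : κ → Part S} {x : ∀ k, FD (S.F k) ι} (hx : Φ.Optf A x) (e : ℝ) (he : 0 < e) :
    Tendsto (fun k => ((x k).l.am (x k).l).sp.pb (fun w => ¬ Nr (e * (S.F k).n) ((x k).g w.1) ((x k).g w.2)))
      UF (𝓝 0) := by
  have h1 : Tendsto (fun k => ((x k).l.am (x k).l).sp.pb (fun w =>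
      ¬ ∀ v, qf ((x k).g w.2) v ≤ 2 ^ (e * (S.F k).n) * qf ((x k).g w.1) v)) UF (𝓝 0) :=
    Gau.Optf.dom Φ hx hx.1 e he
  have h2 := h1.add h1
  rw [add_zero] at h2
  refine tendsto_of_tendsto_of_tendsto_of_le_of_le tendsto_const_nhds h2 (fun k => FSp.pb_nonneg _ _) (fun k => ?_)
  have h3 := FAm.swap_pb ((x k).l.am (x k).l) rfl (fun w =>
      ¬ ∀ v, qf ((x k).g w.2) v ≤ 2 ^ (e * (S.F k).n) * qf ((x k).g w.1) v)
  have h4 : ((x k).l.am (x k).l).sp.pb (fun w => ¬ Nr (e * (S.F k).n) ((x k).g w.1) ((x k).g w.2)) ≤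
      ((x k).l.am (x k).l).sp.pb (fun w : (x k).l.T.Ω × (x k).l.T.Ω =>
        (¬ ∀ v, qf ((x k).g w.1) v ≤ 2 ^ (e * (S.F k).n) * qf ((x k).g w.2) v) ∨
        (¬ ∀ v, qf ((x k).g w.2) v ≤ 2 ^ (e * (S.F k).n) * qf ((x k).g w.1) v)) := by
    apply FSp.pb_mono
    intro w _ h5
    by_contra hc
    rw [not_or, not_not, not_not] at hc
    exact h5 ⟨hc.1, hc.2⟩
  refine h4.trans ((pb_or _ _ _).trans ?_)
  exact add_le_add (le_of_eq h3) le_rfl

/-- THE ROUNDING OF AN OPTIMAL FORM IS A FUNCTION OF THE POINT, for both conditions -/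
theorem Gau.Optf.round {A : κ → Part S} {x : ∀ k, FD (S.F k) ι} (hx : Φ.Optf A x) (e : ℝ) (he : 0 < e) (N : ℕ)
    (hN : 1 ≤ N) (L : ℕ → ℝ) (hL1 : ∀ k, 1 ≤ L k) (hL : ∀ k, e * (S.F k).n * Real.log 2 ≤ L k)
    (Q : ℕ → Matrix ι ι ℝ → Matrix ι ι ℝ)
    (hQ : ∀ k, ∀ A, PdM A → ∃ X : Finset (Matrix ι ι ℝ), X.card ≤ N ∧ ∀ A', PdM A' → NearM (L k) A A' → Q k A' ∈ X)
    (Y : ∀ k, FL (S.F k)) (hY : Nul S (fun k => (x k).l.leak (Y k))) :
    Nul S (fun k => h (fc (Setoid.ker fun ω => Q k ((x k).g ω)) : FL (x k).l.T) ((x k).l.p.map (Y k))) := by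
  classical
  obtain ⟨C, hC0, hC⟩ := Φ.card_cap
  choose c hc1 hc2 using fun k => ((x k).l.am (x k).l).agree
    (fun ω ω' => Nr (e * (S.F k).n) ((x k).g ω) ((x k).g ω'))
  -- the event
  set E : ∀ k, (x k).l.T.Ω → Prop := fun k ω => Nr (e * (S.F k).n) ((x k).g ω) ((x k).g (c k ((x k).l.p.π ω))) with hE
  have t1 : Tendsto (fun k => (x k).l.T.pb (fun ω => ¬ E k ω)) UF (𝓝 0) := by
    refine tendsto_of_tendsto_of_tendsto_of_le_of_le tendsto_const_nhds (Gau.Optf.self_near Φ hx e he)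
      (fun k => FSp.pb_nonneg _ _) (fun k => ?_)
    have h1 := (x k).l.T.pb_add_compl (E k)
    have h2 := ((x k).l.am (x k).l).sp.pb_add_compl (fun w => Nr (e * (S.F k).n) ((x k).g w.1) ((x k).g w.2))
    have h3 := hc2 k
    have h4 : (x k).l.T.pb (E k) = (x k).l.T.pb (fun ω => Nr (e * (S.F k).n) ((x k).g ω)
      ((x k).g (c k (((x k).l.am (x k).l).f ω)))) := rfl
    rw [← h4] at h3
    linarith
  have hfin : ∀ᶠ k in UF, h (fc (Setoid.ker fun ω => Q k ((x k).g ω)) : FL (x k).l.T) ((x k).l.p.map (Y k)) ≤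
      (x k).l.leak (Y k) + (Real.logb 2 N + (x k).l.T.pb (fun ω => ¬ E k ω) *
        ((Real.logb 2 N + 2 * C) + 2 * C * (S.F k).n) + 1) := by
    filter_upwards [hx.1 1 one_pos] with k hk
    have hcpd : ∀ ω, (x k).l.T.μ ω ≠ 0 → Cpd (Φ.cp k) ((x k).g ω) := fun ω hω => (hk.2.1 ω hω).1
    obtain ⟨X, hX, hX'⟩ := hC (L k) (hL1 k) N (Q k) (hQ k) k
    have hM1 : (1 : ℝ) ≤ N * Real.exp (C * ((S.F k).n + 1)) := by
      have h1 : (1 : ℝ) ≤ N := by exact_mod_cast hN
      have h2 : (1 : ℝ) ≤ Real.exp (C * ((S.F k).n + 1)) := Real.one_le_exp (by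
        have := (S.F k).pos
        positivity)
      nlinarith
    -- the values determined by the point
    have hval : ∀ a : (S.F k).Ω, ∃ f : Fin N → Matrix ι ι ℝ, PdM ((x k).g (c k a)) →
        ∀ A', PdM A' → NearM (L k) ((x k).g (c k a)) A' → ∃ i, Q k A' = f i := by
      intro a
      by_cases hp : PdM ((x k).g (c k a))
      · obtain ⟨Z, hZ, hZ'⟩ := hQ k _ hp
        obtain ⟨f, hf⟩ := enum_fin Z N hZ
        exact ⟨f, fun _ A' h1 h2 => hf _ (hZ' A' h1 h2)⟩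
      · exact ⟨fun _ => 1, fun h => absurd h hp⟩
    choose f hf using hval
    have h1 := h_few_typ (F := (x k).l.T) (E k) (fun ω => Q k ((x k).g ω)) (x k).l.p.π N hN f (by
      intro ω hω hEω
      have a1 := hcpd ω hω
      have a2 := hcpd _ (hc1 k ω hω).2
      exact hf _ a2.pdM _ a1.pdM (Nr.near a2.psd a1.psd (Nr.symm hEω) (hL k)))
      (N * Real.exp (C * ((S.F k).n + 1))) hM1 X hX (fun ω hω => hX' _ (hcpd ω hω))
    have h2 : Real.logb 2 (N * Real.exp (C * ((S.F k).n + 1))) ≤ (Real.logb 2 N + 2 * C) + 2 * C * (S.F k).n := by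
      have hN0 : (0 : ℝ) < N := by exact_mod_cast hN
      rw [Real.logb_mul hN0.ne' (Real.exp_pos _).ne']
      have h3 : Real.logb 2 (Real.exp (C * ((S.F k).n + 1))) = C * ((S.F k).n + 1) / Real.log 2 := by
        unfold Real.logb
        rw [Real.log_exp]
      rw [h3]
      have h4 : 0 ≤ C * ((S.F k).n + 1) := by
        have := (S.F k).pos
        positivity
      have h5 : C * ((S.F k).n + 1) / Real.log 2 ≤ C * ((S.F k).n + 1) * 2 := by
        rw [div_le_iff₀ (Real.log_pos (by norm_num))]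
        have h6 : (1 : ℝ) / 2 < Real.log 2 := by
          have := Real.log_two_gt_d9
          linarith
        nlinarith
      linarith
    have h3 : h (fc (Setoid.ker fun ω => Q k ((x k).g ω)) : FL (x k).l.T) (x k).l.p.top ≤
        Real.logb 2 N + (x k).l.T.pb (fun ω => ¬ E k ω) * ((Real.logb 2 N + 2 * C) + 2 * C * (S.F k).n) + 1 := by
      refine h1.trans ?_
      have := mul_le_mul_of_nonneg_left h2 ((x k).l.T.pb_nonneg (fun ω => ¬ E k ω))
      linarith
    have h4 : (fc (Setoid.ker fun ω => Q k ((x k).g ω)) : FL (x k).l.T) ≤ (x k).l.v := by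
      apply fc_le
      intro ω ω' a b c d
      show Q k ((x k).g ω) = Q k ((x k).g ω')
      rw [((x k).meas ω ω' a b d c).1]
    have h5 := I_eq (fc (Setoid.ker fun ω => Q k ((x k).g ω)) : FL (x k).l.T) (x k).l.p.top ((x k).l.p.map (Y k))
    rw [sup_eq_left.mpr ((x k).l.p.map_le_top (Y k))] at h5
    have h6 : I (fc (Setoid.ker fun ω => Q k ((x k).g ω)) : FL (x k).l.T) (x k).l.p.top ((x k).l.p.map (Y k)) ≤
      (x k).l.leak (Y k) := I_mono_left (h4.trans le_sup_left)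
    linarith
  have hR : Nul S (fun k => (x k).l.leak (Y k) + (Real.logb 2 N + (x k).l.T.pb (fun ω => ¬ E k ω) *
        ((Real.logb 2 N + 2 * C) + 2 * C * (S.F k).n) + 1)) := by
    apply hY.add
    have a1 : Nul S (fun _ => Real.logb 2 N + 1) := Nul.const S _
    have a2 : Nul S (fun k => (x k).l.T.pb (fun ω => ¬ E k ω) * ((Real.logb 2 N + 2 * C) + 2 * C * (S.F k).n)) := by
      have a3 : Tendsto (fun k => (x k).l.T.pb (fun ω => ¬ E k ω) * ((Real.logb 2 N + 2 * C) / (S.F k).n + 2 * C)) UF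
          (𝓝 (0 * (0 + 2 * C))) := t1.mul ((S.div_n_tendsto _).add tendsto_const_nhds)
      rw [zero_mul] at a3
      refine a3.congr fun k => ?_
      have := (S.F k).pos.ne'
      field_simp
    have a4 := a1.add a2
    refine a4.congr fun k => ?_
    congr 1
    ring
  exact hR.of_le (Eventually.of_forall fun k => h_nonneg _ _) hfin

/-- RIGHT CONTINUITY of the exponent: the conditions `A c i` depend continuously on `c`, one by one -/
theorem Gau.Hg.right [Finite κ] {A : ℝ → κ → Part S} {c : ℝ} (hw : ∀ i (η : ℝ), 0 < η → ∃ δ : ℝ, 0 < δ ∧ ∀ c', c < c' →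
      c' < c + δ → ∀ᶠ k in UF, h (A c' i k) (A c i k) ≤ η * (S.F k).n)
    {G : ∀ k, (S.F k).Ω → Matrix ι ι ℝ → ℝ} {σ : ℝ} (hG : ∀ c', c < c' → Φ.Hg (A c') G σ) : Φ.Hg (A c) G σ := by
  have h1 : ∀ j : ℕ, ∃ x : ∀ k, FD (S.F k) ι, (∀ᶠ k in UF, Φ.Admf (A c) (1 / ((j : ℝ) + 1)) k (x k) ∧
      (x k).l.T.pb (fun ω => ¬ 2 ^ ((σ - 1 / ((j : ℝ) + 1)) * (S.F k).n) ≤
        G k ((x k).l.p.π ω) ((x k).g ω)) ≤ 1 / ((j : ℝ) + 1)) := by
    intro j
    have hj : (0 : ℝ) < 1 / ((j : ℝ) + 1) := by positivity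
    have hj2 : (0 : ℝ) < 1 / ((j : ℝ) + 1) / 2 := by positivity
    -- a common window
    choose δ hδ0 hδ using fun i => hw i (1 / ((j : ℝ) + 1) / 2) hj2
    obtain ⟨d, hd0, hd⟩ : ∃ d : ℝ, 0 < d ∧ ∀ i, d ≤ δ i := by
      have := Fintype.ofFinite κ
      by_cases hne : (Finset.univ : Finset κ).Nonempty
      · refine ⟨Finset.univ.inf' hne δ, ?_, fun i => ?_⟩
        · rw [Finset.lt_inf'_iff]
          intro i _
          exact hδ0 i
        · exact Finset.inf'_le _ (Finset.mem_univ i)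
      · refine ⟨1, one_pos, fun i => ?_⟩
        exact absurd ⟨i, Finset.mem_univ i⟩ hne
    obtain ⟨x, hx, hx'⟩ := hG (c + d / 2) (by linarith)
    refine ⟨x, ?_⟩
    have h3 : ∀ᶠ k in UF, ∀ i, h (A (c + d / 2) i k) (A c i k) ≤ 1 / ((j : ℝ) + 1) / 2 * (S.F k).n := by
      rw [eventually_all]
      intro i
      exact hδ i (c + d / 2) (by linarith) (by have := hd i; linarith)
    filter_upwards [hx _ hj, h3, leak_evf (Gau.Adf.dm Φ hx) hj2, (hx' _ hj).eventually (gt_mem_nhds hj)] with k a b b' d'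
    have hn := (S.F k).pos
    refine ⟨⟨fun i => ?_, a.2⟩, d'.le⟩
    have h5 := (x k).l.leak_le_leak (A c i k) (A (c + d / 2) i k)
    have h6 := b i
    have h7 := b' i
    linarith
  choose x hx using h1
  obtain ⟨y, J, hJ, hy, hP⟩ := Φ.diagf (A c) x (fun j k z =>
      z.l.T.pb (fun ω => ¬ 2 ^ ((σ - 1 / ((j : ℝ) + 1)) * (S.F k).n) ≤
        G k (z.l.p.π ω) (z.g ω)) ≤ 1 / ((j : ℝ) + 1)) hx
  refine ⟨y, hy, fun e he => ?_⟩
  have h0 : Tendsto (fun k => 1 / ((J k : ℝ) + 1)) UF (𝓝 0) :=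
    tendsto_one_div_add_atTop_nhds_zero_nat.comp hJ
  refine tendsto_of_tendsto_of_tendsto_of_le_of_le' tendsto_const_nhds h0
    (Eventually.of_forall fun k => (y k).l.T.pb_nonneg _) ?_
  filter_upwards [hP, h0.eventually (gt_mem_nhds he)] with k hk hk'
  refine le_trans (FSp.pb_mono _ ?_) hk
  intro ω _ h2 h3
  apply h2
  refine le_trans ?_ h3
  apply Real.rpow_le_rpow_of_exponent_le (by norm_num)
  have hn := (S.F k).pos
  exact mul_le_mul_of_nonneg_right (by linarith) hn.le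

end

end Pool.Agent.Helper89.LX
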