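import Pool.Agent.Helper89.MG.Sps

/-! TYPICAL VALUES, one coordinate: a function with the Remez property for `N + 1` separated points on an interval is
typically not much smaller than its maximum, at a variable of full entropy. -/

set_option autoImplicit false

namespace Pool.Agent.Helper89.LX

open Finset Pool.Agent.Helper69.RK Pool.Agent.Helper3.LF Pool.Agent.Helper31.EC Pool.Agent.Helper40.EL
open Pool.Agent.Helper48.NS

noncomputable section

/-- REMEZ property on the interval `[a, a + W)` -/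
def RemI (N : ℕ) (B a W : ℝ) (G : ℝ → ℝ) : Prop := ∀ (x : Fin (N + 1) → ℝ) (d ε : ℝ), 0 < d →
  (∀ i, x i ∈ Set.Ico a (a + W)) → (∀ i j, i ≠ j → d * W ≤ |x i - x j|) → (∀ i, G (x i) ≤ ε) →
  ∀ u ∈ Set.Ico a (a + W), G u ≤ B * (1 / d) ^ N * ε

/-- a function with the Remez property has an almost maximum -/
theorem RemI.amax {N : ℕ} {B a W : ℝ} {G : ℝ → ℝ} (hG : ∀ s, 0 ≤ G s) (hW : 0 < W) (h : RemI N B a W G) :
    ∃ s ∈ Set.Ico a (a + W), ∀ s' ∈ Set.Ico a (a + W), G s' ≤ 2 * G s := by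
  classical
  have haW : a ∈ Set.Ico a (a + W) := ⟨le_rfl, by linarith⟩
  -- bounded
  have hbd : ∃ Mb, ∀ s' ∈ Set.Ico a (a + W), G s' ≤ Mb := by
    set x : Fin (N + 1) → ℝ := fun i => a + W * ((i : ℕ) / (N + 1)) with hx
    have hN : (0 : ℝ) < (N : ℝ) + 1 := by positivity
    have h1 : ∀ i, x i ∈ Set.Ico a (a + W) := by
      intro i
      have e2 : ((i : ℕ) : ℝ) / (N + 1) < 1 := by
        rw [div_lt_one hN]
        have : ((i : ℕ) : ℝ) ≤ N := Nat.cast_le.2 (Nat.le_of_lt_succ i.2)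
        linarith
      have e3 : (0 : ℝ) ≤ ((i : ℕ) : ℝ) / (N + 1) := by positivity
      rw [hx]
      constructor
      · have := mul_nonneg hW.le e3
        linarith
      · have := mul_lt_mul_of_pos_left e2 hW
        linarith
    have h2 : ∀ i j, i ≠ j → 1 / ((N : ℝ) + 1) * W ≤ |x i - x j| := by
      intro i j hij
      have e1 : x i - x j = W / (N + 1) * (((i : ℕ) : ℝ) - (j : ℕ)) := by rw [hx]; ring
      have e2 : (1 : ℝ) ≤ |(((i : ℕ) : ℝ) - (j : ℕ))| := by
        have e3 : (1 : ℤ) ≤ |((i : ℕ) : ℤ) - ((j : ℕ) : ℤ)| := by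
          apply Int.one_le_abs
          intro h
          apply hij
          apply Fin.ext
          omega
        have e4 : ((1 : ℤ) : ℝ) ≤ ((|((i : ℕ) : ℤ) - ((j : ℕ) : ℤ)| : ℤ) : ℝ) := by exact_mod_cast e3
        rw [Int.cast_abs] at e4
        push_cast at e4
        exact e4
      rw [e1, abs_mul, abs_of_pos (by positivity : 0 < W / ((N : ℝ) + 1))]
      have e5 : 1 / ((N : ℝ) + 1) * W = W / (N + 1) * 1 := by ring
      rw [e5]
      exact mul_le_mul_of_nonneg_left e2 (by positivity)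
    refine ⟨B * (1 / (1 / ((N : ℝ) + 1))) ^ N * (∑ i, G (x i)), fun s' hs' => ?_⟩
    exact h x (1 / ((N : ℝ) + 1)) _ (by positivity) h1 h2
      (fun i => Finset.single_le_sum (f := fun i => G (x i)) (fun _ _ => hG _) (Finset.mem_univ i)) s' hs'
  obtain ⟨Mb, hMb⟩ := hbd
  set V : Set ℝ := {r | ∃ s ∈ Set.Ico a (a + W), r = G s} with hV
  have hVb : BddAbove V := ⟨Mb, by rintro r ⟨s, hs, rfl⟩; exact hMb s hs⟩
  have hVn : V.Nonempty := ⟨G a, a, haW, rfl⟩
  by_cases h0 : sSup V ≤ 0
  · refine ⟨a, haW, fun s' hs' => ?_⟩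
    have h1 : G s' ≤ sSup V := le_csSup hVb ⟨s', hs', rfl⟩
    have h2 := hG a
    linarith
  · push Not at h0
    obtain ⟨r, ⟨s, hs, rfl⟩, hr⟩ := exists_lt_of_lt_csSup hVn (show sSup V / 2 < sSup V by linarith)
    refine ⟨s, hs, fun s' hs' => ?_⟩
    have h1 : G s' ≤ sSup V := le_csSup hVb ⟨s', hs', rfl⟩
    linarith

open Classical in
/-- TYPICAL VALUE IN ONE COORDINATE -/
theorem tv1 {F : FSp} (A : Setoid F.Ω) (t : F.Ω → ℝ) (a : F.Ω → ℝ) (G : F.Ω → ℝ → ℝ) (N : ℕ) (hN : 0 < N)
    (B κ W δ r d : ℝ) (hκ : 1 ≤ κ) (hδ : 0 < δ) (hWδ : δ ≤ W) (hd : 0 < d) (hd1 : d ≤ 1) (hdW : δ ≤ d * W)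
    (hr : 0 < r) (hrd : 2 * B * κ ^ 2 * r ≤ d ^ N)
    (hG : ∀ ω s, 0 ≤ G ω s) (hmem : ∀ ω, F.μ ω ≠ 0 → t ω ∈ Set.Ico (a ω) (a ω + W))
    (hcl : ∀ ω ω', F.μ ω ≠ 0 → F.μ ω' ≠ 0 → A ω ω' → F.Z ω ω' → a ω' = a ω ∧
      ∀ s ∈ Set.Ico (a ω) (a ω + W), G ω' s ≤ κ * G ω s)
    (hrem : ∀ ω, F.μ ω ≠ 0 → RemI N B (a ω) W (G ω)) :
    F.pb (fun ω => ¬ ∀ s ∈ Set.Ico (a ω) (a ω + W), r * G ω s ≤ G ω (t ω)) * Real.logb 2 (1 / d) ≤
      1 + Real.logb 2 (4 * N * (W / δ)) - F.e (tker t δ) (A ⊓ F.Z) := by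
  classical
  have hW : 0 < W := lt_of_lt_of_le hδ hWδ
  have hN1 : (1 : ℝ) ≤ N := by exact_mod_cast hN
  have hW1 : 1 ≤ W / δ := by rw [one_le_div hδ]; exact hWδ
  set Bad : F.Ω → Prop := fun ω => ¬ ∀ s ∈ Set.Ico (a ω) (a ω + W), r * G ω s ≤ G ω (t ω) with hBad
  set J : F.Ω → ℕ := fun ω => if Bad ω then 1 else 0 with hJ
  set Bq : Setoid F.Ω := A ⊓ F.Z with hBq
  have key := lev_mass' F.μ (Quotient.mk Bq) t 1 J (4 * N * (W / δ)) δ d F.nn F.ms (by positivity) hd (by
      intro ω _
      simp only [hJ]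
      split_ifs <;> omega) (by
    intro ω hω T hT
    by_cases hb : Bad ω
    · have hJ1 : J ω = 1 := if_pos hb
      rw [hJ1, pow_one]
      have hex : ∀ j : ℤ, ∃ w', j ∈ T → (F.μ w' ≠ 0 ∧ J w' = J ω ∧ Quotient.mk Bq w' = Quotient.mk Bq ω ∧
          ⌊t w' / δ⌋ = j) := by
        intro j
        by_cases h : j ∈ T
        · obtain ⟨w', hw'⟩ := hT j h
          exact ⟨w', fun _ => hw'⟩
        · exact ⟨ω, fun h' => absurd h' h⟩
      choose q hq using hex
      have h1 := sep_count N (d * W) δ hδ (by positivity) T (fun j => t (q j)) (fun j hj => (hq j hj).2.2.2) (by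
        rintro ⟨y, hy1, hy2⟩
        obtain ⟨σ, hσ, hσ'⟩ := (hrem ω hω).amax (hG ω) hW
        -- the bad points
        have hbad : ∀ i, t (q (y i)) ∈ Set.Ico (a ω) (a ω + W) ∧ G ω (t (q (y i))) < κ ^ 2 * r * (2 * G ω σ) := by
          intro i
          obtain ⟨b1, b2, b3, -⟩ := hq (y i) (hy1 i)
          have b4 : Bq (q (y i)) ω := Quotient.exact b3
          have b5 : Bad (q (y i)) := by
            by_contra hc
            have hc' : ¬ Bad (q (y i)) := fun h => h hc
            have : J (q (y i)) = 0 := if_neg hc'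
            rw [this, hJ1] at b2
            exact absurd b2 (by omega)
          obtain ⟨c1, c2⟩ := hcl ω (q (y i)) hω b1 (Bq.symm b4).1 (Bq.symm b4).2
          obtain ⟨-, c3⟩ := hcl (q (y i)) ω b1 hω b4.1 b4.2
          have c4 := hmem _ b1
          rw [c1] at c3 c4
          refine ⟨c4, ?_⟩
          simp only [hBad] at b5
          push Not at b5
          obtain ⟨s, hs, hs'⟩ := b5
          rw [c1] at hs
          have d1 := c2 s hs
          have d2 := hσ' s hs
          have d3 := c3 _ c4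
          have hκ0 : 0 < κ := by linarith
          calc G ω (t (q (y i))) ≤ κ * G (q (y i)) (t (q (y i))) := d3
            _ < κ * (r * G (q (y i)) s) := mul_lt_mul_of_pos_left hs' hκ0
            _ ≤ κ * (r * (κ * (2 * G ω σ))) := by
                apply mul_le_mul_of_nonneg_left _ hκ0.le
                apply mul_le_mul_of_nonneg_left _ hr.le
                exact d1.trans (mul_le_mul_of_nonneg_left d2 hκ0.le)
            _ = κ ^ 2 * r * (2 * G ω σ) := by ring
        have hpos : 0 < G ω σ := by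
          have h2 := (hbad 0).2
          have h3 := hG ω (t (q (y 0)))
          by_contra hc
          have h4 : G ω σ = 0 := le_antisymm (not_lt.1 hc) (hG ω σ)
          rw [h4, mul_zero, mul_zero] at h2
          linarith
        have hε : ∃ ε, ε < κ ^ 2 * r * (2 * G ω σ) ∧ ∀ i, G ω (t (q (y i))) ≤ ε := by
          obtain ⟨i0, -, hi0⟩ := Finset.exists_max_image (Finset.univ : Finset (Fin (N + 1)))
            (fun i => G ω (t (q (y i)))) Finset.univ_nonempty
          exact ⟨_, (hbad i0).2, fun i => hi0 i (Finset.mem_univ i)⟩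
        obtain ⟨ε, hε1, hε2⟩ := hε
        have hε0 : 0 ≤ ε := (hG _ _).trans (hε2 0)
        have h5 := hrem ω hω (fun i => t (q (y i))) d ε hd (fun i => (hbad i).1) hy2 hε2 σ hσ
        have h6 : B * (1 / d) ^ N * ε ≤ G ω σ * 1 := by
          by_cases hB : B ≤ 0
          · have : B * (1 / d) ^ N * ε ≤ 0 := mul_nonpos_of_nonpos_of_nonneg
              (mul_nonpos_of_nonpos_of_nonneg hB (by positivity)) hε0
            linarith
          · push Not at hB
            have h7 : B * (1 / d) ^ N * ε ≤ B * (1 / d) ^ N * (κ ^ 2 * r * (2 * G ω σ)) :=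
              mul_le_mul_of_nonneg_left hε1.le (by positivity)
            refine h7.trans ?_
            have h8 : B * (1 / d) ^ N * (κ ^ 2 * r * (2 * G ω σ)) = G ω σ * (2 * B * κ ^ 2 * r / d ^ N) := by
              rw [one_div, inv_pow]
              field_simp
            rw [h8]
            apply mul_le_mul_of_nonneg_left _ hpos.le
            rw [div_le_one (by positivity)]
            exact hrd
        -- strict
        by_cases hB : B ≤ 0
        · have : B * (1 / d) ^ N * ε ≤ 0 := mul_nonpos_of_nonpos_of_nonneg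
            (mul_nonpos_of_nonpos_of_nonneg hB (by positivity)) hε0
          linarith
        · push Not at hB
          have h7 : B * (1 / d) ^ N * ε < B * (1 / d) ^ N * (κ ^ 2 * r * (2 * G ω σ)) :=
            mul_lt_mul_of_pos_left hε1 (by positivity)
          have h8 : B * (1 / d) ^ N * (κ ^ 2 * r * (2 * G ω σ)) = G ω σ * (2 * B * κ ^ 2 * r / d ^ N) := by
            rw [one_div, inv_pow]
            field_simp
          have h9 : G ω σ * (2 * B * κ ^ 2 * r / d ^ N) ≤ G ω σ * 1 := by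
            apply mul_le_mul_of_nonneg_left _ hpos.le
            rw [div_le_one (by positivity)]
            exact hrd
          rw [h8] at h7
          linarith)
      refine h1.trans ?_
      have e1 : 1 ≤ d * W / δ := by rw [one_le_div hδ]; exact hdW
      have e2 : (N : ℝ) * (2 * (d * W / δ) + 2) ≤ N * (4 * (d * W / δ)) :=
        mul_le_mul_of_nonneg_left (by linarith) (by linarith)
      refine e2.trans (le_of_eq ?_)
      ring
    · have hJ0 : J ω = 0 := if_neg hb
      rw [hJ0, pow_zero, mul_one]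
      have h1 := int_count (a ω) W δ hδ hW.le T (by
        intro j hj
        obtain ⟨w', b1, -, b3, b4⟩ := hT j hj
        have b5 : Bq w' ω := Quotient.exact b3
        obtain ⟨c1, -⟩ := hcl ω w' hω b1 (Bq.symm b5).1 (Bq.symm b5).2
        have c4 := hmem _ b1
        rw [c1] at c4
        refine ⟨t w', b4, ?_⟩
        rw [abs_of_nonneg (by linarith [c4.1])]
        linarith [c4.2])
      refine h1.trans ?_
      have h2 : 4 * (W / δ) ≤ 4 * N * (W / δ) := by
        apply mul_le_mul_of_nonneg_right _ (by positivity)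
        linarith
      linarith)
  have e1 : ∑ ω, F.μ ω * (J ω : ℝ) = F.pb Bad := by
    unfold FSp.pb mass
    apply Finset.sum_congr rfl
    intro ω _
    by_cases hb : Bad ω
    · have hJ1 : J ω = 1 := if_pos hb
      rw [hJ1, res_pos _ _ _ hb, Nat.cast_one, mul_one]
    · have hJ0 : J ω = 0 := if_neg hb
      rw [hJ0, res_neg _ _ _ hb, Nat.cast_zero, mul_zero]
  have e2 : CH F.μ (fun ω => ⌊t ω / δ⌋) (Quotient.mk Bq) = F.e (tker t δ) (A ⊓ F.Z) := by
    symm
    apply F.e_congr
    · intro ω ω' _ _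
      exact Iff.rfl
    · intro ω ω' _ _
      exact Quotient.eq.symm
  have e3 : Real.logb 2 (((1 : ℕ) : ℝ) + 1) = 1 := by
    rw [Nat.cast_one, one_add_one_eq_two]
    exact Real.logb_self_eq_one (by norm_num)
  rw [e1, e2, e3] at key
  exact key

end

end Pool.Agent.Helper89.LX
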