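import Pool.Agent.Helper89.MG.Tv
import Pool.Agent.Helper89.MG.Cub
import Pool.Agent.Helper84.MT.Seg

/-! TYPICAL VALUES on cubes: a function which obeys the Remez and Bernstein inequalities along the axis-parallel segments
of the open unit cube about `Y` is typically not much smaller at `Y` than its maximum on a window. -/

set_option autoImplicit false

namespace Pool.Agent.Helper89.LX

open Finset Pool.Agent.Helper69.RK Pool.Agent.Helper3.LF Pool.Agent.Helper31.EC Pool.Agent.Helper40.EL
open Pool.Agent.Helper48.NS (tker)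
open Pool.Agent.Helper84.MT (RemS BmS)

noncomputable section

/-- Remez and Bernstein inequalities along the axis-parallel segments of the open unit cube about `Y` -/
def AxS {e : ℕ} (N : ℕ) (K : ℝ) (Y : Fin e → ℝ) (f : (Fin e → ℝ) → ℝ) : Prop :=
  ∀ y : Fin e → ℝ, (∀ i, |y i - Y i| < 1) → ∀ (j : Fin e) (α β : ℝ), |α - Y j| < 1 → |β - Y j| < 1 →
    RemS N K (fun u => f (Function.update y j (α + u * (β - α)))) ∧
      BmS K (fun u => f (Function.update y j (α + u * (β - α))))

section det
variable {e N : ℕ} {K : ℝ} {Y : Fin e → ℝ} {f : (Fin e → ℝ) → ℝ}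

/-- Remez inequality on one axis-parallel interval -/
theorem AxS.rem (h : AxS N K Y f) (hN : 0 < N) (hK : 0 ≤ K) {y : Fin e → ℝ} (hy : ∀ i, |y i - Y i| < 1) (j : Fin e)
    (x : Fin (N + 1) → ℝ) (u ρ Λ ε : ℝ) (hρ : 0 < ρ) (hx : ∀ i, |x i - Y j| < 1) (hu : |u - Y j| < 1)
    (hsep : ∀ i i', i ≠ i' → ρ ≤ |x i - x i'|) (h1 : ∀ i i', |x i - x i'| ≤ Λ) (h2 : ∀ i, |u - x i| ≤ Λ)
    (hε : ∀ i, |f (Function.update y j (x i))| ≤ ε) : |f (Function.update y j u)| ≤ K * (Λ / ρ) ^ N * ε := by
  classical
  have hε0 : 0 ≤ ε := (abs_nonneg _).trans (hε 0)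
  -- extreme points
  set P : Finset ℝ := insert u (Finset.univ.image x) with hP
  have hPne : P.Nonempty := ⟨u, Finset.mem_insert_self _ _⟩
  have hPm : ∀ p ∈ P, |p - Y j| < 1 := by
    intro p hp
    rcases Finset.mem_insert.1 hp with h3 | h3
    · rw [h3]; exact hu
    · obtain ⟨i, -, rfl⟩ := Finset.mem_image.1 h3
      exact hx i
  have hPd : ∀ p ∈ P, ∀ p' ∈ P, |p - p'| ≤ Λ := by
    have hΛ0 : 0 ≤ Λ := (abs_nonneg _).trans (h1 0 0)
    intro p hp p' hp'
    rcases Finset.mem_insert.1 hp with h3 | h3
    · rcases Finset.mem_insert.1 hp' with h4 | h4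
      · rw [h3, h4, sub_self, abs_zero]; exact hΛ0
      · obtain ⟨i, -, rfl⟩ := Finset.mem_image.1 h4
        rw [h3]; exact h2 i
    · obtain ⟨i, -, rfl⟩ := Finset.mem_image.1 h3
      rcases Finset.mem_insert.1 hp' with h4 | h4
      · rw [h4, abs_sub_comm]; exact h2 i
      · obtain ⟨i', -, rfl⟩ := Finset.mem_image.1 h4
        exact h1 i i'
  set α := P.min' hPne with hα
  set β := P.max' hPne with hβ
  have hαP : α ∈ P := Finset.min'_mem P hPne
  have hβP : β ∈ P := Finset.max'_mem P hPne
  have hxP : ∀ i, x i ∈ P := fun i => Finset.mem_insert_of_mem (Finset.mem_image_of_mem x (Finset.mem_univ i))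
  have huP : u ∈ P := Finset.mem_insert_self _ _
  have hlt : α < β := by
    have h3 := hsep ⟨0, by omega⟩ ⟨1, by omega⟩ (by
      intro h; simpa using congrArg Fin.val h)
    have h4 : (0 : ℝ) < |x ⟨0, by omega⟩ - x ⟨1, by omega⟩| := hρ.trans_le h3
    have a1 := Finset.min'_le P _ (hxP ⟨0, by omega⟩)
    have a2 := Finset.min'_le P _ (hxP ⟨1, by omega⟩)
    have a3 := Finset.le_max' P _ (hxP ⟨0, by omega⟩)
    have a4 := Finset.le_max' P _ (hxP ⟨1, by omega⟩)
    by_contra hc
    push Not at hc
    have a5 : x ⟨0, by omega⟩ = x ⟨1, by omega⟩ := le_antisymm (a3.trans (hc.trans a2)) (a4.trans (hc.trans a1))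
    rw [a5, sub_self, abs_zero] at h4
    exact lt_irrefl _ h4
  have hβα : 0 < β - α := by linarith
  have hle : β - α ≤ Λ := (le_abs_self _).trans (hPd β hβP α hαP)
  have hpar : ∀ p, α + (p - α) / (β - α) * (β - α) = p := by
    intro p
    rw [div_mul_cancel₀ _ hβα.ne']
    ring
  have hin : ∀ p ∈ P, (p - α) / (β - α) ∈ Set.Icc (0 : ℝ) 1 := by
    intro p hp
    have a1 := Finset.min'_le P _ hp
    have a2 := Finset.le_max' P _ hp
    constructor
    · apply div_nonneg _ hβα.le
      linarith
    · rw [div_le_one hβα]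
      linarith
  have key := (h y hy j α β (hPm α hαP) (hPm β hβP)).1 (fun i => (x i - α) / (β - α)) (ρ / (β - α)) ε
    (by positivity) (fun i => hin _ (hxP i)) (by
      intro i i' hii
      have h3 : (x i - α) / (β - α) - (x i' - α) / (β - α) = (x i - x i') / (β - α) := by
        rw [← sub_div]; congr 1; ring
      show ρ / (β - α) ≤ |(x i - α) / (β - α) - (x i' - α) / (β - α)|
      rw [h3, abs_div, abs_of_pos hβα]
      exact div_le_div_of_nonneg_right (hsep i i' hii) hβα.le) (by
      intro i
      show |f (Function.update y j (α + (x i - α) / (β - α) * (β - α)))| ≤ ε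
      rw [hpar]
      exact hε i) ((u - α) / (β - α)) (hin u huP)
  have key' : |f (Function.update y j (α + (u - α) / (β - α) * (β - α)))| ≤ K * (1 / (ρ / (β - α))) ^ N * ε := key
  rw [hpar] at key'
  refine key'.trans ?_
  apply mul_le_mul_of_nonneg_right _ hε0
  apply mul_le_mul_of_nonneg_left _ hK
  apply pow_le_pow_left₀ (by positivity)
  rw [one_div, inv_div]
  exact div_le_div_of_nonneg_right hle hρ.le

/-- the constant of the extension from a grid -/
def extC (N : ℕ) (K : ℝ) : ℝ := K * (2 * ((N : ℝ) + 1)) ^ N

theorem extC_one {N : ℕ} {K : ℝ} (hK : 1 ≤ K) : 1 ≤ extC N K := by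
  unfold extC
  have : (0 : ℝ) ≤ N := Nat.cast_nonneg N
  exact one_le_mul_of_one_le_of_one_le hK (one_le_pow₀ (by linarith))

/-- EXTENSION from sets which contain a grid of the window -/
theorem AxS.ext (h : AxS N K Y f) (hN : 0 < N) (hK : 1 ≤ K) {W : ℝ} (hW0 : 0 < W) (hW : W ≤ 1) (a : Fin e → ℝ)
    (ha : ∀ i, Y i ∈ Set.Ico (a i) (a i + W)) (X : Fin e → Set ℝ) (hX : ∀ i, X i ⊆ Set.Ico (a i) (a i + W))
    (hg : ∀ i (m : Fin (N + 1)), a i + W * ((m : ℕ) / (N + 1)) ∈ X i) (A : ℝ)
    (hA : ∀ g : Fin e → ℝ, (∀ i, g i ∈ X i) → |f g| ≤ A) (y : Fin e → ℝ) (hy : ∀ i, |y i - Y i| < W) :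
    |f y| ≤ extC N K ^ e * A := by
  classical
  have hC := extC_one (N := N) hK
  have hN' : (0 : ℝ) < (N : ℝ) + 1 := by positivity
  have hXY : ∀ i, ∀ p ∈ X i, |p - Y i| < W := by
    intro i p hp
    have h1 := hX i hp
    have h2 := ha i
    rw [abs_lt]
    constructor <;> linarith [h1.1, h1.2, h2.1, h2.2]
  have key : ∀ s : Finset (Fin e), ∀ y : Fin e → ℝ, (∀ i ∈ s, |y i - Y i| < W) → (∀ i, i ∉ s → y i ∈ X i) →
      |f y| ≤ extC N K ^ s.card * A := by
    intro s
    induction s using Finset.induction_on with
    | empty =>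
      intro y _ h2
      rw [Finset.card_empty, pow_zero, one_mul]
      exact hA y fun i => h2 i (Finset.notMem_empty i)
    | insert j s hj ih =>
      intro y h1 h2
      have hA0 : 0 ≤ A := (abs_nonneg _).trans (hA (fun i => a i + W * (((0 : Fin (N + 1)) : ℕ) / (N + 1))) fun i => hg i 0)
      set x : Fin (N + 1) → ℝ := fun m => a j + W * ((m : ℕ) / (N + 1)) with hx
      have h3 : ∀ m, |f (Function.update y j (x m))| ≤ extC N K ^ s.card * A := by
        intro m
        apply ih
        · intro i hi
          have hij : i ≠ j := fun h => hj (h ▸ hi)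
          rw [Function.update_of_ne hij]
          exact h1 i (Finset.mem_insert_of_mem hi)
        · intro i hi
          by_cases hij : i = j
          · subst hij
            rw [Function.update_self]
            exact hg i m
          · rw [Function.update_of_ne hij]
            apply h2
            intro h
            rcases Finset.mem_insert.1 h with h4 | h4
            · exact hij h4
            · exact hi h4
      have hyY : ∀ i, |y i - Y i| < 1 := by
        intro i
        by_cases hi : i ∈ insert j s
        · exact (h1 i hi).trans_le hW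
        · exact (hXY i _ (h2 i hi)).trans_le hW
      have hxx : ∀ m, |x m - Y j| < W := fun m => hXY j _ (hg j m)
      have hyj : |y j - Y j| < W := h1 j (Finset.mem_insert_self _ _)
      have h4 := h.rem hN (by linarith) hyY j x (y j) (W / (N + 1)) (2 * W) (extC N K ^ s.card * A) (by positivity)
        (fun m => (hxx m).trans_le hW) (hyj.trans_le hW) (by
          intro i i' hii
          have e1 : x i - x i' = W / (N + 1) * (((i : ℕ) : ℝ) - (i' : ℕ)) := by rw [hx]; ring
          have e2 : (1 : ℝ) ≤ |(((i : ℕ) : ℝ) - (i' : ℕ))| := by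
            have e3 : (1 : ℤ) ≤ |((i : ℕ) : ℤ) - ((i' : ℕ) : ℤ)| := by
              apply Int.one_le_abs
              intro h
              apply hii
              apply Fin.ext
              omega
            have e4 : ((1 : ℤ) : ℝ) ≤ ((|((i : ℕ) : ℤ) - ((i' : ℕ) : ℤ)| : ℤ) : ℝ) := by exact_mod_cast e3
            rw [Int.cast_abs] at e4
            push_cast at e4
            exact e4
          rw [e1, abs_mul, abs_of_pos (by positivity : 0 < W / ((N : ℝ) + 1))]
          exact le_mul_of_one_le_right (by positivity) e2) (by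
          intro i i'
          have a1 := abs_lt.1 (hxx i)
          have a2 := abs_lt.1 (hxx i')
          rw [abs_le]
          constructor <;> linarith [a1.1, a1.2, a2.1, a2.2]) (by
          intro i
          have a1 := abs_lt.1 (hxx i)
          have a2 := abs_lt.1 hyj
          rw [abs_le]
          constructor <;> linarith [a1.1, a1.2, a2.1, a2.2]) h3
      rw [Function.update_eq_self] at h4
      have e5 : 2 * W / (W / ((N : ℝ) + 1)) = 2 * ((N : ℝ) + 1) := by field_simp
      rw [e5] at h4
      rw [Finset.card_insert_of_notMem hj, pow_succ]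
      refine h4.trans (le_of_eq ?_)
      unfold extC
      ring
  have h1 := key Finset.univ y (fun i _ => hy i) (fun i hi => absurd (Finset.mem_univ i) hi)
  rwa [Finset.card_univ, Fintype.card_fin] at h1

/-- BERNSTEIN: a point close to `Y` -/
theorem AxS.bern (h : AxS N K Y f) {W δ : ℝ} (hW : W ≤ 1) (hδ : 0 < δ) (hδW : 2 * δ ≤ W) (A : ℝ)
    (hA : ∀ y : Fin e → ℝ, (∀ i, |y i - Y i| < W) → |f y| ≤ A) (y : Fin e → ℝ) (hy : ∀ i, |y i - Y i| ≤ δ) :
    |f y - f Y| ≤ e * (K * (2 * δ / W) * A) := by
  classical
  have hW0 : 0 < W := by linarith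
  have hA0 : 0 ≤ A := (abs_nonneg _).trans (hA Y fun i => by rw [sub_self, abs_zero]; exact hW0)
  have key : ∀ s : Finset (Fin e), |f (fun i => if i ∈ s then y i else Y i) - f Y| ≤ s.card * (K * (2 * δ / W) * A) := by
    intro s
    induction s using Finset.induction_on with
    | empty => simp
    | insert j s hj ih =>
      set w : Fin e → ℝ := fun i => if i ∈ s then y i else Y i with hw
      have hwY : ∀ i, |w i - Y i| ≤ δ := by
        intro i
        show |(if i ∈ s then y i else Y i) - Y i| ≤ δ
        split_ifs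
        · exact hy i
        · rw [sub_self, abs_zero]; exact hδ.le
      have e1 : (fun i => if i ∈ insert j s then y i else Y i) = Function.update w j (y j) := by
        funext i
        by_cases hij : i = j
        · subst hij
          rw [Function.update_self]
          simp
        · rw [Function.update_of_ne hij, hw]
          simp [hij]
      have hwj : w j = Y j := by rw [hw]; simp [hj]
      have e2 : w = Function.update w j (Y j) := by
        rw [← hwj, Function.update_eq_self]
      set D := y j - Y j with hD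
      have hDδ : |D| ≤ δ := hy j
      -- the segment from `Y j` to `Y j + (W / (2 δ)) D`
      have hβ : |Y j + W / (2 * δ) * D - Y j| < W := by
        rw [add_sub_cancel_left, abs_mul, abs_of_pos (by positivity : 0 < W / (2 * δ))]
        have : W / (2 * δ) * |D| ≤ W / (2 * δ) * δ := mul_le_mul_of_nonneg_left hDδ (by positivity)
        have e3 : W / (2 * δ) * δ = W / 2 := by field_simp
        linarith
      have h3 := (h w (fun i => lt_of_le_of_lt (hwY i) (by linarith)) j (Y j) (Y j + W / (2 * δ) * D)
        (by rw [sub_self, abs_zero]; exact one_pos) (hβ.trans_le hW)).2 A (by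
          intro u hu
          apply hA
          intro i
          by_cases hij : i = j
          · subst hij
            rw [Function.update_self]
            have e4 : Y i + u * (Y i + W / (2 * δ) * D - Y i) - Y i = u * (Y i + W / (2 * δ) * D - Y i) := by ring
            rw [e4, abs_mul, abs_of_nonneg hu.1]
            exact lt_of_le_of_lt (mul_le_of_le_one_left (abs_nonneg _) hu.2) hβ
          · rw [Function.update_of_ne hij]
            exact lt_of_le_of_lt (hwY i) (by linarith)) (2 * δ / W) ⟨by positivity, by
              rw [div_le_one hW0]; exact hδW⟩ 0 ⟨le_rfl, zero_le_one⟩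
      have h4 : |f (Function.update w j (Y j + 2 * δ / W * (Y j + W / (2 * δ) * D - Y j))) -
          f (Function.update w j (Y j + 0 * (Y j + W / (2 * δ) * D - Y j)))| ≤ K * |2 * δ / W - 0| * A := h3
      have e5 : Y j + 2 * δ / W * (Y j + W / (2 * δ) * D - Y j) = y j := by
        rw [hD]
        field_simp
        ring
      have e6 : Y j + 0 * (Y j + W / (2 * δ) * D - Y j) = Y j := by ring
      rw [e5, e6, ← e2, sub_zero, abs_of_pos (by positivity : 0 < 2 * δ / W)] at h4
      rw [e1, Finset.card_insert_of_notMem hj]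
      push_cast
      have e7 : f (Function.update w j (y j)) - f Y = (f (Function.update w j (y j)) - f w) + (f w - f Y) := by ring
      rw [e7]
      refine (abs_add_le _ _).trans ?_
      linarith
  have h1 := key Finset.univ
  have e1 : (fun i => if i ∈ (Finset.univ : Finset (Fin e)) then y i else Y i) = y := by funext i; simp
  rw [e1, Finset.card_univ, Fintype.card_fin] at h1
  exact h1

end det

end

end Pool.Agent.Helper89.LX
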