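import Pool.Agent.Helper89.MG.Tvc

/-! TYPICAL VALUES on cubes, the probabilistic step: all coordinates. -/

set_option autoImplicit false

namespace Pool.Agent.Helper89.LX

open Finset Pool.Agent.Helper69.RK Pool.Agent.Helper3.LF Pool.Agent.Helper31.EC Pool.Agent.Helper40.EL
open Pool.Agent.Helper48.NS (tker)
open Pool.Agent.Helper84.MT (RemS BmS)

noncomputable section

theorem floor_div_iff {W : ℝ} (hW : 0 < W) (p : ℝ) (z : ℤ) : ⌊p / W⌋ = z ↔ p ∈ Set.Ico (W * z) (W * z + W) := by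
  rw [Int.floor_eq_iff, le_div_iff₀ hW, div_lt_iff₀ hW, Set.mem_Ico]
  constructor
  · rintro ⟨h1, h2⟩
    constructor <;> nlinarith
  · rintro ⟨h1, h2⟩
    constructor <;> nlinarith

/-- hypotheses of the typical value theorem on a finite space -/
structure TvH (F : FSp) (e N : ℕ) (Y : F.Ω → Fin e → ℝ) (A : Setoid F.Ω) (W δ K κ : ℝ)
    (f : F.Ω → (Fin e → ℝ) → ℝ) : Prop where
  hN : 0 < N
  hK : 1 ≤ K
  hκ : 1 ≤ κ
  hδ : 0 < δ
  hδW : 2 * δ ≤ W
  hW : W ≤ 1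
  ax : ∀ ω, F.μ ω ≠ 0 → AxS N K (Y ω) (f ω)
  cl : ∀ ω ω', F.μ ω ≠ 0 → F.μ ω' ≠ 0 → F.Z ω ω' → A ω ω' → (∀ i, ⌊Y ω i / W⌋ = ⌊Y ω' i / W⌋) →
    ∀ y : Fin e → ℝ, (∀ i, ⌊y i / W⌋ = ⌊Y ω i / W⌋) → |f ω' y| ≤ κ * |f ω y|

namespace TvH

variable {F : FSp} {e N : ℕ} {Y : F.Ω → Fin e → ℝ} {A : Setoid F.Ω} {W δ K κ : ℝ} {f : F.Ω → (Fin e → ℝ) → ℝ}
  (H : TvH F e N Y A W δ K κ f)

include H

theorem W0 : 0 < W := by linarith [H.hδ, H.hδW]

/-- the constant -/
theorem bdd (ω : F.Ω) (hω : F.μ ω ≠ 0) : ∃ Mb, ∀ y : Fin e → ℝ, (∀ i, |y i - Y ω i| < W) → |f ω y| ≤ Mb := by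
  classical
  have hW0 := H.W0
  have hN' : (0 : ℝ) < (N : ℝ) + 1 := by positivity
  set a : Fin e → ℝ := fun i => W * ⌊Y ω i / W⌋ with ha
  set gr : (Fin e → Fin (N + 1)) → Fin e → ℝ := fun φ i => a i + W * (((φ i : Fin (N + 1)) : ℕ) / (N + 1)) with hgr
  refine ⟨_, fun y hy => (H.ax ω hω).ext H.hN H.hK hW0 H.hW a (fun i => (floor_div_iff hW0 _ _).1 rfl)
    (fun i => {p | ∃ m : Fin (N + 1), p = a i + W * ((m : ℕ) / (N + 1))}) ?_ (fun i m => ⟨m, rfl⟩)
    (∑ φ, |f ω (gr φ)|) ?_ y hy⟩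
  · rintro i p ⟨m, rfl⟩
    have e2 : ((m : ℕ) : ℝ) / (N + 1) < 1 := by
      rw [div_lt_one hN']
      have : ((m : ℕ) : ℝ) ≤ N := Nat.cast_le.2 (Nat.le_of_lt_succ m.2)
      linarith
    have e3 : (0 : ℝ) ≤ ((m : ℕ) : ℝ) / (N + 1) := by positivity
    constructor
    · have := mul_nonneg hW0.le e3
      linarith
    · have := mul_lt_mul_of_pos_left e2 hW0
      linarith
  · intro g hg
    choose φ hφ using hg
    have e1 : g = gr φ := by
      funext i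
      exact hφ i
    rw [e1]
    exact Finset.single_le_sum (f := fun φ => |f ω (gr φ)|) (fun _ _ => abs_nonneg _) (Finset.mem_univ φ)

omit H in
variable (Y W δ) in
/-- the coordinates in `s` are free in the window, the others in the small cell -/
def Rg (ω : F.Ω) (s : Finset (Fin e)) : Set (Fin e → ℝ) :=
  {y | (∀ i, ⌊y i / W⌋ = ⌊Y ω i / W⌋) ∧ ∀ i, i ∉ s → ⌊y i / δ⌋ = ⌊Y ω i / δ⌋}

omit H in
theorem Y_mem_Rg (ω : F.Ω) (s : Finset (Fin e)) : Y ω ∈ Rg Y W δ ω s := ⟨fun _ => rfl, fun _ _ => rfl⟩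

theorem win_lt {ω : F.Ω} {y : Fin e → ℝ} (hy : ∀ i, ⌊y i / W⌋ = ⌊Y ω i / W⌋) (i : Fin e) : |y i - Y ω i| < W := by
  have hW0 := H.W0
  have h1 := (floor_div_iff hW0 (y i) _).1 (hy i)
  have h2 := (floor_div_iff hW0 (Y ω i) _).1 rfl
  rw [abs_lt]
  constructor <;> linarith [h1.1, h1.2, h2.1, h2.2]

omit H in
variable (Y W δ f) in
/-- the maximum on the region -/
def Sm (ω : F.Ω) (s : Finset (Fin e)) : ℝ := sSup ((fun y => |f ω y|) '' Rg Y W δ ω s)

omit H in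
variable (Y W δ f) in
/-- the maximum on a slice of the region -/
def Gm (ω : F.Ω) (s : Finset (Fin e)) (j : Fin e) (u : ℝ) : ℝ :=
  sSup ((fun y => |f ω (Function.update y j u)|) '' Rg Y W δ ω s)

omit H in
theorem Rg_upd {ω : F.Ω} {s : Finset (Fin e)} {y : Fin e → ℝ} (hy : y ∈ Rg Y W δ ω s) {j : Fin e} {u : ℝ}
    (hu : ⌊u / W⌋ = ⌊Y ω j / W⌋) (i : Fin e) : ⌊Function.update y j u i / W⌋ = ⌊Y ω i / W⌋ := by
  by_cases h : i = j
  · subst h
    rw [Function.update_self]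
    exact hu
  · rw [Function.update_of_ne h]
    exact hy.1 i

theorem Sm_bdd {ω : F.Ω} (hω : F.μ ω ≠ 0) (s : Finset (Fin e)) :
    BddAbove ((fun y => |f ω y|) '' Rg Y W δ ω s) := by
  obtain ⟨Mb, hM⟩ := H.bdd ω hω
  refine ⟨Mb, ?_⟩
  rintro r ⟨y, hy, rfl⟩
  exact hM y (H.win_lt hy.1)

theorem Gm_bdd {ω : F.Ω} (hω : F.μ ω ≠ 0) (s : Finset (Fin e)) (j : Fin e) {u : ℝ} (hu : ⌊u / W⌋ = ⌊Y ω j / W⌋) :
    BddAbove ((fun y => |f ω (Function.update y j u)|) '' Rg Y W δ ω s) := by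
  obtain ⟨Mb, hM⟩ := H.bdd ω hω
  refine ⟨Mb, ?_⟩
  rintro r ⟨y, hy, rfl⟩
  exact hM _ (H.win_lt (Rg_upd hy hu))

omit H in
theorem Gm_nonneg (ω : F.Ω) (s : Finset (Fin e)) (j : Fin e) (u : ℝ) : 0 ≤ Gm Y W δ f ω s j u := by
  apply Real.sSup_nonneg
  rintro r ⟨y, -, rfl⟩
  exact abs_nonneg _

omit H in
theorem Sm_nonneg (ω : F.Ω) (s : Finset (Fin e)) : 0 ≤ Sm Y W δ f ω s := by
  apply Real.sSup_nonneg
  rintro r ⟨y, -, rfl⟩
  exact abs_nonneg _

theorem le_Sm {ω : F.Ω} (hω : F.μ ω ≠ 0) {s : Finset (Fin e)} {y : Fin e → ℝ} (hy : y ∈ Rg Y W δ ω s) :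
    |f ω y| ≤ Sm Y W δ f ω s := le_csSup (H.Sm_bdd hω s) ⟨y, hy, rfl⟩

theorem le_Gm {ω : F.Ω} (hω : F.μ ω ≠ 0) {s : Finset (Fin e)} {y : Fin e → ℝ} (hy : y ∈ Rg Y W δ ω s) (j : Fin e)
    {u : ℝ} (hu : ⌊u / W⌋ = ⌊Y ω j / W⌋) : |f ω (Function.update y j u)| ≤ Gm Y W δ f ω s j u :=
  le_csSup (H.Gm_bdd hω s j hu) ⟨y, hy, rfl⟩

omit H in
theorem Gm_le {ω : F.Ω} {s : Finset (Fin e)} {j : Fin e} {u A' : ℝ}
    (h : ∀ y ∈ Rg Y W δ ω s, |f ω (Function.update y j u)| ≤ A') : Gm Y W δ f ω s j u ≤ A' := by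
  have hne : ((fun y => |f ω (Function.update y j u)|) '' Rg Y W δ ω s).Nonempty := ⟨_, Y ω, Y_mem_Rg ω s, rfl⟩
  apply csSup_le hne
  rintro r ⟨y, hy, rfl⟩
  exact h y hy

omit H in
theorem Sm_le {ω : F.Ω} {s : Finset (Fin e)} {A' : ℝ} (h : ∀ y ∈ Rg Y W δ ω s, |f ω y| ≤ A') :
    Sm Y W δ f ω s ≤ A' := by
  have hne : ((fun y => |f ω y|) '' Rg Y W δ ω s).Nonempty := ⟨_, Y ω, Y_mem_Rg ω s, rfl⟩
  apply csSup_le hne
  rintro r ⟨y, hy, rfl⟩
  exact h y hy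

/-- Remez for the maximum on slices -/
theorem Gm_rem {ω : F.Ω} (hω : F.μ ω ≠ 0) (s : Finset (Fin e)) (j : Fin e) :
    RemI N K (W * ⌊Y ω j / W⌋) W (Gm Y W δ f ω s j) := by
  have hW0 := H.W0
  intro x d ε hd hx hsep hε u hu
  have hxW : ∀ i, ⌊x i / W⌋ = ⌊Y ω j / W⌋ := fun i => (floor_div_iff hW0 _ _).2 (hx i)
  have huW : ⌊u / W⌋ = ⌊Y ω j / W⌋ := (floor_div_iff hW0 _ _).2 hu
  have hYj := (floor_div_iff hW0 (Y ω j) _).1 rfl
  have hdist : ∀ p q : ℝ, p ∈ Set.Ico (W * ⌊Y ω j / W⌋) (W * ⌊Y ω j / W⌋ + W) →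
      q ∈ Set.Ico (W * ⌊Y ω j / W⌋) (W * ⌊Y ω j / W⌋ + W) → |p - q| < W := by
    intro p q hp hq
    rw [abs_lt]
    constructor <;> linarith [hp.1, hp.2, hq.1, hq.2]
  apply Gm_le
  intro y hy
  have h1 := (H.ax ω hω).rem H.hN (by linarith [H.hK]) (y := y) (fun i => (H.win_lt hy.1 i).trans_le H.hW) j x u
    (d * W) W ε (by positivity) (fun i => (hdist _ _ (hx i) hYj).trans_le H.hW) ((hdist _ _ hu hYj).trans_le H.hW)
    hsep (fun i i' => (hdist _ _ (hx i) (hx i')).le) (fun i => (hdist _ _ hu (hx i)).le)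
    (fun i => (H.le_Gm hω hy j (hxW i)).trans (hε i))
  have e1 : W / (d * W) = 1 / d := by field_simp
  rwa [e1] at h1

/-- the partition for the coordinate `j` -/
theorem Gm_cl {ω ω' : F.Ω} (hω : F.μ ω ≠ 0) (hω' : F.μ ω' ≠ 0) (s : Finset (Fin e)) (j : Fin e)
    (hZ : F.Z ω ω') (hA : A ω ω') (hc : ∀ i, ⌊Y ω i / W⌋ = ⌊Y ω' i / W⌋)
    (hd : ∀ i, i ≠ j → ⌊Y ω i / δ⌋ = ⌊Y ω' i / δ⌋) {u : ℝ} (hu : ⌊u / W⌋ = ⌊Y ω j / W⌋) :
    Gm Y W δ f ω' s j u ≤ κ * Gm Y W δ f ω s j u := by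
  apply Gm_le
  intro y hy
  -- the point of the region of `ω`
  set y' : Fin e → ℝ := Function.update y j (Y ω j) with hy'
  have h1 : y' ∈ Rg Y W δ ω s := by
    constructor
    · intro i
      by_cases h : i = j
      · subst h; rw [hy', Function.update_self]
      · rw [hy', Function.update_of_ne h, hc i]
        exact hy.1 i
    · intro i hi
      by_cases h : i = j
      · subst h; rw [hy', Function.update_self]
      · rw [hy', Function.update_of_ne h, hd i h]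
        exact hy.2 i hi
  have h2 : Function.update y' j u = Function.update y j u := by
    rw [hy', Function.update_idem]
  have h3 := H.cl ω ω' hω hω' hZ hA hc (Function.update y j u) (by
    intro i
    rw [← h2]
    exact Rg_upd h1 hu i)
  refine h3.trans ?_
  apply mul_le_mul_of_nonneg_left _ (by linarith [H.hκ])
  rw [← h2]
  exact H.le_Gm hω h1 j hu

/-- the step -/
theorem step_Sm {ω : F.Ω} (hω : F.μ ω ≠ 0) {s : Finset (Fin e)} {j : Fin e} {r : ℝ} (hr : 0 < r)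
    (h : ∀ u ∈ Set.Ico (W * ⌊Y ω j / W⌋) (W * ⌊Y ω j / W⌋ + W), r * Gm Y W δ f ω s j u ≤ Gm Y W δ f ω s j (Y ω j)) :
    r * Sm Y W δ f ω (insert j s) ≤ Sm Y W δ f ω s := by
  have hW0 := H.W0
  have h1 : Sm Y W δ f ω (insert j s) ≤ Gm Y W δ f ω s j (Y ω j) / r := by
    apply Sm_le
    intro y hy
    rw [le_div_iff₀ hr, mul_comm]
    set y' : Fin e → ℝ := Function.update y j (Y ω j) with hy'
    have h2 : y' ∈ Rg Y W δ ω s := by
      constructor
      · intro i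
        by_cases hi : i = j
        · subst hi; rw [hy', Function.update_self]
        · rw [hy', Function.update_of_ne hi]
          exact hy.1 i
      · intro i hi
        by_cases hij : i = j
        · subst hij; rw [hy', Function.update_self]
        · rw [hy', Function.update_of_ne hij]
          exact hy.2 i (fun hc => by
            rcases Finset.mem_insert.1 hc with h3 | h3
            · exact hij h3
            · exact hi h3)
    have h3 : Function.update y' j (y j) = y := by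
      rw [hy', Function.update_idem, Function.update_eq_self]
    have h4 := H.le_Gm hω h2 j (hy.1 j)
    rw [h3] at h4
    refine (mul_le_mul_of_nonneg_left h4 hr.le).trans ?_
    exact h _ ((floor_div_iff hW0 _ _).1 (hy.1 j))
  rw [le_div_iff₀ hr, mul_comm] at h1
  refine h1.trans ?_
  apply Gm_le
  intro y hy
  apply H.le_Sm hω
  constructor
  · exact Rg_upd hy rfl
  · intro i hi
    by_cases hij : i = j
    · subst hij
      rw [Function.update_self]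
    · rw [Function.update_of_ne hij]
      exact hy.2 i hi

/-- one coordinate -/
theorem step_pb (s : Finset (Fin e)) (j : Fin e) {r d : ℝ} (hd : 0 < d) (hdW : δ ≤ d * W)
    (hr : 0 < r) (hrd : 2 * K * κ ^ 2 * r ≤ d ^ N) :
    F.pb (fun ω => ¬ r * Sm Y W δ f ω (insert j s) ≤ Sm Y W δ f ω s) * Real.logb 2 (1 / d) ≤
      max 0 (1 + Real.logb 2 (4 * N * (W / δ)) - F.e (Setoid.ker (fun ω => ⌊Y ω j / δ⌋))
        ((Setoid.ker (fun ω (i : ((univ : Finset (Fin e)).erase j)) => ⌊Y ω i / δ⌋) ⊓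
          (A ⊓ Setoid.ker (fun ω i => ⌊Y ω i / W⌋))) ⊓ F.Z)) := by
  classical
  have hW0 := H.W0
  by_cases hd1 : d ≤ 1
  swap
  · have h1 : Real.logb 2 (1 / d) ≤ 0 := by
      rw [one_div, Real.logb_inv]
      have := Real.logb_nonneg (b := 2) (by norm_num) (not_le.1 hd1).le
      linarith
    exact (mul_nonpos_of_nonneg_of_nonpos (F.pb_nonneg _) h1).trans (le_max_left _ _)
  refine le_trans ?_ (le_max_right _ _)
  set Aj : Setoid F.Ω := Setoid.ker (fun ω (i : ((univ : Finset (Fin e)).erase j)) => ⌊Y ω i / δ⌋) ⊓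
    (A ⊓ Setoid.ker (fun ω i => ⌊Y ω i / W⌋)) with hAj
  have hcls : ∀ ω ω', Aj ω ω' → A ω ω' ∧ (∀ i, ⌊Y ω i / W⌋ = ⌊Y ω' i / W⌋) ∧
      ∀ i, i ≠ j → ⌊Y ω i / δ⌋ = ⌊Y ω' i / δ⌋ := by
    intro ω ω' h
    refine ⟨h.2.1, fun i => congrFun h.2.2 i, fun i hi => ?_⟩
    exact congrFun h.1 ⟨i, Finset.mem_erase.2 ⟨hi, Finset.mem_univ i⟩⟩
  have h1 := tv1 (F := F) Aj (fun ω => Y ω j) (fun ω => W * ⌊Y ω j / W⌋) (fun ω u => Gm Y W δ f ω s j u) N H.hN K κ
    W δ r d H.hκ H.hδ (by linarith [H.hδ, H.hδW]) hd hd1 hdW hr hrd (fun ω u => Gm_nonneg ω s j u)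
    (fun ω _ => (floor_div_iff hW0 _ _).1 rfl) (by
      intro ω ω' hω hω' hA hZ
      obtain ⟨c1, c2, c3⟩ := hcls ω ω' hA
      refine ⟨by simp only [c2 j], fun u hu => ?_⟩
      exact H.Gm_cl hω hω' s j hZ c1 c2 c3 ((floor_div_iff hW0 _ _).2 hu)) (fun ω hω => H.Gm_rem hω s j)
  refine le_trans ?_ h1
  apply mul_le_mul_of_nonneg_right
  · apply FSp.pb_mono
    intro ω hω h2 h3
    exact h2 (H.step_Sm hω hr h3)
  · apply Real.logb_nonneg (by norm_num)
    rw [le_div_iff₀ hd, one_mul]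
    exact hd1

/-- TYPICAL VALUES, finite form: if each coordinate has almost full entropy -/
theorem typ {r d p : ℝ} (hd : 0 < d) (hd1 : d < 1) (hdW : δ ≤ d * W)
    (hr : 0 < r) (hrd : 2 * K * κ ^ 2 * r ≤ d ^ N) (hp0 : 0 ≤ p)
    (hp : ∀ j, 1 + Real.logb 2 (4 * N * (W / δ)) - F.e (Setoid.ker (fun ω => ⌊Y ω j / δ⌋))
        ((Setoid.ker (fun ω (i : ((univ : Finset (Fin e)).erase j)) => ⌊Y ω i / δ⌋) ⊓
          (A ⊓ Setoid.ker (fun ω i => ⌊Y ω i / W⌋))) ⊓ F.Z) ≤ p * Real.logb 2 (1 / d)) :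
    F.pb (fun ω => ¬ ∀ y : Fin e → ℝ, (∀ i, |y i - Y ω i| < W) →
      (r ^ e - 2 * e * K * extC N K ^ e * (δ / W)) * |f ω y| ≤ extC N K ^ e * |f ω (Y ω)|) ≤ e * p := by
  classical
  have hW0 := H.W0
  have hlog : 0 < Real.logb 2 (1 / d) := by
    apply Real.logb_pos (by norm_num)
    rw [lt_div_iff₀ hd, one_mul]
    exact hd1
  have hC := extC_one (N := N) H.hK
  have hCe : 1 ≤ extC N K ^ e := one_le_pow₀ hC
  -- all coordinates
  have hall : ∀ s : Finset (Fin e), F.pb (fun ω => ¬ r ^ s.card * Sm Y W δ f ω s ≤ Sm Y W δ f ω ∅) ≤ s.card * p := by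
    intro s
    induction s using Finset.induction_on with
    | empty =>
      have h0 : F.pb (fun ω => ¬ r ^ (∅ : Finset (Fin e)).card * Sm Y W δ f ω ∅ ≤ Sm Y W δ f ω ∅) ≤
          F.pb (fun _ => False) := by
        apply FSp.pb_mono
        intro ω _ h
        apply h
        rw [Finset.card_empty, pow_zero, one_mul]
      have h1 : F.pb (fun _ => False) = 0 := by
        unfold FSp.pb mass
        apply Finset.sum_eq_zero
        intro ω _
        exact res_neg _ _ _ not_false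
      refine (h0.trans h1.le).trans (le_of_eq ?_)
      rw [Finset.card_empty, Nat.cast_zero, zero_mul]
    | insert j s hj ih =>
      have h1 := H.step_pb s j hd hdW hr hrd
      have h2 : F.pb (fun ω => ¬ r * Sm Y W δ f ω (insert j s) ≤ Sm Y W δ f ω s) ≤ p := by
        have h3 := h1.trans (max_le (by positivity) (hp j))
        exact le_of_mul_le_mul_right h3 hlog
      rw [Finset.card_insert_of_notMem hj]
      have h3 : F.pb (fun ω => ¬ r ^ (s.card + 1) * Sm Y W δ f ω (insert j s) ≤ Sm Y W δ f ω ∅) ≤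
          F.pb (fun ω => ¬ r * Sm Y W δ f ω (insert j s) ≤ Sm Y W δ f ω s) +
            F.pb (fun ω => ¬ r ^ s.card * Sm Y W δ f ω s ≤ Sm Y W δ f ω ∅) := by
        refine le_trans (FSp.pb_mono _ (E' := fun ω => (¬ r * Sm Y W δ f ω (insert j s) ≤ Sm Y W δ f ω s) ∨
          ¬ r ^ s.card * Sm Y W δ f ω s ≤ Sm Y W δ f ω ∅) ?_) (pb_or _ _ _)
        intro ω _ h4
        by_contra hc
        push Not at hc
        apply h4
        rw [pow_succ, mul_assoc]
        exact (mul_le_mul_of_nonneg_left hc.1 (by positivity)).trans hc.2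
      push_cast
      linarith
  have h1 := hall Finset.univ
  rw [Finset.card_univ, Fintype.card_fin] at h1
  refine le_trans (FSp.pb_mono _ ?_) h1
  intro ω hω h2 h3
  apply h2
  intro y hy
  set Su := Sm Y W δ f ω Finset.univ with hSu
  have hSu0 : 0 ≤ Su := Sm_nonneg ω _
  -- all points of the open cube
  have hcube : ∀ y : Fin e → ℝ, (∀ i, |y i - Y ω i| < W) → |f ω y| ≤ extC N K ^ e * Su := by
    intro y hy
    refine (H.ax ω hω).ext H.hN H.hK hW0 H.hW (fun i => W * ⌊Y ω i / W⌋) (fun i => (floor_div_iff hW0 _ _).1 rfl)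
      (fun i => Set.Ico (W * ⌊Y ω i / W⌋) (W * ⌊Y ω i / W⌋ + W)) (fun i => le_rfl) ?_ Su ?_ y hy
    · intro i m
      have hN' : (0 : ℝ) < (N : ℝ) + 1 := by positivity
      have e2 : ((m : ℕ) : ℝ) / (N + 1) < 1 := by
        rw [div_lt_one hN']
        have : ((m : ℕ) : ℝ) ≤ N := Nat.cast_le.2 (Nat.le_of_lt_succ m.2)
        linarith
      have e3 : (0 : ℝ) ≤ ((m : ℕ) : ℝ) / (N + 1) := by positivity
      constructor
      · have := mul_nonneg hW0.le e3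
        linarith
      · have := mul_lt_mul_of_pos_left e2 hW0
        linarith
    · intro g hg
      exact H.le_Sm hω ⟨fun i => (floor_div_iff hW0 _ _).2 (hg i), fun i hi => absurd (Finset.mem_univ i) hi⟩
  -- the small cell
  have hcell : Sm Y W δ f ω ∅ ≤ |f ω (Y ω)| + e * (K * (2 * δ / W) * (extC N K ^ e * Su)) := by
    apply Sm_le
    intro z hz
    have h4 := (H.ax ω hω).bern H.hW H.hδ H.hδW (extC N K ^ e * Su) hcube z (fun i => by
      have h5 := hz.2 i (Finset.notMem_empty i)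
      have a1 := (floor_div_iff H.hδ (z i) _).1 h5
      have a2 := (floor_div_iff H.hδ (Y ω i) _).1 rfl
      rw [abs_le]
      constructor <;> linarith [a1.1, a1.2, a2.1, a2.2])
    have h5 : |f ω z| ≤ |f ω z - f ω (Y ω)| + |f ω (Y ω)| := by
      have := abs_add_le (f ω z - f ω (Y ω)) (f ω (Y ω))
      rwa [sub_add_cancel] at this
    linarith
  have h4 : (r ^ e - 2 * e * K * extC N K ^ e * (δ / W)) * Su ≤ |f ω (Y ω)| := by
    have e1 : (e : ℝ) * (K * (2 * δ / W) * (extC N K ^ e * Su)) = 2 * e * K * extC N K ^ e * (δ / W) * Su := by ring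
    rw [e1] at hcell
    have := h3.trans hcell
    rw [sub_mul]
    linarith
  by_cases hneg : r ^ e - 2 * e * K * extC N K ^ e * (δ / W) ≤ 0
  · exact (mul_nonpos_of_nonpos_of_nonneg hneg (abs_nonneg _)).trans (by positivity)
  · push Not at hneg
    calc (r ^ e - 2 * e * K * extC N K ^ e * (δ / W)) * |f ω y|
        ≤ (r ^ e - 2 * e * K * extC N K ^ e * (δ / W)) * (extC N K ^ e * Su) :=
          mul_le_mul_of_nonneg_left (hcube y hy) hneg.le
      _ = extC N K ^ e * ((r ^ e - 2 * e * K * extC N K ^ e * (δ / W)) * Su) := by ring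
      _ ≤ _ := mul_le_mul_of_nonneg_left h4 (by linarith)

end TvH

end

end Pool.Agent.Helper89.LX
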